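import Mathlib
/-!
# The decomposition of a graph into its maximal 2-densest parts
-/

set_option autoImplicit false
set_option linter.unusedSectionVars false
set_option linter.unusedVariables false

open Finset

namespace Pool.Agent.N437.RL

variable {V : Type} [Fintype V] [DecidableEq V]

/-- the vertices of a set of edges -/
def vs (A : Finset (Sym2 V)) : Finset V := univ.filter fun a => ∃ e ∈ A, a ∈ e

theorem mem_vs {A : Finset (Sym2 V)} {a : V} : a ∈ vs A ↔ ∃ e ∈ A, a ∈ e := by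
  simp [vs]

theorem vs_union (A B : Finset (Sym2 V)) : vs (A ∪ B) = vs A ∪ vs B := by
  ext a
  simp only [mem_vs, mem_union]
  constructor
  · rintro ⟨e, h1 | h1, h2⟩
    · exact Or.inl ⟨e, h1, h2⟩
    · exact Or.inr ⟨e, h1, h2⟩
  · rintro (⟨e, h1, h2⟩ | ⟨e, h1, h2⟩)
    · exact ⟨e, Or.inl h1, h2⟩
    · exact ⟨e, Or.inr h1, h2⟩

theorem vs_mono {A B : Finset (Sym2 V)} (h : A ⊆ B) : vs A ⊆ vs B := by
  intro a ha
  obtain ⟨e, h1, h2⟩ := mem_vs.1 ha
  exact mem_vs.2 ⟨e, h h1, h2⟩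

/-- the density condition -/
def Dens (E : Finset (Sym2 V)) (m : ℝ) : Prop :=
  ∀ A ⊆ E, ∀ S : Finset V, (∀ e ∈ A, ∀ a ∈ e, a ∈ S) → 2 ≤ S.card →
    (A.card : ℝ) - 1 ≤ m * ((S.card : ℝ) - 2)

/-- a part of density `m` -/
def Zero (E : Finset (Sym2 V)) (m : ℝ) (A : Finset (Sym2 V)) : Prop :=
  A ⊆ E ∧ A.Nonempty ∧ (A.card : ℝ) - 1 = m * (((vs A).card : ℝ) - 2)

theorem two_le_vs {E : Finset (Sym2 V)} (hE : ∀ e ∈ E, ¬ e.IsDiag) {A : Finset (Sym2 V)}
    (hA : A ⊆ E) (hne : A.Nonempty) : 2 ≤ (vs A).card := by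
  obtain ⟨e, he⟩ := hne
  have h1 := hE e (hA he)
  induction e with
  | _ a b =>
    rw [Sym2.mk_isDiag_iff] at h1
    have : ({a, b} : Finset V) ⊆ vs A := by
      intro c hc
      simp only [mem_insert, mem_singleton] at hc
      refine mem_vs.2 ⟨_, he, ?_⟩
      rcases hc with rfl | rfl <;> simp
    have h2 := card_le_card this
    rwa [card_pair h1] at h2

theorem union_zero {E : Finset (Sym2 V)} {m : ℝ} (hd : Dens E m) (hE : ∀ e ∈ E, ¬ e.IsDiag)
    {A B : Finset (Sym2 V)} (hA : Zero E m A) (hB : Zero E m B)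
    (h2 : 2 ≤ (vs A ∩ vs B).card) : Zero E m (A ∪ B) := by
  obtain ⟨a1, a2, a3⟩ := hA
  obtain ⟨b1, b2, b3⟩ := hB
  have hsub : A ∪ B ⊆ E := union_subset a1 b1
  have hne : (A ∪ B).Nonempty := a2.mono subset_union_left
  refine ⟨hsub, hne, ?_⟩
  have h3 := hd (A ∩ B) (inter_subset_left.trans a1) (vs A ∩ vs B) (by
    intro e he a ha
    have := mem_inter.1 he
    exact mem_inter.2 ⟨mem_vs.2 ⟨e, this.1, ha⟩, mem_vs.2 ⟨e, this.2, ha⟩⟩) h2
  have h4 := hd (A ∪ B) hsub (vs (A ∪ B)) (by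
    intro e he a ha
    exact mem_vs.2 ⟨e, he, ha⟩) (two_le_vs hE hsub hne)
  have h5 : ((A ∪ B).card : ℝ) + (A ∩ B).card = A.card + B.card := by
    exact_mod_cast card_union_add_card_inter A B
  have h6 : ((vs A ∪ vs B).card : ℝ) + (vs A ∩ vs B).card = (vs A).card + (vs B).card := by
    exact_mod_cast card_union_add_card_inter (vs A) (vs B)
  rw [vs_union] at h4 ⊢
  have h7 : ((A ∪ B).card : ℝ) - 1 ≥ m * (((vs A ∪ vs B).card : ℝ) - 2) := by
    have : m * (((vs A ∪ vs B).card : ℝ) - 2) = m * (((vs A).card : ℝ) - 2) +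
        m * (((vs B).card : ℝ) - 2) - m * (((vs A ∩ vs B).card : ℝ) - 2) := by
      have : ((vs A ∪ vs B).card : ℝ) = (vs A).card + (vs B).card - (vs A ∩ vs B).card := by
        linarith
      rw [this]
      ring
    linarith
  linarith

/-- the decomposition -/
theorem blobs {E : Finset (Sym2 V)} {m : ℝ} (hd : Dens E m) (hE : ∀ e ∈ E, ¬ e.IsDiag)
    (hne : E.Nonempty) : ∃ (k : ℕ) (A : Fin k → Finset (Sym2 V)), 0 < k ∧
      (∀ j, Zero E m (A j)) ∧ (∀ e ∈ E, ∃ j, e ∈ A j) ∧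
      (∀ i j, i ≠ j → (vs (A i) ∩ vs (A j)).card ≤ 1) ∧
      (∀ i j, i ≠ j → Disjoint (A i) (A j)) ∧
      ∀ J : Finset (Fin k), 2 ≤ J.card →
        ((∑ j ∈ J, (A j).card : ℕ) : ℝ) - 1 < m * (((J.biUnion fun j => vs (A j)).card : ℝ) - 2) := by
  classical
  set Mx : Finset (Finset (Sym2 V)) := E.powerset.filter fun A => Zero E m A ∧
    ∀ B, Zero E m B → A ⊆ B → A = B with hMx
  have hsingle : ∀ e ∈ E, Zero E m {e} := by
    intro e he
    refine ⟨singleton_subset_iff.2 he, singleton_nonempty e, ?_⟩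
    have h1 : vs ({e} : Finset (Sym2 V)) = univ.filter fun a => a ∈ e := by
      ext a
      simp [mem_vs]
    have h2 := hE e he
    have h3 : (vs ({e} : Finset (Sym2 V))).card = 2 := by
      rw [h1]
      induction e with
      | _ a b =>
        rw [Sym2.mk_isDiag_iff] at h2
        have : (univ.filter fun c => c ∈ s(a, b)) = {a, b} := by
          ext c
          simp
        rw [this, card_pair h2]
    rw [h3]
    simp
  have hext : ∀ A, Zero E m A → ∃ B ∈ Mx, A ⊆ B := by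
    intro A hA
    -- choose a zero set of maximal size containing `A`
    have hfin : (E.powerset.filter fun B => Zero E m B ∧ A ⊆ B).Nonempty :=
      ⟨A, mem_filter.2 ⟨mem_powerset.2 hA.1, hA, Subset.rfl⟩⟩
    obtain ⟨B, hB, hmax⟩ := exists_max_image _ card hfin
    have hB' := mem_filter.1 hB
    refine ⟨B, mem_filter.2 ⟨hB'.1, hB'.2.1, ?_⟩, hB'.2.2⟩
    intro C hC hBC
    have := hmax C (mem_filter.2 ⟨mem_powerset.2 hC.1, hC, hB'.2.2.trans hBC⟩)
    exact eq_of_subset_of_card_le hBC this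
  have hMne : Mx.Nonempty := by
    obtain ⟨e, he⟩ := hne
    obtain ⟨B, hB, _⟩ := hext _ (hsingle e he)
    exact ⟨B, hB⟩
  set eq := Mx.equivFin with heq
  set A : Fin Mx.card → Finset (Sym2 V) := fun j => (eq.symm j : Finset (Sym2 V)) with hA
  have hAM : ∀ j, A j ∈ Mx := fun j => (eq.symm j).2
  have hinj : ∀ i j, A i = A j → i = j := by
    intro i j h
    exact eq.symm.injective (Subtype.ext h)
  have hz : ∀ j, Zero E m (A j) := fun j => (mem_filter.1 (hAM j)).2.1
  have hmax : ∀ j B, Zero E m B → A j ⊆ B → A j = B := fun j => (mem_filter.1 (hAM j)).2.2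
  have hinter : ∀ i j, i ≠ j → (vs (A i) ∩ vs (A j)).card ≤ 1 := by
    intro i j hij
    by_contra hcon
    have h1 := union_zero hd hE (hz i) (hz j) (by omega)
    have h2 := hmax i _ h1 subset_union_left
    have h3 := hmax j _ h1 subset_union_right
    exact hij (hinj i j (h2.trans h3.symm))
  have hdisj : ∀ i j, i ≠ j → Disjoint (A i) (A j) := by
    intro i j hij
    rw [disjoint_left]
    intro e h1 h2
    have h3 := hinter i j hij
    have h4 := two_le_vs hE (singleton_subset_iff.2 ((hz i).1 h1)) (singleton_nonempty e)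
    have h5 : vs {e} ⊆ vs (A i) ∩ vs (A j) :=
      subset_inter (vs_mono (singleton_subset_iff.2 h1)) (vs_mono (singleton_subset_iff.2 h2))
    have := card_le_card h5
    omega
  refine ⟨Mx.card, A, card_pos.2 hMne, hz, ?_, hinter, hdisj, ?_⟩
  · intro e he
    obtain ⟨B, hB, h1⟩ := hext _ (hsingle e he)
    refine ⟨eq ⟨B, hB⟩, ?_⟩
    simp only [hA, Equiv.symm_apply_apply]
    exact h1 (mem_singleton_self e)
  · intro J hJ
    have hJne : J.Nonempty := card_pos.1 (by omega)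
    set U := J.biUnion A with hU
    have hUE : U ⊆ E := by
      rw [hU, biUnion_subset]
      exact fun j _ => (hz j).1
    have hUne : U.Nonempty := by
      obtain ⟨j, hj⟩ := hJne
      obtain ⟨e, he⟩ := (hz j).2.1
      exact ⟨e, mem_biUnion.2 ⟨j, hj, he⟩⟩
    have hvs : vs U = J.biUnion fun j => vs (A j) := by
      ext a
      simp only [mem_vs, hU, mem_biUnion]
      constructor
      · rintro ⟨e, ⟨j, h1, h2⟩, h3⟩
        exact ⟨j, h1, e, h2, h3⟩
      · rintro ⟨j, h1, e, h2, h3⟩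
        exact ⟨e, ⟨j, h1, h2⟩, h3⟩
    have hcard : U.card = ∑ j ∈ J, (A j).card :=
      card_biUnion fun i _ j _ hij => hdisj i j hij
    rw [← hvs, ← hcard]
    have h1 := hd U hUE (vs U) (fun e he a ha => mem_vs.2 ⟨e, he, ha⟩) (two_le_vs hE hUE hUne)
    refine lt_of_le_of_ne h1 fun h2 => ?_
    have hzU : Zero E m U := ⟨hUE, hUne, h2⟩
    obtain ⟨i, hi, j, hj, hij⟩ := one_lt_card.1 (by omega : 1 < J.card)
    have h3 := hmax i U hzU (subset_biUnion_of_mem A hi)
    have h4 := hmax j U hzU (subset_biUnion_of_mem A hj)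
    exact hij (hinj i j (h3.trans h4.symm))

end Pool.Agent.N437.RL
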