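import Mathlib
/-!
# Conditional expectations on finite sets and cut uniformity
-/

set_option autoImplicit false
set_option linter.unusedSectionVars false

open Finset

namespace Pool.Agent.N437.RL

section cond

variable {Ω Q Q' : Type} [Fintype Ω] [DecidableEq Ω] [DecidableEq Q] [DecidableEq Q']

/-- the class of `ω` -/
def cls (π : Ω → Q) (ω : Ω) : Finset Ω := univ.filter fun ω' => π ω' = π ω

/-- conditional expectation -/
noncomputable def cE (π : Ω → Q) (F : Ω → ℝ) (ω : Ω) : ℝ :=
  (∑ ω' ∈ cls π ω, F ω') / (cls π ω).card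

theorem cls_pos (π : Ω → Q) (ω : Ω) : (0 : ℝ) < (cls π ω).card := by
  have : 0 < (cls π ω).card := card_pos.2 ⟨ω, by simp [cls]⟩
  exact_mod_cast this

theorem cls_congr {π : Ω → Q} {ω ω' : Ω} (h : π ω = π ω') : cls π ω = cls π ω' := by
  unfold cls
  rw [h]

theorem cE_congr {π : Ω → Q} (F : Ω → ℝ) {ω ω' : Ω} (h : π ω = π ω') : cE π F ω = cE π F ω' := by
  unfold cE
  rw [cls_congr h]

theorem sum_cE_mul (π : Ω → Q) (F g : Ω → ℝ) (hg : ∀ ω ω', π ω = π ω' → g ω = g ω') :
    ∑ ω, cE π F ω * g ω = ∑ ω, F ω * g ω := by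
  have h1 : ∀ ω, cE π F ω * g ω = ∑ ω', if π ω' = π ω then F ω' * (g ω / (cls π ω).card) else 0 := by
    intro ω
    unfold cE
    rw [← sum_filter, div_mul_eq_mul_div, sum_mul, sum_div]
    refine sum_congr rfl fun ω' _ => ?_
    ring
  rw [sum_congr rfl fun ω _ => h1 ω, sum_comm]
  refine sum_congr rfl fun ω' _ => ?_
  rw [← sum_filter]
  have h2 : ∀ ω ∈ univ.filter (fun ω => π ω' = π ω), F ω' * (g ω / (cls π ω).card) =
      F ω' * (g ω' / (cls π ω').card) := by
    intro ω hω
    have h := (mem_filter.1 hω).2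
    rw [cls_congr h, hg _ _ h]
  rw [sum_congr rfl h2, sum_const, nsmul_eq_mul]
  have h3 : (univ.filter (fun ω => π ω' = π ω)) = cls π ω' := by
    unfold cls
    refine filter_congr fun ω _ => ?_
    exact eq_comm
  rw [h3]
  have := cls_pos π ω'
  field_simp

theorem cE_nonneg {π : Ω → Q} {F : Ω → ℝ} (h : ∀ ω, 0 ≤ F ω) (ω : Ω) : 0 ≤ cE π F ω :=
  div_nonneg (sum_nonneg fun ω' _ => h ω') (cls_pos π ω).le

theorem cE_le_one {π : Ω → Q} {F : Ω → ℝ} (h : ∀ ω, F ω ≤ 1) (ω : Ω) : cE π F ω ≤ 1 := by
  unfold cE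
  rw [div_le_one (cls_pos π ω)]
  refine (sum_le_sum fun ω' _ => h ω').trans ?_
  simp

theorem sum_cE (π : Ω → Q) (F : Ω → ℝ) : ∑ ω, cE π F ω = ∑ ω, F ω := by
  have := sum_cE_mul π F (fun _ => 1) (fun _ _ _ => rfl)
  simpa using this

/-- refinement -/
def Ref (π' : Ω → Q') (π : Ω → Q) : Prop := ∀ ω ω', π' ω = π' ω' → π ω = π ω'

theorem pyth {π : Ω → Q} {π' : Ω → Q'} (h : Ref π' π) (F : Ω → ℝ) :
    ∑ ω, (cE π' F ω - cE π F ω) ^ 2 = ∑ ω, cE π' F ω ^ 2 - ∑ ω, cE π F ω ^ 2 := by
  have h1 : ∑ ω, cE π' F ω * cE π F ω = ∑ ω, cE π F ω ^ 2 := by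
    rw [sum_cE_mul π' F (cE π F) (fun ω ω' h' => cE_congr F (h ω ω' h'))]
    rw [← sum_cE_mul π F (cE π F) (fun ω ω' h' => cE_congr F h')]
    exact sum_congr rfl fun ω _ => (sq _).symm
  have h2 : ∀ ω, (cE π' F ω - cE π F ω) ^ 2 =
      cE π' F ω ^ 2 - 2 * (cE π' F ω * cE π F ω) + cE π F ω ^ 2 := fun ω => by ring
  rw [sum_congr rfl fun ω _ => h2 ω, sum_add_distrib, sum_sub_distrib, ← mul_sum, h1]
  ring

theorem cE_mono {π : Ω → Q} {F G : Ω → ℝ} (h : ∀ ω, F ω ≤ G ω) (ω : Ω) : cE π F ω ≤ cE π G ω := by
  unfold cE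
  exact div_le_div_of_nonneg_right (sum_le_sum fun ω' _ => h ω') (cls_pos π ω).le

end cond

section cut

variable {I X : Type} [Fintype I] [DecidableEq I] [Fintype X] [DecidableEq X]

/-- cut uniformity -/
def Cut (F : (I → X) → ℝ) (κ : ℝ) : Prop :=
  ∀ A : I → Finset X, |∑ y : I → X, F y * ∏ a, (if y a ∈ A a then (1 : ℝ) else 0)| ≤
    κ * (Fintype.card X : ℝ) ^ Fintype.card I

theorem cut_ext {F : (I → X) → ℝ} {κ : ℝ} (h : Cut F κ) (u : I → X → ℝ)
    (hu : ∀ a x, 0 ≤ u a x ∧ u a x ≤ 1) :
    |∑ y : I → X, F y * ∏ a, u a (y a)| ≤ κ * (Fintype.card X : ℝ) ^ Fintype.card I := by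
  classical
  have key : ∀ s : Finset I, ∀ u : I → X → ℝ, (∀ a x, 0 ≤ u a x ∧ u a x ≤ 1) →
      (∀ a, a ∉ s → ∃ A : Finset X, ∀ x, u a x = if x ∈ A then (1 : ℝ) else 0) →
      |∑ y : I → X, F y * ∏ a, u a (y a)| ≤ κ * (Fintype.card X : ℝ) ^ Fintype.card I := by
    intro s
    induction s using Finset.induction_on with
    | empty =>
      intro u _ h2
      choose A hA using fun a => h2 a (notMem_empty a)
      have := h A
      simpa [hA] using this
    | insert a s _ ih =>
      intro u h1 h2
      -- the coefficient of `u a x`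
      set c : X → ℝ := fun x => ∑ y : I → X, if y a = x then F y * ∏ b ∈ univ.erase a, u b (y b)
        else 0 with hc
      have lin : ∀ w : X → ℝ, ∑ y : I → X, F y * ∏ b, Function.update u a w b (y b) =
          ∑ x, w x * c x := by
        intro w
        simp only [hc, mul_sum]
        rw [sum_comm]
        refine sum_congr rfl fun y _ => ?_
        rw [← mul_prod_erase univ _ (mem_univ a)]
        have h3 : ∏ b ∈ univ.erase a, Function.update u a w b (y b) =
            ∏ b ∈ univ.erase a, u b (y b) := by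
          refine prod_congr rfl fun b hb => ?_
          rw [Function.update_of_ne (ne_of_mem_erase hb)]
        rw [h3, Function.update_self]
        simp only [mul_ite, mul_zero]
        rw [sum_ite_eq univ (y a)]
        simp
        ring
      have hU : ∑ y : I → X, F y * ∏ b, u b (y b) = ∑ x, u a x * c x := by
        have := lin (u a)
        rwa [Function.update_eq_self] at this
      have bnd : ∀ A : Finset X, |∑ x, (if x ∈ A then (1 : ℝ) else 0) * c x| ≤
          κ * (Fintype.card X : ℝ) ^ Fintype.card I := by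
        intro A
        rw [← lin]
        refine ih _ ?_ ?_
        · intro b x
          by_cases hb : b = a
          · subst hb
            rw [Function.update_self]
            split_ifs <;> norm_num
          · rw [Function.update_of_ne hb]
            exact h1 b x
        · intro b hb
          by_cases hb' : b = a
          · subst hb'
            exact ⟨A, fun x => by rw [Function.update_self]⟩
          · obtain ⟨A', hA'⟩ := h2 b (by simp [hb, hb'])
            exact ⟨A', fun x => by rw [Function.update_of_ne hb', hA' x]⟩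
      rw [hU, abs_le]
      constructor
      · have h4 := (abs_le.1 (bnd (univ.filter fun x => c x < 0))).1
        refine h4.trans (sum_le_sum fun x _ => ?_)
        by_cases hx : c x < 0
        · simp only [mem_filter, mem_univ, true_and, hx, if_true]
          have := (h1 a x).2
          nlinarith
        · simp only [mem_filter, mem_univ, true_and, hx, if_false]
          have := (h1 a x).1
          have := not_lt.1 hx
          rw [zero_mul]
          positivity
      · have h4 := (abs_le.1 (bnd (univ.filter fun x => 0 < c x))).2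
        refine le_trans (sum_le_sum fun x _ => ?_) h4
        by_cases hx : 0 < c x
        · simp only [mem_filter, mem_univ, true_and, hx, if_true]
          have := (h1 a x).2
          nlinarith
        · simp only [mem_filter, mem_univ, true_and, hx, if_false]
          have h5 := (h1 a x).1
          have h6 := not_lt.1 hx
          rw [zero_mul]
          exact mul_nonpos_of_nonneg_of_nonpos h5 h6
  exact key univ u hu fun a ha => absurd (mem_univ a) ha

end cut

end Pool.Agent.N437.RL
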