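import Pool.Agent.N437.RL.Sum
/-!
# The core estimate
-/

set_option autoImplicit false
set_option linter.unusedSectionVars false
set_option linter.unusedVariables false

open Finset

namespace Pool.Agent.N437.RL

variable {V : Type} [Fintype V] [DecidableEq V] {Y : Type} [Fintype Y] [DecidableEq Y] [Nonempty Y]

/-- the number of labelled copies -/
def nh (E : Finset (Sym2 V)) (EG : Finset (Sym2 Y)) : ℕ :=
  (univ.filter fun φ : V → Y => Function.Injective φ ∧ ∀ e ∈ E, Sym2.map φ e ∈ EG).card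

/-- the bad event -/
def BadE (E : Finset (Sym2 V)) (ε δ p : ℝ) (EG₀ : Finset (Sym2 Y)) : Prop :=
  ∃ EG ⊆ EG₀, (nh E EG : ℝ) ≤ δ * (p ^ E.card * (Fintype.card Y : ℝ) ^ Fintype.card V) ∧
    ∀ E'' ⊆ EG, HFree E E'' → ε * (p * (Fintype.card Y : ℝ) ^ 2) < (EG.card : ℝ) - E''.card

open Classical in
/-- the exceptional sets -/
noncomputable def YR {k : ℕ} (A : Fin k → Finset (Sym2 V)) (EG : Finset (Sym2 Y)) (μl : Fin k → ℝ)
    (T : ℕ → ∀ j, Finset (vs (A j) → Y)) (r : ℕ) (j : Fin k) : Finset (vs (A j) → Y) :=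
  univ.filter fun u => Function.Injective u ∧ EE A ⟨j, u⟩ ⊆ EG ∧
    μl j ≤ ∑ y : ∀ i, (vs (A i) → Y), if (y j = u ∧ ∀ i ∈ univ.erase j, y i ∈ T r i) then
      w0 (fun j => vs (A j)) y else 0

theorem YR_card {k : ℕ} {A : Fin k → Finset (Sym2 V)} {E : Finset (Sym2 V)}
    (hcov : ∀ e ∈ E, ∃ j, e ∈ A j) {EG : Finset (Sym2 Y)} {μl : Fin k → ℝ}
    {T : ℕ → ∀ j, Finset (vs (A j) → Y)} {s : ℕ} (hG : Good A EG (lab T s)) {r : ℕ} (hr : r < s)
    (j : Fin k) : ((YR A EG μl T r j).card : ℝ) * μl j ≤ nh E EG := by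
  classical
  have h1 : ((YR A EG μl T r j).card : ℝ) * μl j ≤ ∑ u ∈ YR A EG μl T r j,
      ∑ y : ∀ i, (vs (A i) → Y), if (y j = u ∧ ∀ i ∈ univ.erase j, y i ∈ T r i) then
      w0 (fun j => vs (A j)) y else 0 := by
    rw [← nsmul_eq_mul]
    refine card_nsmul_le_sum _ _ _ fun u hu => ?_
    unfold YR at hu
    refine (mem_filter.1 hu).2.2.2.trans (le_of_eq ?_)
    refine sum_congr rfl fun y _ => ?_
    by_cases hy : y j = u ∧ ∀ i ∈ univ.erase j, y i ∈ T r i
    · simp only [if_pos hy]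
    · simp only [if_neg hy]
  refine h1.trans ?_
  rw [sum_comm]
  have h2 : ∀ y : ∀ i, (vs (A i) → Y), (∑ u ∈ YR A EG μl T r j,
      if (y j = u ∧ ∀ i ∈ univ.erase j, y i ∈ T r i) then w0 (fun j => vs (A j)) y else 0) =
      if (y j ∈ YR A EG μl T r j ∧ ∀ i ∈ univ.erase j, y i ∈ T r i) then
        w0 (fun j => vs (A j)) y else 0 := by
    intro y
    by_cases h3 : ∀ i ∈ univ.erase j, y i ∈ T r i
    · have h4 : ∀ u, (y j = u ∧ ∀ i ∈ univ.erase j, y i ∈ T r i) ↔ y j = u := fun u =>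
        ⟨fun h => h.1, fun h => ⟨h, h3⟩⟩
      have h5 : (y j ∈ YR A EG μl T r j ∧ ∀ i ∈ univ.erase j, y i ∈ T r i) ↔
          y j ∈ YR A EG μl T r j := ⟨fun h => h.1, fun h => ⟨h, h3⟩⟩
      simp only [h4, h5]
      rw [sum_ite_eq]
    · rw [if_neg (fun h => h3 h.2)]
      exact sum_eq_zero fun u _ => if_neg fun h => h3 h.2
  rw [sum_congr rfl fun y _ => h2 y]
  have h3 := sum_w0 (Y := Y) (fun j => vs (A j)) (fun y => y j ∈ YR A EG μl T r j ∧
    ∀ i ∈ univ.erase j, y i ∈ T r i)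
  have h4 : ∑ y : ∀ i, (vs (A i) → Y), (if (y j ∈ YR A EG μl T r j ∧
      ∀ i ∈ univ.erase j, y i ∈ T r i) then w0 (fun j => vs (A j)) y else 0) =
      ((univ.filter fun φ : V → Y => Function.Injective φ ∧
        (res (vs (A j)) φ ∈ YR A EG μl T r j ∧
          ∀ i ∈ univ.erase j, res (vs (A i)) φ ∈ T r i)).card : ℝ) := by
    refine Eq.trans ?_ (h3.trans ?_)
    · refine sum_congr rfl fun y _ => ?_
      by_cases hy : y j ∈ YR A EG μl T r j ∧ ∀ i ∈ univ.erase j, y i ∈ T r i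
      · rw [if_pos hy, if_pos hy]
      · rw [if_neg hy, if_neg hy]
    · congr 1
      congr 1
      ext φ
      simp only [mem_filter]
  rw [h4]
  unfold nh
  have h5 : (univ.filter fun φ : V → Y => Function.Injective φ ∧
      (res (vs (A j)) φ ∈ YR A EG μl T r j ∧ ∀ i ∈ univ.erase j, res (vs (A i)) φ ∈ T r i)) ⊆
      univ.filter fun φ : V → Y => Function.Injective φ ∧ ∀ e ∈ E, Sym2.map φ e ∈ EG := by
    intro φ hφ
    obtain ⟨b1, b2, b3⟩ := (mem_filter.1 hφ).2
    refine mem_filter.2 ⟨mem_univ _, b1, fun e he => ?_⟩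
    obtain ⟨i, hi⟩ := hcov e he
    have h6 : EE A ⟨i, res (vs (A i)) φ⟩ ⊆ EG := by
      by_cases hij : i = j
      · subst hij
        unfold YR at b2
        exact (mem_filter.1 b2).2.2.1
      · have h7 := b3 i (mem_erase.2 ⟨hij, mem_univ _⟩)
        have h8 : (r, (⟨i, res (vs (A i)) φ⟩ : Σ j, (vs (A j) → Y))) ∈ lab T s :=
          mem_lab.2 ⟨hr, h7⟩
        exact (hG.1 _ h8).2
    refine h6 ?_
    unfold EE
    rw [Eb_res Subset.rfl φ]
    exact mem_image_of_mem _ hi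
  exact_mod_cast card_le_card h5

theorem card_lab_le {ι : Type} [Fintype ι] [DecidableEq ι] {X : ι → Type} [∀ i, Fintype (X i)]
    [∀ i, DecidableEq (X i)] {T : ℕ → ∀ i, Finset (X i)} {s t : ℕ} (h : ∀ r i, (T r i).card ≤ t) :
    (lab T s).card ≤ s * (Fintype.card ι * t) := by
  unfold lab
  refine (card_biUnion_le_card_mul _ _ (Fintype.card ι * t) fun r _ => ?_).trans (le_of_eq ?_)
  · refine card_image_le.trans ?_
    rw [card_sigma]
    refine (sum_le_card_nsmul _ _ t fun i _ => h r i).trans (le_of_eq ?_)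
    rw [card_univ, smul_eq_mul]
  · rw [card_range]

theorem lab_congr {ι : Type} [Fintype ι] [DecidableEq ι] {X : ι → Type} [∀ i, Fintype (X i)]
    [∀ i, DecidableEq (X i)] {T T' : ℕ → ∀ i, Finset (X i)} {s : ℕ} (h : ∀ r < s, T r = T' r) :
    lab T s = lab T' s := by
  ext x
  rw [mem_lab, mem_lab]
  constructor
  · rintro ⟨h1, h2⟩
    exact ⟨h1, by rw [← h _ h1]; exact h2⟩
  · rintro ⟨h1, h2⟩
    exact ⟨h1, by rw [h _ h1]; exact h2⟩

theorem ex_eq {ι : Type} {X : ι → Type} {s : ℕ} (T : ℕ → ∀ j, Finset (X j)) :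
    ∀ r < s, ex (fun r : Fin s => T r) r = T r := by
  intro r hr
  unfold ex
  rw [dif_pos hr]

theorem good_mono_right {k : ℕ} {A : Fin k → Finset (Sym2 V)} {EG EG' : Finset (Sym2 Y)}
    (h : EG ⊆ EG') {Q : Finset (ℕ × Σ j, (vs (A j) → Y))} (hG : Good A EG Q) : Good A EG' Q :=
  ⟨fun x hx => ⟨(hG.1 x hx).1, (hG.1 x hx).2.trans h⟩, hG.2⟩

/-- the removal step for a container with few copies -/
theorem rem_step {k : ℕ} (A : Fin k → Finset (Sym2 V)) {γ₁ ε' : ℝ} (hγ₁ : 0 < γ₁)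
    (hrem : ∀ (X : Type) [Fintype X] [DecidableEq X] [Nonempty X] (C : ∀ j, Finset (vs (A j) → X)),
      ((univ.filter fun φ : V → X => ∀ j, res (vs (A j)) φ ∈ C j).card : ℝ) ≤
        γ₁ * (Fintype.card X : ℝ) ^ Fintype.card V →
      ∃ D : ∀ j, Finset (vs (A j) → X),
        (∀ j, ((D j).card : ℝ) ≤ ε' * (Fintype.card X : ℝ) ^ Fintype.card (vs (A j))) ∧
        ∀ φ : V → X, (∀ j, res (vs (A j)) φ ∈ C j) → ∃ j, res (vs (A j)) φ ∈ D j)
    (hn : (Fintype.card V : ℝ) ^ 2 / (γ₁ / 2) ≤ Fintype.card Y)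
    (C : ∀ j, Finset (vs (A j) → Y))
    (htot : ∑ y, wC (w0 (fun j => vs (A j))) C y <
      γ₁ / 2 * (Fintype.card Y : ℝ) ^ Fintype.card V) :
    ∃ D : ∀ j, Finset (vs (A j) → Y),
      (∀ j, ((D j).card : ℝ) ≤ ε' * (Fintype.card Y : ℝ) ^ (vs (A j)).card) ∧
      ∀ φ : V → Y, (∀ j, res (vs (A j)) φ ∈ C j) → ∃ j, res (vs (A j)) φ ∈ D j := by
  classical
  have hY : (0 : ℝ) < Fintype.card Y := by exact_mod_cast Fintype.card_pos
  have h1 : ((univ.filter fun φ : V → Y => ∀ j, res (vs (A j)) φ ∈ C j).card : ℝ) ≤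
      γ₁ * (Fintype.card Y : ℝ) ^ Fintype.card V := by
    have h2 : (univ.filter fun φ : V → Y => ∀ j, res (vs (A j)) φ ∈ C j) ⊆
        (univ.filter fun φ : V → Y => Function.Injective φ ∧ ∀ j, res (vs (A j)) φ ∈ C j) ∪
        univ.filter fun φ : V → Y => ¬ Function.Injective φ := by
      intro φ hφ
      by_cases hi : Function.Injective φ
      · exact mem_union_left _ (mem_filter.2 ⟨mem_univ _, hi, (mem_filter.1 hφ).2⟩)
      · exact mem_union_right _ (mem_filter.2 ⟨mem_univ _, hi⟩)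
    have h3 : ((univ.filter fun φ : V → Y => ∀ j, res (vs (A j)) φ ∈ C j).card : ℝ) ≤
        ((univ.filter fun φ : V → Y => Function.Injective φ ∧
          ∀ j, res (vs (A j)) φ ∈ C j).card : ℝ) +
        ((univ.filter fun φ : V → Y => ¬ Function.Injective φ).card : ℝ) := by
      have := (card_le_card h2).trans (card_union_le _ _)
      exact_mod_cast this
    have h4 : ((univ.filter fun φ : V → Y => Function.Injective φ ∧
          ∀ j, res (vs (A j)) φ ∈ C j).card : ℝ) = ∑ y, wC (w0 (fun j => vs (A j))) C y := by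
      have h5 := sum_w0 (Y := Y) (fun j => vs (A j)) (fun y => ∀ i, y i ∈ C i)
      symm
      refine Eq.trans ?_ (h5.trans ?_)
      · refine sum_congr rfl fun y _ => ?_
        unfold wC
        by_cases hy : ∀ i, y i ∈ C i
        · rw [if_pos hy, if_pos hy]
        · rw [if_neg hy, if_neg hy]
      · congr 1
        congr 1
        ext φ
        simp only [mem_filter]
    have h5 := noninj_card (V := V) (Y := Y)
    have h6 : ((univ.filter fun φ : V → Y => ¬ Function.Injective φ).card : ℝ) ≤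
        γ₁ / 2 * (Fintype.card Y : ℝ) ^ Fintype.card V := by
      rw [div_le_iff₀ (by positivity)] at hn
      have hW : (0 : ℝ) < (Fintype.card Y : ℝ) ^ Fintype.card V := by positivity
      have h7 : ((univ.filter fun φ : V → Y => ¬ Function.Injective φ).card : ℝ) *
          Fintype.card Y ≤ (γ₁ / 2 * (Fintype.card Y : ℝ) ^ Fintype.card V) * Fintype.card Y := by
        refine h5.trans ?_
        have := mul_le_mul_of_nonneg_right hn hW.le
        linarith
      exact le_of_mul_le_mul_right h7 hY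
    rw [h4] at h3
    linarith
  obtain ⟨D, hD1, hD2⟩ := hrem Y C h1
  refine ⟨D, fun j => (hD1 j).trans (le_of_eq ?_), hD2⟩
  rw [Fintype.card_coe]

end Pool.Agent.N437.RL
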