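import Pool.Agent.N437.RL.Count
/-!
# The removal lemma for linear hypergraphs
-/

set_option autoImplicit false
set_option linter.unusedSectionVars false

open Finset

namespace Pool.Agent.N437.RL

section aux

variable {X : Type} [Fintype X] [DecidableEq X] [Nonempty X]
variable {J : Type} [Fintype J] [DecidableEq J]

theorem card_coord (a : J) (B : Finset X) :
    ((univ.filter fun y : J → X => y a ∈ B).card : ℝ) * Fintype.card X =
      B.card * (Fintype.card X : ℝ) ^ Fintype.card J := by
  classical
  have h1 : (univ.filter fun y : J → X => y a ∈ B) =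
      Fintype.piFinset fun b => if b = a then B else univ := by
    ext y
    simp only [mem_filter, mem_univ, true_and, Fintype.mem_piFinset]
    constructor
    · intro h b
      by_cases hb : b = a
      · subst hb
        simpa using h
      · simp [hb]
    · intro h
      have := h a
      simpa using this
  rw [h1, Fintype.card_piFinset, ← mul_prod_erase univ _ (mem_univ a), if_pos rfl]
  have h2 : ∏ b ∈ univ.erase a, (if b = a then B else univ).card =
      ∏ b ∈ univ.erase a, Fintype.card X := by
    refine prod_congr rfl fun b hb => ?_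
    rw [if_neg (ne_of_mem_erase hb), card_univ]
  rw [h2, prod_const, card_erase_of_mem (mem_univ a), card_univ]
  have h3 : 0 < Fintype.card J := Fintype.card_pos_iff.2 ⟨a⟩
  obtain ⟨m, hm⟩ : ∃ m, Fintype.card J = m + 1 := ⟨Fintype.card J - 1, by omega⟩
  rw [hm]
  push_cast
  ring

theorem card_small {P : Type} [Fintype P] [DecidableEq P] (c : X → P) {β : ℝ}
    {M : ℕ} (hM : Fintype.card P ≤ M) (hβ : 0 ≤ β) :
    ((univ.filter fun x : X => ((univ.filter fun x' : X => c x' = c x).card : ℝ) <
      β * Fintype.card X).card : ℝ) ≤ M * (β * Fintype.card X) := by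
  classical
  set Sm := univ.filter fun x : X => ((univ.filter fun x' : X => c x' = c x).card : ℝ) <
      β * Fintype.card X
  have h1 : Sm.card = ∑ p : P, (Sm.filter fun x => c x = p).card :=
    card_eq_sum_card_fiberwise fun x _ => mem_univ (c x)
  have h2 : ∀ p ∈ (univ : Finset P), ((Sm.filter fun x => c x = p).card : ℝ) ≤
      β * Fintype.card X := by
    intro p _
    by_cases hne : (Sm.filter fun x => c x = p).Nonempty
    · obtain ⟨x, hx⟩ := hne
      have hx' := mem_filter.1 hx
      have hx'' := (mem_filter.1 hx'.1).2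
      refine le_trans ?_ hx''.le
      have : (Sm.filter fun x => c x = p) ⊆ univ.filter fun x' : X => c x' = c x := by
        intro x' h
        rw [mem_filter] at h ⊢
        exact ⟨mem_univ _, by rw [h.2, hx'.2]⟩
      exact_mod_cast card_le_card this
    · rw [not_nonempty_iff_eq_empty] at hne
      rw [hne]
      simp only [card_empty, Nat.cast_zero]
      positivity
  rw [h1]
  push_cast
  refine (sum_le_sum h2).trans ?_
  rw [sum_const, card_univ, nsmul_eq_mul]
  have : (Fintype.card P : ℝ) ≤ M := by exact_mod_cast hM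
  exact mul_le_mul_of_nonneg_right this (by positivity)

theorem prod_diff_le {ι : Type} (s : Finset ι) (x y : ι → ℝ) (hx : ∀ i, 0 ≤ x i ∧ x i ≤ 1)
    (hy : ∀ i, 0 ≤ y i ∧ y i ≤ 1) : ∏ i ∈ s, y i - ∑ i ∈ s, |x i - y i| ≤ ∏ i ∈ s, x i := by
  classical
  induction s using Finset.induction_on with
  | empty => simp
  | insert a s ha ih =>
    rw [prod_insert ha, prod_insert ha, sum_insert ha]
    have h1 : 0 ≤ ∏ i ∈ s, y i ∧ ∏ i ∈ s, y i ≤ 1 := ⟨prod_nonneg fun i _ => (hy i).1,
      prod_le_one (fun i _ => (hy i).1) fun i _ => (hy i).2⟩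
    have h2 : 0 ≤ ∏ i ∈ s, x i := prod_nonneg fun i _ => (hx i).1
    have h3 : 0 ≤ ∑ i ∈ s, |x i - y i| := sum_nonneg fun _ _ => abs_nonneg _
    have h4 := hx a
    have h5 := hy a
    have h6 : y a - x a ≤ |x a - y a| := by
      rw [abs_sub_comm]
      exact le_abs_self _
    have h7 : (y a - x a) * ∏ i ∈ s, y i ≤ |x a - y a| := by
      by_cases h : 0 ≤ y a - x a
      · nlinarith
      · push Not at h
        have : (y a - x a) * ∏ i ∈ s, y i ≤ 0 := mul_nonpos_of_nonpos_of_nonneg h.le h1.1
        exact this.trans (abs_nonneg _)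
    have h8 : x a * (∏ i ∈ s, y i - ∑ i ∈ s, |x i - y i|) ≤ x a * ∏ i ∈ s, x i :=
      mul_le_mul_of_nonneg_left ih h4.1
    nlinarith

end aux

variable {V : Type} [Fintype V] [DecidableEq V]

theorem removal {k : ℕ} (S : Fin k → Finset V) (hS : ∀ i j, i ≠ j → (S i ∩ S j).card ≤ 1)
    {ε : ℝ} (hε : 0 < ε) : ∃ γ : ℝ, 0 < γ ∧ ∀ (X : Type) [Fintype X] [DecidableEq X] [Nonempty X]
    (C : ∀ j, Finset (S j → X)),
    ((univ.filter fun φ : V → X => ∀ j, res (S j) φ ∈ C j).card : ℝ) ≤
      γ * (Fintype.card X : ℝ) ^ Fintype.card V →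
    ∃ D : ∀ j, Finset (S j → X),
      (∀ j, ((D j).card : ℝ) ≤ ε * (Fintype.card X : ℝ) ^ Fintype.card (S j)) ∧
      ∀ φ : V → X, (∀ j, res (S j) φ ∈ C j) → ∃ j, res (S j) φ ∈ D j := by
  classical
  -- the constants
  set v : ℕ := Fintype.card V with hv
  set α : ℝ := ε / 3 with hα
  have hα0 : 0 < α := by positivity
  set σ : ℝ := α ^ k / (2 * (k + 1)) with hσ
  have hσ0 : 0 < σ := by positivity
  set β : ℕ → ℝ := fun M => min 1 (ε / (3 * (v + 1) * (M + 1))) with hβ
  have hβ0 : ∀ M, 0 < β M := fun M => lt_min one_pos (by positivity)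
  have hβ1 : ∀ M, β M ≤ 1 := fun M => min_le_left _ _
  have hβm : ∀ M M', M ≤ M' → β M' ≤ β M := by
    intro M M' h
    refine min_le_min le_rfl ?_
    have : (M : ℝ) ≤ M' := by exact_mod_cast h
    gcongr
  set F : ℕ → ℝ := fun M => α ^ k * β M ^ v / (8 * (k + 1)) with hF
  have hF0 : ∀ M, 0 < F M := fun M => by
    have := hβ0 M
    positivity
  set ζ : ℝ := σ ^ 2 * ε / 3 with hζ
  have hζ0 : 0 < ζ := by positivity
  obtain ⟨i₀, hi₀⟩ := exists_nat_ge ((k : ℝ) / ζ)
  obtain ⟨M', hM'⟩ := strong (fun j => (S j : Type)) F hF0 hζ0 i₀ 1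
  refine ⟨α ^ k * β M' ^ v / 8, by have := hβ0 M'; positivity, ?_⟩
  intro X _ _ _ C hC
  set f : ∀ j, (S j → X) → ℝ := fun j y => if y ∈ C j then 1 else 0 with hf
  have hf1 : ∀ j y, 0 ≤ f j y ∧ f j y ≤ 1 := by
    intro j y
    simp only [hf]
    split_ifs <;> norm_num
  have hEn0 : ∀ (P : Type) [Fintype P] [DecidableEq P] (c : X → P), 0 ≤ En f c := fun P _ _ c =>
    sum_nonneg fun j _ => div_nonneg (sum_nonneg fun _ _ => sq_nonneg _) (cardX_pos _).le
  obtain ⟨M₁, P₁, _, _, c₁, P₂, _, _, c₂, h1, h2, h3, h4, h5⟩ :=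
    hM' X f hf1 Unit (fun _ => ()) (by simp) (by
      rw [div_le_iff₀ hζ0] at hi₀
      have := hEn0 Unit (fun _ : X => ())
      linarith)
  set g : ∀ j, (S j → X) → ℝ := fun j => cE (pc c₂) (f j) with hg
  set d : ∀ j, (S j → X) → ℝ := fun j => cE (pc c₁) (f j) with hd
  have hg1 : ∀ j y, 0 ≤ g j y ∧ g j y ≤ 1 := fun j y =>
    ⟨cE_nonneg (fun y => (hf1 j y).1) y, cE_le_one (fun y => (hf1 j y).2) y⟩
  have hd1 : ∀ j y, 0 ≤ d j y ∧ d j y ≤ 1 := fun j y =>
    ⟨cE_nonneg (fun y => (hf1 j y).1) y, cE_le_one (fun y => (hf1 j y).2) y⟩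
  set e : ∀ j, (S j → X) → ℝ := fun j => cE (pc c₁) (fun y => (g j y - d j y) ^ 2) with he
  set nX : ℝ := (Fintype.card X : ℝ) with hnX
  have hnX0 : 0 < nX := by
    have : 0 < Fintype.card X := Fintype.card_pos
    simp only [hnX]
    exact_mod_cast this
  set sm : X → Prop := fun x => ((univ.filter fun x' : X => c₁ x' = c₁ x).card : ℝ) < β M₁ * nX
    with hsm
  set Bad : ∀ j, (S j → X) → Prop := fun j y => (∃ a, sm (y a)) ∨ d j y < α ∨ σ ^ 2 < e j y
    with hBad
  refine ⟨fun j => (C j).filter (Bad j), ?_, ?_⟩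
  · -- the size of the deleted sets
    intro j
    have hsub : (C j).filter (Bad j) ⊆ (univ.filter fun y : S j → X => ∃ a, sm (y a)) ∪
        (((C j).filter fun y => d j y < α) ∪ univ.filter fun y => σ ^ 2 < e j y) := by
      intro y hy
      rw [mem_filter] at hy
      rcases hy.2 with h | h | h
      · exact mem_union_left _ (mem_filter.2 ⟨mem_univ _, h⟩)
      · exact mem_union_right _ (mem_union_left _ (mem_filter.2 ⟨hy.1, h⟩))
      · exact mem_union_right _ (mem_union_right _ (mem_filter.2 ⟨mem_univ _, h⟩))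
    have hN := cardX_pos (X := X) (Fintype.card (S j))
    have a1 : ((univ.filter fun y : S j → X => ∃ a, sm (y a)).card : ℝ) ≤
        ε / 3 * nX ^ Fintype.card (S j) := by
      have b1 : (univ.filter fun y : S j → X => ∃ a, sm (y a)) ⊆
          univ.biUnion fun a : S j => univ.filter fun y : S j → X =>
            y a ∈ univ.filter fun x => sm x := by
        intro y hy
        obtain ⟨a, ha⟩ := (mem_filter.1 hy).2
        rw [mem_biUnion]
        exact ⟨a, mem_univ _, mem_filter.2 ⟨mem_univ _, mem_filter.2 ⟨mem_univ _, ha⟩⟩⟩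
      have b2 : ((univ.filter fun y : S j → X => ∃ a, sm (y a)).card : ℝ) ≤
          ∑ a : S j, ((univ.filter fun y : S j → X => y a ∈ univ.filter fun x => sm x).card : ℝ) := by
        have := (card_le_card b1).trans card_biUnion_le
        exact_mod_cast this
      have b3 : ∀ a ∈ (univ : Finset (S j)),
          ((univ.filter fun y : S j → X => y a ∈ univ.filter fun x => sm x).card : ℝ) ≤
            M₁ * β M₁ * nX ^ Fintype.card (S j) := by
        intro a _
        have c1 := card_coord (X := X) a (univ.filter fun x => sm x)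
        have c2 := card_small c₁ h2 (hβ0 M₁).le
        have c3 : ((univ.filter fun y : S j → X => y a ∈ univ.filter fun x => sm x).card : ℝ) * nX ≤
            (M₁ * β M₁ * nX ^ Fintype.card (S j)) * nX := by
          rw [c1]
          calc ((univ.filter fun x => sm x).card : ℝ) * nX ^ Fintype.card (S j)
              ≤ (M₁ * (β M₁ * nX)) * nX ^ Fintype.card (S j) :=
                mul_le_mul_of_nonneg_right c2 hN.le
            _ = _ := by ring
        exact le_of_mul_le_mul_right c3 hnX0
      refine b2.trans ((sum_le_sum b3).trans ?_)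
      rw [sum_const, card_univ, nsmul_eq_mul]
      have b4 : (Fintype.card (S j) : ℝ) ≤ v := by
        have : Fintype.card (S j) ≤ v := Fintype.card_subtype_le _
        exact_mod_cast this
      have b5 : β M₁ ≤ ε / (3 * (v + 1) * (M₁ + 1)) := min_le_right _ _
      have b6 : (Fintype.card (S j) : ℝ) * (M₁ * β M₁) ≤ ε / 3 := by
        calc (Fintype.card (S j) : ℝ) * (M₁ * β M₁)
            ≤ (v + 1) * ((M₁ + 1) * (ε / (3 * (v + 1) * (M₁ + 1)))) := by
              have := (hβ0 M₁).le
              gcongr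
              · linarith
              · linarith
          _ = ε / 3 := by field_simp
      calc (Fintype.card (S j) : ℝ) * (M₁ * β M₁ * nX ^ Fintype.card (S j))
          = ((Fintype.card (S j) : ℝ) * (M₁ * β M₁)) * nX ^ Fintype.card (S j) := by ring
        _ ≤ ε / 3 * nX ^ Fintype.card (S j) := mul_le_mul_of_nonneg_right b6 hN.le
    have a2 : (((C j).filter fun y => d j y < α).card : ℝ) ≤ ε / 3 * nX ^ Fintype.card (S j) := by
      have b1 : (((C j).filter fun y => d j y < α).card : ℝ) =
          ∑ y, f j y * (if d j y < α then 1 else 0) := by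
        rw [card_filter, Nat.cast_sum, ← sum_filter_add_sum_filter_not univ (fun y => y ∈ C j)]
        rw [sum_eq_zero (s := univ.filter fun y => y ∉ C j), add_zero]
        · rw [filter_mem_eq_inter, univ_inter]
          refine sum_congr rfl fun y hy => ?_
          simp only [hf, hy, if_true, one_mul]
          push_cast
          rfl
        · intro y hy
          simp only [hf, (mem_filter.1 hy).2, if_false, zero_mul]
      have b2 : ∑ y, d j y * (if d j y < α then (1 : ℝ) else 0) =
          ∑ y, f j y * (if d j y < α then 1 else 0) := by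
        refine sum_cE_mul (pc c₁) (f j) _ fun y y' h => ?_
        have : d j y = d j y' := cE_congr _ h
        rw [this]
      rw [b1, ← b2]
      have b3 : ∀ y ∈ (univ : Finset (S j → X)), d j y * (if d j y < α then (1 : ℝ) else 0) ≤
          ε / 3 := by
        intro y _
        split_ifs with h
        · rw [mul_one]
          exact h.le
        · rw [mul_zero]
          positivity
      refine (sum_le_sum b3).trans ?_
      rw [sum_const, card_univ, Fintype.card_fun, nsmul_eq_mul]
      push_cast
      linarith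
    have a3 : ((univ.filter fun y : S j → X => σ ^ 2 < e j y).card : ℝ) ≤
        ε / 3 * nX ^ Fintype.card (S j) := by
      have b1 : ((univ.filter fun y : S j → X => σ ^ 2 < e j y).card : ℝ) * σ ^ 2 ≤ ∑ y, e j y := by
        rw [← nsmul_eq_mul, ← sum_const]
        refine (sum_le_sum fun y hy => ((mem_filter.1 hy).2).le).trans ?_
        refine sum_le_sum_of_subset_of_nonneg (filter_subset _ _) fun y _ _ => ?_
        exact cE_nonneg (fun _ => sq_nonneg _) y
      have b2 : ∑ y, e j y ≤ ζ * nX ^ Fintype.card (S j) := by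
        simp only [he]
        rw [sum_cE, pyth (pc_ref h3) (f j)]
        have b3 : (∑ y : S j → X, cE (pc c₂) (f j) y ^ 2) / nX ^ Fintype.card (S j) -
            (∑ y : S j → X, cE (pc c₁) (f j) y ^ 2) / nX ^ Fintype.card (S j) ≤ ζ := by
          unfold En at h4
          rw [← add_sum_erase univ _ (mem_univ j), ← add_sum_erase univ
            (fun j => (∑ y : S j → X, cE (pc c₁) (f j) y ^ 2) /
              (Fintype.card X : ℝ) ^ Fintype.card (S j)) (mem_univ j)] at h4
          have h7 := sum_le_sum (s := univ.erase j) fun i _ => En_mono_term (f i) h3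
          linarith
        rw [← sub_div, div_le_iff₀ hN] at b3
        exact b3
      have hσ2 : 0 < σ ^ 2 := by positivity
      have b3 := b1.trans b2
      rw [hζ] at b3
      have b4 : ((univ.filter fun y : S j → X => σ ^ 2 < e j y).card : ℝ) * σ ^ 2 ≤
          (ε / 3 * nX ^ Fintype.card (S j)) * σ ^ 2 := by
        refine b3.trans (le_of_eq ?_)
        ring
      exact le_of_mul_le_mul_right b4 hσ2
    have a4 : (((C j).filter (Bad j)).card : ℝ) ≤
        ((univ.filter fun y : S j → X => ∃ a, sm (y a)).card : ℝ) +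
        ((((C j).filter fun y => d j y < α).card : ℝ) +
          ((univ.filter fun y : S j → X => σ ^ 2 < e j y).card : ℝ)) := by
      have := (card_le_card hsub).trans ((card_union_le _ _).trans
        (Nat.add_le_add_left (card_union_le _ _) _))
      exact_mod_cast this
    linarith
  · -- no copies survive
    intro φ₀ hφ₀
    by_contra hcon
    push Not at hcon
    have hgood : ∀ j, ¬ Bad j (res (S j) φ₀) := fun j hb => hcon j (mem_filter.2 ⟨hφ₀ j, hb⟩)
    -- the box
    set w : V → X → ℝ := fun a x => if (∃ j, a ∈ S j) then (if c₁ x = c₁ (φ₀ a) then 1 else 0) else 1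
      with hw
    have hw1 : ∀ a x, 0 ≤ w a x ∧ w a x ≤ 1 := by
      intro a x
      simp only [hw]
      split_ifs <;> norm_num
    set b : V → ℝ := fun a => ∑ x, w a x with hb
    have hb0 : ∀ a, β M₁ * nX ≤ b a := by
      intro a
      by_cases ha : ∃ j, a ∈ S j
      · obtain ⟨j, hj⟩ := ha
        have h6 : ¬ sm (φ₀ a) := fun h => hgood j (Or.inl ⟨⟨a, hj⟩, h⟩)
        simp only [hsm, not_lt] at h6
        refine h6.trans (le_of_eq ?_)
        simp only [hb, hw, if_pos (⟨j, hj⟩ : ∃ j, a ∈ S j)]
        rw [sum_boole]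
      · simp only [hb, hw, if_neg ha, sum_const, card_univ, nsmul_eq_mul, mul_one]
        have := hβ1 M₁
        nlinarith
    have hb00 : ∀ a, 0 < b a := fun a => lt_of_lt_of_le (mul_pos (hβ0 M₁) hnX0) (hb0 a)
    have hprod : (β M₁ * nX) ^ v ≤ ∏ a, b a := by
      have : ∏ _a : V, (β M₁ * nX) ≤ ∏ a, b a :=
        prod_le_prod (fun a _ => (mul_pos (hβ0 M₁) hnX0).le) fun a _ => hb0 a
      rwa [prod_const, card_univ] at this
    -- upper bound
    have u1 : ∑ φ, (∏ i, f i (res (S i) φ)) * ∏ a, w a (φ a) ≤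
        α ^ k * β M' ^ v / 8 * nX ^ v := by
      refine le_trans ?_ hC
      rw [card_filter, Nat.cast_sum]
      refine sum_le_sum fun φ _ => ?_
      have h6 : ∏ i, f i (res (S i) φ) = if (∀ j, res (S j) φ ∈ C j) then (1 : ℝ) else 0 := by
        simp only [hf]
        rw [prod_ite_zero]
        simp
      rw [h6]
      have h7 : ∏ a, w a (φ a) ≤ 1 := prod_le_one (fun a _ => (hw1 a _).1) fun a _ => (hw1 a _).2
      split_ifs
      · simpa using h7
      · simp
    have u2 := cut_replace_all S hS f g hf1 hg1 h5 w hw1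
    -- lower bound
    have hcell : ∀ j (φ : V → X), (∏ a, w a (φ a)) ≠ 0 → pc c₁ (res (S j) φ) =
        pc c₁ (res (S j) φ₀) := by
      intro j φ h
      funext a
      have h6 := (prod_ne_zero_iff.1 h) a (mem_univ _)
      simp only [hw, if_pos (⟨j, a.2⟩ : ∃ j, (a : V) ∈ S j)] at h6
      by_contra h7
      have h8 : ¬ c₁ (φ a) = c₁ (φ₀ a) := h7
      rw [if_neg h8] at h6
      exact h6 rfl
    have l1 : ∀ φ : V → X, (α ^ k - ∑ i, |g i (res (S i) φ) - d i (res (S i) φ)|) *
        ∏ a, w a (φ a) ≤ (∏ i, g i (res (S i) φ)) * ∏ a, w a (φ a) := by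
      intro φ
      by_cases h0 : ∏ a, w a (φ a) = 0
      · rw [h0, mul_zero, mul_zero]
      · refine mul_le_mul_of_nonneg_right ?_ (prod_nonneg fun a _ => (hw1 a _).1)
        have h6 := prod_diff_le univ (fun i => g i (res (S i) φ)) (fun i => d i (res (S i) φ))
          (fun i => hg1 i _) (fun i => hd1 i _)
        have h7 : α ^ k ≤ ∏ i, d i (res (S i) φ) := by
          have : ∏ _i : Fin k, α ≤ ∏ i, d i (res (S i) φ) := by
            refine prod_le_prod (fun _ _ => hα0.le) fun i _ => ?_
            have h8 : d i (res (S i) φ) = d i (res (S i) φ₀) := cE_congr _ (hcell i φ h0)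
            rw [h8]
            by_contra h9
            exact hgood i (Or.inr (Or.inl (not_le.1 h9)))
          rwa [prod_const, card_univ, Fintype.card_fin] at this
        linarith
    have l2 : ∀ i, ∑ φ : V → X, |g i (res (S i) φ) - d i (res (S i) φ)| * ∏ a, w a (φ a) ≤
        σ * ∏ a, b a := by
      intro i
      rw [sum_res_prod (S i) (fun y => |g i y - d i y|) w]
      set T : (S i → X) → ℝ := fun y => ∏ a : S i, w a (y a) with hT
      have hT0 : ∀ y, T y = if pc c₁ y = pc c₁ (res (S i) φ₀) then 1 else 0 := by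
        intro y
        simp only [hT]
        split_ifs with h6
        · refine prod_eq_one fun a _ => ?_
          simp only [hw, if_pos (⟨i, a.2⟩ : ∃ j, (a : V) ∈ S j)]
          exact if_pos (congrFun h6 a)
        · have : ∃ a : S i, c₁ (y a) ≠ c₁ (φ₀ a) := by
            by_contra h7
            push Not at h7
            exact h6 (funext h7)
          obtain ⟨a, ha⟩ := this
          refine prod_eq_zero (mem_univ a) ?_
          simp only [hw, if_pos (⟨i, a.2⟩ : ∃ j, (a : V) ∈ S j)]
          exact if_neg ha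
      have hTs : ∑ y, T y = ((cls (pc c₁) (res (S i) φ₀)).card : ℝ) := by
        rw [sum_congr rfl fun y _ => hT0 y, sum_boole]
        rfl
      have hTp : ∑ y, T y = ∏ a : S i, b a := sum_prod_fun (fun a : S i => w a)
      have hTe : ∑ y, (g i y - d i y) ^ 2 * T y ≤ σ ^ 2 * ∑ y, T y := by
        have h6 : e i (res (S i) φ₀) ≤ σ ^ 2 := by
          by_contra h9
          exact hgood i (Or.inr (Or.inr (not_le.1 h9)))
        simp only [he, cE] at h6
        rw [div_le_iff₀ (cls_pos _ _)] at h6
        rw [hTs]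
        refine le_trans (le_of_eq ?_) h6
        have h7 : ∀ y ∈ (univ : Finset (S i → X)), (g i y - d i y) ^ 2 * T y =
            if y ∈ cls (pc c₁) (res (S i) φ₀) then (g i y - d i y) ^ 2 else 0 := by
          intro y _
          rw [hT0]
          simp only [cls, mem_filter, mem_univ, true_and, mul_ite, mul_one, mul_zero]
        rw [sum_congr rfl h7, ← sum_filter, filter_mem_eq_inter, univ_inter]
      have hCS : (∑ y, |g i y - d i y| * T y) ^ 2 ≤ (σ * ∑ y, T y) ^ 2 := by
        have h6 : (∑ y, |g i y - d i y| * T y) ^ 2 ≤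
            (∑ y, (|g i y - d i y| * T y) ^ 2) * ∑ y, T y ^ 2 := by
          have h8 := sum_mul_sq_le_sq_mul_sq univ (fun y => |g i y - d i y| * T y) T
          have h9 : ∀ y ∈ (univ : Finset (S i → X)), |g i y - d i y| * T y * T y =
              |g i y - d i y| * T y := by
            intro y _
            rw [hT0]
            split_ifs <;> simp
          rwa [sum_congr rfl h9] at h8
        have h7 : ∑ y, T y ^ 2 = ∑ y, T y := by
          refine sum_congr rfl fun y _ => ?_
          rw [hT0]
          split_ifs <;> simp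
        have h8 : ∑ y, (|g i y - d i y| * T y) ^ 2 = ∑ y, (g i y - d i y) ^ 2 * T y := by
          refine sum_congr rfl fun y _ => ?_
          rw [mul_pow, sq_abs, hT0]
          split_ifs <;> simp
        rw [h7, h8] at h6
        have h9 : 0 ≤ ∑ y, T y := sum_nonneg fun y _ => by rw [hT0]; split_ifs <;> norm_num
        calc (∑ y, |g i y - d i y| * T y) ^ 2 ≤ (∑ y, (g i y - d i y) ^ 2 * T y) * ∑ y, T y := h6
          _ ≤ (σ ^ 2 * ∑ y, T y) * ∑ y, T y := mul_le_mul_of_nonneg_right hTe h9
          _ = (σ * ∑ y, T y) ^ 2 := by ring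
      have h9 : 0 ≤ ∑ y, T y := sum_nonneg fun y _ => by rw [hT0]; split_ifs <;> norm_num
      have h10 : ∑ y, |g i y - d i y| * T y ≤ σ * ∑ y, T y :=
        le_of_sq_le_sq hCS (by positivity)
      have h11 : ∏ a, b a = (∏ a : S i, b a) * ∏ a : {a // a ∉ S i}, b a := by
        rw [← Fintype.prod_subtype_mul_prod_subtype (fun a => a ∈ S i)]
        congr 1
        all_goals exact Finset.prod_congr (by ext; simp) fun a _ => rfl
      rw [h11, ← mul_assoc]
      refine mul_le_mul_of_nonneg_right ?_ (prod_nonneg fun a _ => (hb00 a).le)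
      rw [← hTp]
      exact h10
    have l3 : (α ^ k - k * σ) * ∏ a, b a ≤ ∑ φ, (∏ i, g i (res (S i) φ)) * ∏ a, w a (φ a) := by
      refine le_trans ?_ (sum_le_sum fun φ _ => l1 φ)
      simp only [sub_mul, sum_sub_distrib, ← mul_sum]
      rw [sum_prod_fun w]
      have h6 : ∑ φ : V → X, (∑ i, |g i (res (S i) φ) - d i (res (S i) φ)|) * ∏ a, w a (φ a) ≤
          k * σ * ∏ a, b a := by
        have h7 : ∑ φ : V → X, (∑ i, |g i (res (S i) φ) - d i (res (S i) φ)|) * ∏ a, w a (φ a) =
            ∑ i, ∑ φ : V → X, |g i (res (S i) φ) - d i (res (S i) φ)| * ∏ a, w a (φ a) := by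
          rw [sum_comm]
          exact sum_congr rfl fun φ _ => sum_mul _ _ _
        rw [h7]
        refine (sum_le_sum fun i _ => l2 i).trans ?_
        rw [sum_const, card_univ, Fintype.card_fin, nsmul_eq_mul]
        linarith
      linarith
    -- contradiction
    have hbp : 0 < ∏ a, b a := prod_pos fun a _ => hb00 a
    have e1 : α ^ k / 2 ≤ α ^ k - k * σ := by
      have : k * σ ≤ α ^ k / 2 := by
        rw [hσ]
        rw [mul_div_assoc', div_le_div_iff₀ (by positivity) (by norm_num)]
        have : 0 < α ^ k := by positivity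
        nlinarith
      linarith
    have e2 : α ^ k / 2 * (β M₁ * nX) ^ v ≤
        ∑ φ, (∏ i, g i (res (S i) φ)) * ∏ a, w a (φ a) :=
      (mul_le_mul e1 hprod (by have := hβ0 M₁; positivity) (by
        have : 0 < α ^ k := by positivity
        linarith)).trans l3
    have e3 := (abs_le.1 u2).1
    have hnv : 0 < nX ^ v := by positivity
    have e4 : (k : ℝ) * F M₁ * nX ^ v ≤ α ^ k * β M₁ ^ v / 8 * nX ^ v := by
      refine mul_le_mul_of_nonneg_right ?_ hnv.le
      simp only [hF]
      have : 0 < α ^ k * β M₁ ^ v := by have := hβ0 M₁; positivity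
      rw [mul_div_assoc', div_le_div_iff₀ (by positivity) (by norm_num)]
      nlinarith
    have e5 : α ^ k * β M' ^ v / 8 * nX ^ v ≤ α ^ k * β M₁ ^ v / 8 * nX ^ v := by
      have := pow_le_pow_left₀ (hβ0 M').le (hβm M₁ M' h1) v
      gcongr
    have e6 : 0 < α ^ k * β M₁ ^ v * nX ^ v := by have := hβ0 M₁; positivity
    rw [mul_pow] at e2
    have e7 : α ^ k / 2 * (β M₁ ^ v * nX ^ v) = α ^ k * β M₁ ^ v * nX ^ v / 2 := by ring
    rw [e7] at e2
    have e8 : α ^ k * β M₁ ^ v / 8 * nX ^ v = α ^ k * β M₁ ^ v * nX ^ v / 8 := by ring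
    rw [e8] at e4 e5
    change -((k : ℝ) * F M₁ * nX ^ v) ≤ _ at e3
    linarith

end Pool.Agent.N437.RL
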