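import Pool.Agent.N437.RL.Core
import Pool.Agent.N437.RL.Removal
/-!
# The core estimate, assembled
-/

set_option autoImplicit false
set_option linter.unusedSectionVars false
set_option linter.unusedVariables false

open Finset

namespace Pool.Agent.N437.RL

variable {V : Type} [Fintype V] [DecidableEq V] {Y : Type} [Fintype Y] [DecidableEq Y] [Nonempty Y]

theorem co_J {k : ℕ} (vv ee : Fin k → ℕ) {n p C₁ μ η t : ℝ} {b : ℕ} (hn : 0 < n) (hp : 0 < p)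
    (hC₁ : 1 ≤ C₁) (hμ : 0 < μ) (hη : 0 < η) (hη1 : η ≤ 1) (ht : η * μ / 2 ≤ t)
    (h1 : ∀ j, n ^ vv j * p ^ ee j ≤ C₁ * μ) (J : Finset (Fin k)) (hJ : 2 ≤ J.card)
    (hL : (C₁ ^ k * (2 / η) ^ k) * μ ≤ n ^ b * p ^ (∑ j ∈ J, ee j)) :
    ∏ j ∈ J, n ^ vv j ≤ n ^ b * t ^ (J.card - 1) := by
  have ht0 : 0 < t := lt_of_lt_of_le (by positivity) ht
  have hP : 0 < p ^ (∑ j ∈ J, ee j) := by positivity
  have e1 : (∏ j ∈ J, n ^ vv j) * p ^ (∑ j ∈ J, ee j) ≤ (C₁ * μ) ^ J.card := by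
    rw [← prod_pow_eq_pow_sum, ← prod_mul_distrib]
    refine (prod_le_prod (fun j _ => by positivity) fun j _ => h1 j).trans (le_of_eq ?_)
    rw [prod_const]
  have hJk : J.card ≤ k := by
    have := card_le_univ J
    rwa [Fintype.card_fin] at this
  obtain ⟨m, hm⟩ : ∃ m, J.card = m + 1 := ⟨J.card - 1, by omega⟩
  rw [hm] at e1 hJk ⊢
  rw [Nat.add_sub_cancel]
  have e2 : μ ≤ t * (2 / η) := by
    rw [← div_le_iff₀ (by positivity)]
    have : μ / (2 / η) = η * μ / 2 := by field_simp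
    rw [this]
    exact ht
  have e3 : μ ^ m ≤ (t * (2 / η)) ^ m := pow_le_pow_left₀ hμ.le e2 m
  have h2η : 1 ≤ 2 / η := by
    rw [le_div_iff₀ hη]
    linarith
  have e4 : C₁ ^ (m + 1) ≤ C₁ ^ k := pow_le_pow_right₀ hC₁ hJk
  have e5 : (2 / η) ^ m ≤ (2 / η) ^ k := pow_le_pow_right₀ h2η (by omega)
  have e6 : (C₁ * μ) ^ (m + 1) ≤ ((C₁ ^ k * (2 / η) ^ k) * μ) * t ^ m := by
    calc (C₁ * μ) ^ (m + 1) = C₁ ^ (m + 1) * (μ * μ ^ m) := by rw [mul_pow]; ring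
      _ ≤ C₁ ^ k * (μ * (t * (2 / η)) ^ m) := by gcongr
      _ = C₁ ^ k * (2 / η) ^ m * (μ * t ^ m) := by rw [mul_pow]; ring
      _ ≤ C₁ ^ k * (2 / η) ^ k * (μ * t ^ m) := by gcongr
      _ = _ := by ring
  have e7 : (∏ j ∈ J, n ^ vv j) * p ^ (∑ j ∈ J, ee j) ≤
      (n ^ b * t ^ m) * p ^ (∑ j ∈ J, ee j) := by
    refine (e1.trans e6).trans ?_
    refine (mul_le_mul_of_nonneg_right hL (by positivity)).trans (le_of_eq ?_)
    ring
  exact le_of_mul_le_mul_right e7 hP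

theorem co_B {k : ℕ} (vv ee : Fin k → ℕ) {e s v : ℕ} {n p C₁ μ η t c ε δ : ℝ} (hn : 0 < n)
    (hp : 0 < p) (hC₁ : 1 ≤ C₁) (hμ : 0 < μ) (hη : 0 < η) (hc : 0 < c) (hε : 0 < ε)
    (ht : η * μ / 2 ≤ t) (he : e = ∑ j, ee j)
    (h1 : ∀ j, n ^ vv j * p ^ ee j ≤ C₁ * μ) (hδ : δ = ε * c * (η / (2 * C₁)) ^ (k - 1) /
      (4 * (s + 1) * k * C₁)) (j : Fin k) :
    δ * (p ^ e * n ^ v) ≤ (ε * μ / (4 * (s + 1) * k)) *
      (c * (n ^ v * ∏ i ∈ univ.erase j, (t / n ^ vv i)) / n ^ vv j) := by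
  have ht0 : 0 < t := lt_of_lt_of_le (by positivity) ht
  have hk : 0 < k := lt_of_le_of_lt (Nat.zero_le _) j.2
  have hk' : (0 : ℝ) < k := by exact_mod_cast hk
  have hδ0 : 0 < δ := by rw [hδ]; positivity
  have e0 : ∏ i ∈ univ.erase j, (t / n ^ vv i) = t ^ (k - 1) / ∏ i ∈ univ.erase j, n ^ vv i := by
    rw [prod_div_distrib, prod_const, card_erase_of_mem (mem_univ j), card_univ, Fintype.card_fin]
  have hP : 0 < ∏ i ∈ univ.erase j, n ^ vv i := prod_pos fun i _ => by positivity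
  have e1 : (c * (n ^ v * ∏ i ∈ univ.erase j, (t / n ^ vv i)) / n ^ vv j) =
      c * n ^ v * t ^ (k - 1) / ∏ i, n ^ vv i := by
    rw [e0, ← mul_prod_erase univ (fun i => n ^ vv i) (mem_univ j)]
    field_simp
  rw [e1]
  have hPn : 0 < ∏ i, n ^ vv i := prod_pos fun i _ => by positivity
  have e2 : (ε * μ / (4 * (s + 1) * k)) * (c * n ^ v * t ^ (k - 1) / ∏ i, n ^ vv i) =
      (n ^ v * ((ε * μ / (4 * (s + 1) * k)) * c * t ^ (k - 1))) / ∏ i, n ^ vv i := by ring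
  rw [e2, le_div_iff₀ hPn]
  have e3 : (p ^ e) * ∏ i, n ^ vv i = ∏ i, (n ^ vv i * p ^ ee i) := by
    rw [he, ← prod_pow_eq_pow_sum, prod_mul_distrib]
    ring
  have e4 : ∏ i, (n ^ vv i * p ^ ee i) ≤ (C₁ * μ) ^ k := by
    refine (prod_le_prod (fun j _ => by positivity) fun j _ => h1 j).trans (le_of_eq ?_)
    rw [prod_const, card_univ, Fintype.card_fin]
  have e5 : δ * (p ^ e * n ^ v) * ∏ i, n ^ vv i = n ^ v * (δ * (∏ i, (n ^ vv i * p ^ ee i))) := by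
    rw [← e3]; ring
  rw [e5]
  refine mul_le_mul_of_nonneg_left ?_ (by positivity)
  have e6 : (η / (2 * C₁)) * (C₁ * μ) ≤ t := by
    refine le_trans (le_of_eq ?_) ht
    field_simp
  have e7 : ((η / (2 * C₁)) * (C₁ * μ)) ^ (k - 1) ≤ t ^ (k - 1) :=
    pow_le_pow_left₀ (by positivity) e6 _
  have e8 : (C₁ * μ) ^ k = (C₁ * μ) * (C₁ * μ) ^ (k - 1) := by
    rw [← pow_succ']
    congr 1
    omega
  calc δ * (∏ i, (n ^ vv i * p ^ ee i)) ≤ δ * (C₁ * μ) ^ k := by gcongr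
    _ = (ε * μ / (4 * (s + 1) * k)) * c * ((η / (2 * C₁)) * (C₁ * μ)) ^ (k - 1) := by
        have e9 : δ * (C₁ * μ) = (ε * μ / (4 * (s + 1) * k)) * c * (η / (2 * C₁)) ^ (k - 1) := by
          rw [hδ]
          generalize (η / (2 * C₁)) ^ (k - 1) = g
          field_simp
        rw [e8, ← mul_assoc, e9, mul_pow (η / (2 * C₁))]
        ring
    _ ≤ _ := by gcongr

theorem co_G {β : Type} [Fintype β] [DecidableEq β] {q C₁ μ η : ℝ} (hq : 0 ≤ q) (hC₁ : 1 ≤ C₁)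
    (hμ : 0 < μ) (hη : 0 < η) (hη1 : η ≤ 1) {t : ℕ} (ht : (t : ℝ) ≤ η * μ)
    (h1 : (Fintype.card β : ℝ) * q ≤ C₁ * μ) :
    ∑ Z ∈ (univ : Finset (Finset β)).filter (fun Z => Z.card ≤ t), q ^ Z.card ≤
      Real.exp (η * μ * (Real.log (C₁ / η) + 1)) := by
  have hl : 0 < η / C₁ := by positivity
  have hl1 : η / C₁ ≤ 1 := by
    rw [div_le_one (by positivity)]
    linarith
  refine (sum_small hq hl hl1 t).trans ?_
  have e1 : 1 / (η / C₁) = C₁ / η := by field_simp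
  rw [e1]
  have e2 : 1 ≤ C₁ / η := by
    rw [le_div_iff₀ hη]
    linarith
  have e3 : 0 ≤ Real.log (C₁ / η) := Real.log_nonneg e2
  have e4 : (C₁ / η) ^ t = Real.exp (t * Real.log (C₁ / η)) := by
    rw [mul_comm, Real.exp_mul, Real.exp_log (by positivity), Real.rpow_natCast]
  rw [e4, ← Real.exp_add]
  refine Real.exp_le_exp.2 ?_
  have e5 : η / C₁ * q * Fintype.card β ≤ η * μ := by
    have : η / C₁ * q * Fintype.card β = (η / C₁) * ((Fintype.card β : ℝ) * q) := by ring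
    rw [this]
    refine (mul_le_mul_of_nonneg_left h1 hl.le).trans (le_of_eq ?_)
    field_simp
  have e6 : t * Real.log (C₁ / η) ≤ η * μ * Real.log (C₁ / η) := by gcongr
  linarith

theorem co_log {C₁ η ρ : ℝ} (hC₁ : 1 ≤ C₁) (hη : 0 < η) (hη1 : η ≤ 1) (hρ : 0 < ρ)
    (h : η ≤ ρ ^ 2 / C₁) : η * (Real.log (C₁ / η) + 1) ≤ 2 * ρ := by
  have hC0 : 0 < C₁ := by linarith
  obtain ⟨z, hz⟩ : ∃ z, z = Real.sqrt (C₁ / η) := ⟨_, rfl⟩
  have hz0 : 0 < z := by rw [hz]; positivity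
  have hz2 : z ^ 2 = C₁ / η := by rw [hz]; exact Real.sq_sqrt (by positivity)
  have e1 : Real.log (C₁ / η) = 2 * Real.log z := by
    rw [← hz2, Real.log_pow]
    norm_num
  have e2 : Real.log z ≤ z - 1 := Real.log_le_sub_one_of_pos hz0
  have e3 : η * z ≤ ρ := by
    have h1 : (η * z) ^ 2 ≤ ρ ^ 2 := by
      have : (η * z) ^ 2 = η * C₁ := by
        rw [mul_pow, hz2]
        field_simp
      rw [this]
      rwa [le_div_iff₀ hC0] at h
    exact le_of_sq_le_sq h1 hρ.le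
  rw [e1]
  nlinarith

end Pool.Agent.N437.RL
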