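import Pool.Agent.N437.RL.Core2
/-!
# The core estimate, assembled
-/

set_option autoImplicit false
set_option linter.unusedSectionVars false
set_option linter.unusedVariables false

open Finset

namespace Pool.Agent.N437.RL

variable {V : Type} [Fintype V] [DecidableEq V] {Y : Type} [Fintype Y] [DecidableEq Y] [Nonempty Y]

theorem co_hQ {k : ℕ} (A : Fin k → Finset (Sym2 V)) (E : Finset (Sym2 V))
    (hAE : ∀ j, A j ⊆ E) (hne : ∀ j, (A j).Nonempty) (hcov : ∀ e ∈ E, ∃ j, e ∈ A j)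
    {s t t₀ : ℕ} {K ε δ p B : ℝ} (μl : Fin k → ℝ) (hμl : ∀ j, 0 < μl j)
    (𝒞 : (ℕ → ∀ j, Finset (vs (A j) → Y)) → ∀ j, Finset (vs (A j) → Y))
    (h𝒞 : ∀ T T', (∀ q < s, T q = T' q) → 𝒞 T = 𝒞 T')
    (hcont : ∀ Gd : Finset (ℕ × Σ j, (vs (A j) → Y)) → Prop,
      (∀ Q Q', Q ⊆ Q' → Gd Q' → Gd Q) → Gd ∅ →
      ∃ T : ℕ → ∀ j, Finset (vs (A j) → Y), (∀ r j, (T r j).card ≤ t) ∧ Gd (lab T s) ∧
        ∑ y, wC (w0 (fun j => vs (A j))) (𝒞 T) y < K ∧
        ∀ j, ∀ u, u ∉ 𝒞 T j → ∃ r < s,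
          ((r, (⟨j, u⟩ : Σ j, (vs (A j) → Y))) ∉ lab T s → ¬ Gd (insert (r, ⟨j, u⟩) (lab T s))) ∨
          μl j ≤ ∑ y : ∀ i, (vs (A i) → Y),
            if (y j = u ∧ ∀ i ∈ univ.erase j, y i ∈ T r i) then w0 (fun j => vs (A j)) y else 0)
    (D : (Fin s → ∀ j, Finset (vs (A j) → Y)) → ∀ j, Finset (vs (A j) → Y))
    (hD : ∀ T : Fin s → ∀ j, Finset (vs (A j) → Y),
      ∑ y, wC (w0 (fun j => vs (A j))) (𝒞 (ex T)) y < K → ∀ φ : V → Y,
      (∀ j, res (vs (A j)) φ ∈ 𝒞 (ex T) j) → ∃ j, res (vs (A j)) φ ∈ D T j)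
    (hB : ∀ j, δ * (p ^ E.card * (Fintype.card Y : ℝ) ^ Fintype.card V) ≤ B * μl j)
    (hfin : (s : ℝ) * (k * t) * E.card + s * (k * B) + t₀ * E.card ≤
      ε * (p * (Fintype.card Y : ℝ) ^ 2))
    (EG₀ : Finset (Sym2 Y)) (hbad : BadE E ε δ p EG₀) :
    ∃ (T : Fin s → ∀ j, Finset (vs (A j) → Y)) (F : Finset (Σ j, (vs (A j) → Y))),
      (∀ r j, (T r j).card ≤ t) ∧ F ⊆ univ.sigma (D T) ∧ F.card = t₀ ∧
        Good A EG₀ (lab (ex T) s ∪ F.image (Prod.mk s)) := by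
  classical
  obtain ⟨EG, hEG, hnh, hfar⟩ := hbad
  obtain ⟨T, hTt, hTG, hTtot, hTC⟩ := hcont (Good A EG) (good_mono A EG)
    ⟨fun x hx => absurd hx (notMem_empty x), fun x hx => absurd hx (notMem_empty x)⟩
  obtain ⟨T', hT'⟩ : ∃ T' : Fin s → ∀ j, Finset (vs (A j) → Y), T' = fun r : Fin s => T r :=
    ⟨_, rfl⟩
  have hex : ∀ r < s, ex T' r = T r := by
    rw [hT']
    exact ex_eq T
  have h𝒞T : 𝒞 (ex T') = 𝒞 T := h𝒞 _ _ hex
  have hlab : lab (ex T') s = lab T s := lab_congr hex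
  have hDT := hD T' (by rw [h𝒞T]; exact hTtot)
  rw [h𝒞T] at hDT
  obtain ⟨F, hFD, hFG, hFΔ⟩ := det A E hAE hne EG T s hTG (𝒞 T) (D T') hDT (YR A EG μl T)
    (by
      intro j u hu hinj hsub
      obtain ⟨r, hr, h⟩ := hTC j u hu
      refine ⟨r, hr, ?_⟩
      rcases h with h | h
      · exact Or.inl h
      · refine Or.inr ?_
        unfold YR
        refine mem_filter.2 ⟨mem_univ _, hinj, hsub, h.trans (le_of_eq ?_)⟩
        refine sum_congr rfl fun y _ => ?_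
        by_cases hy : y j = u ∧ ∀ i ∈ univ.erase j, y i ∈ T r i
        · simp only [if_pos hy]
        · simp only [if_neg hy])
    B (by
      intro r hr j
      have h1 := YR_card (μl := μl) hcov hTG hr j
      have h2 := (h1.trans hnh).trans (hB j)
      exact le_of_mul_le_mul_right h2 (hμl j))
    (ε * (p * (Fintype.card Y : ℝ) ^ 2)) hfar
  have hlabc : ((lab T s).card : ℝ) ≤ s * (k * t) := by
    have := card_lab_le (s := s) hTt
    rw [Fintype.card_fin] at this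
    exact_mod_cast this
  have hF : t₀ ≤ F.card := by
    by_contra hcon
    push Not at hcon
    have h1 : (F.card : ℝ) * E.card ≤ t₀ * E.card := by
      have : (F.card : ℝ) ≤ t₀ := by exact_mod_cast hcon.le
      exact mul_le_mul_of_nonneg_right this (Nat.cast_nonneg _)
    have h2 : ((lab T s).card : ℝ) * E.card ≤ s * (k * t) * E.card :=
      mul_le_mul_of_nonneg_right hlabc (Nat.cast_nonneg _)
    linarith
  obtain ⟨F', hF', hF'c⟩ := exists_subset_card_eq hF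
  refine ⟨T', F', ?_, hF'.trans hFD, hF'c, ?_⟩
  · intro r j
    rw [hT']
    exact hTt r j
  · rw [hlab]
    exact good_mono_right hEG (good_mono A EG _ _
      (union_subset_union_right (image_subset_image hF')) hFG)

theorem core {k : ℕ} (hk : 0 < k) (A : Fin k → Finset (Sym2 V)) (E : Finset (Sym2 V))
    (hAE : ∀ j, A j ⊆ E) (hne : ∀ j, (A j).Nonempty) (hcov : ∀ e ∈ E, ∃ j, e ∈ A j)
    (hint : ∀ i j, i ≠ j → (vs (A i) ∩ vs (A j)).card ≤ 1)
    (hdis : ∀ i j, i ≠ j → Disjoint (A i) (A j))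
    {ε : ℝ} (hε : 0 < ε) {C₁ : ℝ} (hC₁ : 1 ≤ C₁) :
    ∃ δ L μ₀ n₀ a : ℝ, 0 < δ ∧ 0 < a ∧
      ∀ (Y : Type) [Fintype Y] [DecidableEq Y] [Nonempty Y] (p : ℝ), 0 < p → p ≤ 1 →
      n₀ ≤ Fintype.card Y → μ₀ ≤ p * (Fintype.card Y : ℝ) ^ 2 →
      (∀ j, (Fintype.card Y : ℝ) ^ (vs (A j)).card * p ^ (A j).card ≤
        C₁ * (p * (Fintype.card Y : ℝ) ^ 2)) →
      (∀ J : Finset (Fin k), 2 ≤ J.card → L * (p * (Fintype.card Y : ℝ) ^ 2) ≤
        (Fintype.card Y : ℝ) ^ (J.biUnion fun j => vs (A j)).card * p ^ (∑ j ∈ J, (A j).card)) →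
      prE (univ.filter fun e : Sym2 Y => ¬ e.IsDiag) p (BadE E ε δ p) ≤
        Real.exp (-(a * (p * (Fintype.card Y : ℝ) ^ 2))) := by
  classical
  haveI : Nonempty (Fin k) := ⟨⟨0, hk⟩⟩
  have hk' : (0 : ℝ) < k := by exact_mod_cast hk
  have hEne : E.Nonempty := (hne ⟨0, hk⟩).mono (hAE ⟨0, hk⟩)
  have hEc : (0 : ℝ) < E.card := by exact_mod_cast card_pos.2 hEne
  have hC0 : 0 < C₁ := by linarith
  have hEsum : E.card = ∑ j, (A j).card := by
    have : E = univ.biUnion A := by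
      ext e
      simp only [mem_biUnion, mem_univ, true_and]
      exact ⟨hcov e, fun ⟨j, hj⟩ => hAE j hj⟩
    rw [this, card_biUnion fun i _ j _ hij => hdis i j hij]
  obtain ⟨a₀, ha₀⟩ : ∃ a₀ : ℝ, a₀ = ε / (4 * E.card) := ⟨_, rfl⟩
  have ha₀p : 0 < a₀ := by rw [ha₀]; positivity
  obtain ⟨ε', hε'⟩ : ∃ ε' : ℝ, ε' = a₀ / (8 * k * C₁) := ⟨_, rfl⟩
  have hε'p : 0 < ε' := by rw [hε']; positivity
  obtain ⟨γ₁, hγ₁, hrem⟩ := removal (fun j => vs (A j)) hint hε'p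
  obtain ⟨s, c, hc, hcont⟩ := containers (ι := Fin k) (half_pos hγ₁)
  obtain ⟨ρ, hρ⟩ : ∃ ρ : ℝ, ρ = a₀ / (6 * (s + 1) * k) := ⟨_, rfl⟩
  have hρp : 0 < ρ := by rw [hρ]; positivity
  obtain ⟨η, hη⟩ : ∃ η : ℝ, η = min 1 (min (ρ ^ 2 / C₁) (ε / (4 * (s + 1) * k * E.card))) :=
    ⟨_, rfl⟩
  have hηp : 0 < η := by
    rw [hη]
    exact lt_min one_pos (lt_min (by positivity) (by positivity))
  have hη1 : η ≤ 1 := by rw [hη]; exact min_le_left _ _
  have hη2 : η ≤ ρ ^ 2 / C₁ := by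
    rw [hη]; exact (min_le_right _ _).trans (min_le_left _ _)
  have hη3 : η ≤ ε / (4 * (s + 1) * k * E.card) := by
    rw [hη]; exact (min_le_right _ _).trans (min_le_right _ _)
  refine ⟨ε * c * (η / (2 * C₁)) ^ (k - 1) / (4 * (s + 1) * k * C₁), C₁ ^ k * (2 / η) ^ k,
    max (2 / η) (1 / a₀), (Fintype.card V : ℝ) ^ 2 / (γ₁ / 2), a₀ / 2, by positivity,
    by positivity, ?_⟩
  intro Y _ _ _ p hp hp1 hn₀ hμ₀ h1 h2
  obtain ⟨δ, hδ⟩ : ∃ δ : ℝ, δ = ε * c * (η / (2 * C₁)) ^ (k - 1) / (4 * (s + 1) * k * C₁) :=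
    ⟨_, rfl⟩
  rw [← hδ]
  obtain ⟨μ, hμ⟩ : ∃ μ : ℝ, μ = p * (Fintype.card Y : ℝ) ^ 2 := ⟨_, rfl⟩
  rw [← hμ] at hμ₀ h1 h2 ⊢
  have hY : (0 : ℝ) < Fintype.card Y := by exact_mod_cast Fintype.card_pos
  have hμp : 0 < μ := by rw [hμ]; positivity
  have hμη : 2 / η ≤ μ := (le_max_left _ _).trans hμ₀
  have hμa : 1 / a₀ ≤ μ := (le_max_right _ _).trans hμ₀
  -- the sizes
  obtain ⟨t, ht⟩ : ∃ t : ℕ, t = ⌊η * μ⌋₊ := ⟨_, rfl⟩
  obtain ⟨t₀, ht₀⟩ : ∃ t₀ : ℕ, t₀ = ⌈a₀ * μ⌉₊ := ⟨_, rfl⟩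
  have hημ : 2 ≤ η * μ := by
    rw [div_le_iff₀ hηp] at hμη
    linarith
  have haμ : 1 ≤ a₀ * μ := by
    rw [div_le_iff₀ ha₀p] at hμa
    linarith
  have ht_le : (t : ℝ) ≤ η * μ := by
    rw [ht]; exact Nat.floor_le (by positivity)
  have ht_ge : η * μ / 2 ≤ t := by
    have := Nat.lt_floor_add_one (η * μ)
    rw [← ht] at this
    linarith
  have ht_pos : 0 < t := by
    have : (0 : ℝ) < t := lt_of_lt_of_le (by positivity) ht_ge
    exact_mod_cast this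
  have ht₀_ge : a₀ * μ ≤ t₀ := by rw [ht₀]; exact Nat.le_ceil _
  have ht₀_le : (t₀ : ℝ) ≤ 2 * (a₀ * μ) := by
    have := Nat.ceil_lt_add_one (show 0 ≤ a₀ * μ by positivity)
    rw [← ht₀] at this
    linarith
  -- containers
  have hbdd : Bdd (fun j => (Fintype.card Y : ℝ) ^ (vs (A j)).card) t
      ((Fintype.card Y : ℝ) ^ Fintype.card V) (w0 (Y := Y) (fun j => vs (A j))) ∅ 1 := by
    refine bdd_w0 A ht_pos fun J hJ => ?_
    exact co_J (fun j => (vs (A j)).card) (fun j => (A j).card) hY hp hC₁ hμp hηp hη1 ht_ge h1 J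
      hJ (h2 J hJ)
  obtain ⟨𝒞, h𝒞, hcont'⟩ := hcont (fun j => (vs (A j) → Y))
    (fun j => (Fintype.card Y : ℝ) ^ (vs (A j)).card) t
    ((Fintype.card Y : ℝ) ^ Fintype.card V) (w0 (Y := Y) (fun j => vs (A j)))
    (fun j => by positivity) (fun j => by
      rw [Fintype.card_fun, Fintype.card_coe]
      push_cast
      exact le_rfl) ht_pos (by positivity) hbdd
  have hDex : ∀ T : Fin s → ∀ j, Finset (vs (A j) → Y), ∃ D : ∀ j, Finset (vs (A j) → Y),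
      (∀ j, ((D j).card : ℝ) ≤ ε' * (Fintype.card Y : ℝ) ^ (vs (A j)).card) ∧
      (∑ y, wC (w0 (fun j => vs (A j))) (𝒞 (ex T)) y <
        γ₁ / 2 * (Fintype.card Y : ℝ) ^ Fintype.card V → ∀ φ : V → Y,
        (∀ j, res (vs (A j)) φ ∈ 𝒞 (ex T) j) → ∃ j, res (vs (A j)) φ ∈ D j) := by
    intro T
    by_cases htot : ∑ y, wC (w0 (fun j => vs (A j))) (𝒞 (ex T)) y <
        γ₁ / 2 * (Fintype.card Y : ℝ) ^ Fintype.card V
    · obtain ⟨D, hD1, hD2⟩ := rem_step A hγ₁ hrem hn₀ (𝒞 (ex T)) htot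
      exact ⟨D, hD1, fun _ => hD2⟩
    · refine ⟨fun _ => ∅, fun j => ?_, fun h => absurd h htot⟩
      rw [card_empty, Nat.cast_zero]
      positivity
  choose D hD1 hD2 using hDex
  obtain ⟨μl, hμl⟩ : ∃ μl : Fin k → ℝ, μl = fun j => c * ((Fintype.card Y : ℝ) ^ Fintype.card V *
    ∏ i ∈ univ.erase j, (t / (Fintype.card Y : ℝ) ^ (vs (A i)).card)) /
      (Fintype.card Y : ℝ) ^ (vs (A j)).card := ⟨_, rfl⟩
  have ht_posR : (0 : ℝ) < t := by exact_mod_cast ht_pos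
  have hμlp : ∀ j, 0 < μl j := by
    intro j
    rw [hμl]
    have : 0 < ∏ i ∈ univ.erase j, ((t : ℝ) / (Fintype.card Y : ℝ) ^ (vs (A i)).card) :=
      prod_pos fun i _ => by positivity
    positivity
  obtain ⟨B, hBdef⟩ : ∃ B : ℝ, B = ε * μ / (4 * (s + 1) * k) := ⟨_, rfl⟩
  have hB : ∀ j, δ * (p ^ E.card * (Fintype.card Y : ℝ) ^ Fintype.card V) ≤ B * μl j := by
    intro j
    rw [hBdef, hμl]
    exact co_B (fun j => (vs (A j)).card) (fun j => (A j).card) hY hp hC₁ hμp hηp hc hε ht_ge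
      hEsum h1 hδ j
  have hfin : (s : ℝ) * (k * t) * E.card + s * (k * B) + t₀ * E.card ≤
      ε * (p * (Fintype.card Y : ℝ) ^ 2) := by
    rw [← hμ]
    have hs : (s : ℝ) ≤ s + 1 := by linarith
    have f1 : (s : ℝ) * (k * t) * E.card ≤ ε * μ / 4 := by
      have g1 : η * (4 * (s + 1) * k * E.card) ≤ ε := by
        rwa [le_div_iff₀ (by positivity)] at hη3
      calc (s : ℝ) * (k * t) * E.card ≤ (s + 1) * (k * (η * μ)) * E.card := by gcongr
        _ = (η * (4 * (s + 1) * k * E.card)) * μ / 4 := by ring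
        _ ≤ ε * μ / 4 := by gcongr
    have f2 : (s : ℝ) * (k * B) ≤ ε * μ / 4 := by
      have hB0 : 0 ≤ B := by rw [hBdef]; positivity
      calc (s : ℝ) * (k * B) ≤ (s + 1) * (k * B) := by gcongr
        _ = ε * μ / 4 := by rw [hBdef]; field_simp
    have f3 : (t₀ : ℝ) * E.card ≤ ε * μ / 2 := by
      calc (t₀ : ℝ) * E.card ≤ 2 * (a₀ * μ) * E.card := by gcongr
        _ = ε * μ / 2 := by rw [ha₀]; field_simp; norm_num
    linarith
  -- the union bound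
  have hun := union_sum (s := s) (t := t) (t₀ := t₀) A
    (U := univ.filter fun e : Sym2 Y => ¬ e.IsDiag) hp.le hp1 (BadE E ε δ p) D
    (fun EG₀ _ hbad => co_hQ A E hAE hne hcov μl hμlp 𝒞 h𝒞 (by
      intro Gd hG1 hG2
      obtain ⟨T, b1, b2, b3, b4⟩ := hcont' Gd hG1 hG2
      refine ⟨T, b1, b2, b3, fun j u hu => ?_⟩
      obtain ⟨r, hr, h⟩ := b4 j u hu
      refine ⟨r, hr, h.imp_right fun h => ?_⟩
      rw [hμl]
      refine h.trans (le_of_eq (sum_congr rfl fun y _ => ?_))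
      by_cases hy : y j = u ∧ ∀ i ∈ univ.erase j, y i ∈ T r i
      · simp only [if_pos hy]
      · simp only [if_neg hy]) D hD2 hB hfin EG₀ hbad)
    (Gb := Real.exp (η * μ * (Real.log (C₁ / η) + 1))) (fun j => by
      refine co_G (by positivity) hC₁ hμp hηp hη1 ht_le ?_
      rw [Fintype.card_fun, Fintype.card_coe]
      push_cast
      exact h1 j) (Real.exp_pos _).le
    (Fb := Real.exp (-t₀)) (fun T => by
      refine (esum_le (univ.sigma (D T)) (fun x => p ^ (A x.1).card)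
        (fun x => by positivity) t₀).trans (esum_exp (sum_nonneg fun x _ => by positivity) ?_)
      rw [sum_sigma]
      have g1 : ∀ j : Fin k, ∑ u ∈ D T j, p ^ (A j).card ≤ ε' * (C₁ * μ) := by
        intro j
        rw [sum_const, nsmul_eq_mul]
        calc ((D T j).card : ℝ) * p ^ (A j).card ≤
            (ε' * (Fintype.card Y : ℝ) ^ (vs (A j)).card) * p ^ (A j).card :=
              mul_le_mul_of_nonneg_right (hD1 T j) (by positivity)
          _ = ε' * ((Fintype.card Y : ℝ) ^ (vs (A j)).card * p ^ (A j).card) := by ring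
          _ ≤ ε' * (C₁ * μ) := mul_le_mul_of_nonneg_left (h1 j) hε'p.le
      have g2 : ∑ j : Fin k, ∑ u ∈ D T j, p ^ (A j).card ≤ k * (ε' * (C₁ * μ)) := by
        refine (sum_le_sum fun j _ => g1 j).trans (le_of_eq ?_)
        rw [sum_const, card_univ, Fintype.card_fin, nsmul_eq_mul]
      have g3 : (k : ℝ) * (ε' * (C₁ * μ)) * 8 = a₀ * μ := by
        rw [hε']; field_simp
      linarith)
  refine hun.trans ?_
  rw [← Real.exp_nat_mul, ← Real.exp_add]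
  refine Real.exp_le_exp.2 ?_
  have hlog := co_log hC₁ hηp hη1 hρp hη2
  have hs : (s : ℝ) ≤ s + 1 := by linarith
  have k1 : ((s * k : ℕ) : ℝ) * (η * μ * (Real.log (C₁ / η) + 1)) ≤ a₀ * μ / 3 := by
    push_cast
    calc (s : ℝ) * k * (η * μ * (Real.log (C₁ / η) + 1)) =
        (s * k * μ) * (η * (Real.log (C₁ / η) + 1)) := by ring
      _ ≤ (s * k * μ) * (2 * ρ) := by gcongr
      _ ≤ ((s + 1) * k * μ) * (2 * ρ) := by gcongr
      _ = a₀ * μ / 3 := by rw [hρ]; field_simp; norm_num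
  have k2 : 0 < a₀ * μ := by positivity
  linarith

end Pool.Agent.N437.RL
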