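import Pool.Agent.N437.RL.Fk
/-!
# Counting lemma for linear hypergraphs
-/

set_option autoImplicit false
set_option linter.unusedSectionVars false

open Finset

namespace Pool.Agent.N437.RL

variable {V X : Type} [Fintype V] [DecidableEq V] [Fintype X] [DecidableEq X]

/-- restriction to a set -/
def res (S : Finset V) (φ : V → X) : S → X := fun a => φ a

/-- gluing -/
def glue (S : Finset V) (y : S → X) (z : {a // a ∉ S} → X) : V → X :=
  fun a => if h : a ∈ S then y ⟨a, h⟩ else z ⟨a, h⟩

theorem res_glue (S : Finset V) (y : S → X) (z : {a // a ∉ S} → X) : res S (glue S y z) = y := by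
  funext a
  simp [res, glue]

theorem sum_glue (S : Finset V) (G : (V → X) → ℝ) :
    ∑ φ, G φ = ∑ z : {a // a ∉ S} → X, ∑ y : S → X, G (glue S y z) := by
  rw [← (Equiv.piEquivPiSubtypeProd (fun a => a ∈ S) (fun _ => X)).symm.sum_comp G,
    Fintype.sum_prod_type_right]
  rfl

theorem prod_glue (S : Finset V) (v : V → X → ℝ) (y : S → X) (z : {a // a ∉ S} → X) :
    ∏ a, v a (glue S y z a) = (∏ a : S, v a (y a)) * ∏ a : {a // a ∉ S}, v a (z a) := by
  rw [← Fintype.prod_subtype_mul_prod_subtype (fun a => a ∈ S)]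
  congr 1
  · refine Finset.prod_congr (by ext; simp) fun a _ => ?_
    simp [glue]
  · refine Finset.prod_congr (by ext; simp) fun a _ => ?_
    simp [glue, a.2]

theorem sum_prod_fun {J : Type} [Fintype J] [DecidableEq J] (v : J → X → ℝ) :
    ∑ y : J → X, ∏ a, v a (y a) = ∏ a, ∑ x, v a x := by
  rw [prod_univ_sum]
  simp

/-- sums of products -/
theorem sum_res_prod (S : Finset V) (F : (S → X) → ℝ) (v : V → X → ℝ) :
    ∑ φ, F (res S φ) * ∏ a, v a (φ a) =
      (∑ y : S → X, F y * ∏ a : S, v a (y a)) * ∏ a : {a // a ∉ S}, ∑ x, v a x := by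
  rw [sum_glue S, ← sum_prod_fun (fun a : {a // a ∉ S} => v a), mul_comm, sum_mul]
  refine sum_congr rfl fun z _ => ?_
  rw [mul_sum]
  refine sum_congr rfl fun y _ => ?_
  rw [res_glue, prod_glue]
  ring

theorem card_compl_pow (S : Finset V) :
    (Fintype.card X : ℝ) ^ Fintype.card V = (Fintype.card X : ℝ) ^ Fintype.card S *
      (Fintype.card X : ℝ) ^ Fintype.card {a // a ∉ S} := by
  rw [← pow_add]
  congr 1
  have := Fintype.card_subtype_compl (fun a => a ∈ S)
  have h2 : Fintype.card {a // a ∈ S} ≤ Fintype.card V := Fintype.card_subtype_le _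
  omega

/-- replacing one function -/
theorem cut_replace [Nonempty X] {k : ℕ} (S : Fin k → Finset V)
    (hS : ∀ i j, i ≠ j → (S i ∩ S j).card ≤ 1)
    (j : Fin k) {F : (S j → X) → ℝ} {κ : ℝ} (hF : Cut F κ) (h : ∀ i, (S i → X) → ℝ)
    (hh : ∀ i y, 0 ≤ h i y ∧ h i y ≤ 1) (v : V → X → ℝ) (hv : ∀ a x, 0 ≤ v a x ∧ v a x ≤ 1) :
    |∑ φ, F (res (S j) φ) * ((∏ i ∈ univ.erase j, h i (res (S i) φ)) * ∏ a, v a (φ a))| ≤
      κ * (Fintype.card X : ℝ) ^ Fintype.card V := by
  classical
  rw [sum_glue (S j)]
  have key : ∀ z : {a // a ∉ S j} → X, |∑ y : S j → X, F (res (S j) (glue (S j) y z)) *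
      ((∏ i ∈ univ.erase j, h i (res (S i) (glue (S j) y z))) * ∏ a, v a (glue (S j) y z a))| ≤
      κ * (Fintype.card X : ℝ) ^ Fintype.card (S j) := by
    intro z
    set y₀ : S j → X := fun _ => Classical.arbitrary X
    set K : Fin k → ℝ := fun i => if (S i ∩ S j).Nonempty then 1 else
      h i (res (S i) (glue (S j) y₀ z)) with hK
    set g : Fin k → X → ℝ := fun i x => h i (res (S i) (glue (S j) (fun _ => x) z)) with hg
    have h1 : ∀ i ∈ univ.erase j, ∀ y : S j → X, h i (res (S i) (glue (S j) y z)) =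
        K i * ∏ a : S j, (if (a : V) ∈ S i then g i (y a) else 1) := by
      intro i hi y
      have hij := ne_of_mem_erase hi
      by_cases hne : (S i ∩ S j).Nonempty
      · obtain ⟨b, hb⟩ := hne
        have hb' := mem_inter.1 hb
        have huniq : ∀ a, a ∈ S i → a ∈ S j → a = b := fun a h1 h2 =>
          card_le_one.1 (hS i j hij) a (mem_inter.2 ⟨h1, h2⟩) b hb
        have hKi : K i = 1 := by
          simp only [hK]
          rw [if_pos ⟨b, hb⟩]
        rw [hKi, one_mul, prod_eq_single (⟨b, hb'.2⟩ : S j)]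
        · simp only [hb'.1, if_true, hg]
          congr 1
          funext a
          simp only [res, glue]
          by_cases ha : (a : V) ∈ S j
          · simp only [ha, dif_pos]
            have := huniq a a.2 ha
            congr 1
            exact Subtype.ext this
          · simp only [ha, dif_neg, not_false_iff]
        · intro a _ hab
          rw [if_neg]
          intro ha
          exact hab (Subtype.ext (huniq a ha a.2))
        · intro hcon
          exact absurd (mem_univ _) hcon
      · have hKi : K i = h i (res (S i) (glue (S j) y₀ z)) := by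
          simp only [hK]
          rw [if_neg hne]
        rw [hKi, prod_eq_one, mul_one]
        · congr 1
          funext a
          simp only [res, glue]
          have ha : (a : V) ∉ S j := fun ha => hne ⟨a, mem_inter.2 ⟨a.2, ha⟩⟩
          simp only [ha, dif_neg, not_false_iff]
        · intro a _
          rw [if_neg]
          intro ha
          exact hne ⟨a, mem_inter.2 ⟨ha, a.2⟩⟩
    set L : ℝ := ∏ a : {a // a ∉ S j}, v a (z a)
    set KK : ℝ := ∏ i ∈ univ.erase j, K i
    set u : S j → X → ℝ := fun a x => v a x * ∏ i ∈ univ.erase j,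
      (if (a : V) ∈ S i then g i x else 1) with hu
    have hu1 : ∀ a x, 0 ≤ u a x ∧ u a x ≤ 1 := by
      intro a x
      have h2 : 0 ≤ ∏ i ∈ univ.erase j, (if (a : V) ∈ S i then g i x else 1) ∧
          ∏ i ∈ univ.erase j, (if (a : V) ∈ S i then g i x else 1) ≤ 1 := by
        constructor
        · refine prod_nonneg fun i _ => ?_
          split_ifs
          · exact (hh i _).1
          · norm_num
        · refine prod_le_one (fun i _ => ?_) fun i _ => ?_
          · split_ifs
            · exact (hh i _).1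
            · norm_num
          · split_ifs
            · exact (hh i _).2
            · norm_num
      exact ⟨mul_nonneg (hv a x).1 h2.1, mul_le_one₀ (hv a x).2 h2.1 h2.2⟩
    have hL : 0 ≤ L ∧ L ≤ 1 := ⟨prod_nonneg fun a _ => (hv a _).1,
      prod_le_one (fun a _ => (hv a _).1) fun a _ => (hv a _).2⟩
    have hKi : ∀ i, 0 ≤ K i ∧ K i ≤ 1 := by
      intro i
      simp only [hK]
      split_ifs
      · norm_num
      · exact hh i _
    have hKK : 0 ≤ KK ∧ KK ≤ 1 := ⟨prod_nonneg fun a _ => (hKi a).1,
      prod_le_one (fun a _ => (hKi a).1) fun a _ => (hKi a).2⟩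
    have h3 : ∑ y : S j → X, F (res (S j) (glue (S j) y z)) *
        ((∏ i ∈ univ.erase j, h i (res (S i) (glue (S j) y z))) * ∏ a, v a (glue (S j) y z a)) =
        (KK * L) * ∑ y : S j → X, F y * ∏ a, u a (y a) := by
      rw [mul_sum]
      refine sum_congr rfl fun y _ => ?_
      rw [res_glue, prod_glue, prod_congr rfl fun i hi => h1 i hi y, prod_mul_distrib, prod_comm]
      simp only [hu, prod_mul_distrib]
      ring
    rw [h3, abs_mul, abs_of_nonneg (mul_nonneg hKK.1 hL.1)]
    refine (mul_le_of_le_one_left (abs_nonneg _) (mul_le_one₀ hKK.2 hL.1 hL.2)).trans ?_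
    exact cut_ext hF u hu1
  refine (abs_sum_le_sum_abs _ _).trans ((sum_le_sum fun z _ => key z).trans (le_of_eq ?_))
  rw [sum_const, card_univ, Fintype.card_fun, nsmul_eq_mul, card_compl_pow (S j)]
  push_cast
  ring

/-- replacing all functions -/
theorem cut_replace_all [Nonempty X] {k : ℕ} (S : Fin k → Finset V)
    (hS : ∀ i j, i ≠ j → (S i ∩ S j).card ≤ 1) {κ : ℝ} (f g : ∀ i, (S i → X) → ℝ)
    (hf : ∀ i y, 0 ≤ f i y ∧ f i y ≤ 1) (hg : ∀ i y, 0 ≤ g i y ∧ g i y ≤ 1)
    (hfg : ∀ j, Cut (fun y => f j y - g j y) κ)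
    (v : V → X → ℝ) (hv : ∀ a x, 0 ≤ v a x ∧ v a x ≤ 1) :
    |∑ φ, (∏ i, f i (res (S i) φ)) * ∏ a, v a (φ a) -
      ∑ φ, (∏ i, g i (res (S i) φ)) * ∏ a, v a (φ a)| ≤
      k * κ * (Fintype.card X : ℝ) ^ Fintype.card V := by
  classical
  have key : ∀ s : Finset (Fin k),
      |∑ φ, (∏ i, f i (res (S i) φ)) * ∏ a, v a (φ a) -
        ∑ φ, (∏ i, (if i ∈ s then g i else f i) (res (S i) φ)) * ∏ a, v a (φ a)| ≤
        s.card * κ * (Fintype.card X : ℝ) ^ Fintype.card V := by
    intro s
    induction s using Finset.induction_on with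
    | empty => simp
    | insert j s hj ih =>
      set h : ∀ i, (S i → X) → ℝ := fun i => if i ∈ s then g i else f i with hh
      have hh1 : ∀ i y, 0 ≤ h i y ∧ h i y ≤ 1 := by
        intro i y
        simp only [hh]
        split_ifs
        · exact hg i y
        · exact hf i y
      have h1 := cut_replace S hS j (hfg j) h hh1 v hv
      have h2 : ∑ φ, (f j (res (S j) φ) - g j (res (S j) φ)) *
          ((∏ i ∈ univ.erase j, h i (res (S i) φ)) * ∏ a, v a (φ a)) =
          ∑ φ, (∏ i, h i (res (S i) φ)) * ∏ a, v a (φ a) -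
          ∑ φ, (∏ i, (if i ∈ insert j s then g i else f i) (res (S i) φ)) * ∏ a, v a (φ a) := by
        rw [← sum_sub_distrib]
        refine sum_congr rfl fun φ _ => ?_
        rw [← mul_prod_erase univ (fun i => h i (res (S i) φ)) (mem_univ j),
          ← mul_prod_erase univ (fun i => (if i ∈ insert j s then g i else f i) (res (S i) φ))
            (mem_univ j)]
        have h3 : ∏ i ∈ univ.erase j, (if i ∈ insert j s then g i else f i) (res (S i) φ) =
            ∏ i ∈ univ.erase j, h i (res (S i) φ) := by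
          refine prod_congr rfl fun i hi => ?_
          have hij := ne_of_mem_erase hi
          simp only [hh, mem_insert, hij, false_or]
        rw [h3]
        have h4 : h j = f j := by simp [hh, hj]
        rw [h4]
        simp only [mem_insert_self, if_true]
        ring
      rw [h2] at h1
      rw [card_insert_of_notMem hj]
      have h5 := abs_add_le (∑ φ, (∏ i, f i (res (S i) φ)) * ∏ a, v a (φ a) -
        ∑ φ, (∏ i, h i (res (S i) φ)) * ∏ a, v a (φ a))
        (∑ φ, (∏ i, h i (res (S i) φ)) * ∏ a, v a (φ a) -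
          ∑ φ, (∏ i, (if i ∈ insert j s then g i else f i) (res (S i) φ)) * ∏ a, v a (φ a))
      rw [sub_add_sub_cancel] at h5
      refine h5.trans ?_
      push_cast
      have h6 : |∑ φ, (∏ i, f i (res (S i) φ)) * ∏ a, v a (φ a) -
        ∑ φ, (∏ i, h i (res (S i) φ)) * ∏ a, v a (φ a)| ≤
        s.card * κ * (Fintype.card X : ℝ) ^ Fintype.card V := ih
      linarith
  have := key univ
  simpa using this

end Pool.Agent.N437.RL
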