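import Pool.Agent.N437.RL.Host
/-!
# The deterministic part
-/

set_option autoImplicit false
set_option linter.unusedSectionVars false
set_option linter.unusedVariables false

open Finset

namespace Pool.Agent.N437.RL

variable {V : Type} [Fintype V] [DecidableEq V] {Y : Type} [Fintype Y] [DecidableEq Y] [Nonempty Y]

/-- the edges of a labelled embedded part -/
noncomputable def EE {k : ℕ} (A : Fin k → Finset (Sym2 V)) (x : Σ j, (vs (A j) → Y)) :
    Finset (Sym2 Y) := Eb (A x.1) (vs (A x.1)) x.2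

/-- the labelled embedded parts are edge disjoint and inside `EG` -/
def Good {k : ℕ} (A : Fin k → Finset (Sym2 V)) (EG : Finset (Sym2 Y))
    (Q : Finset (ℕ × Σ j, (vs (A j) → Y))) : Prop :=
  (∀ x ∈ Q, Function.Injective x.2.2 ∧ EE A x.2 ⊆ EG) ∧
    ∀ x ∈ Q, ∀ y ∈ Q, x ≠ y → Disjoint (EE A x.2) (EE A y.2)

/-- the same for unlabelled families -/
def Good' {k : ℕ} (A : Fin k → Finset (Sym2 V)) (EG : Finset (Sym2 Y))
    (Q : Finset (Σ j, (vs (A j) → Y))) : Prop :=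
  (∀ x ∈ Q, Function.Injective x.2 ∧ EE A x ⊆ EG) ∧
    ∀ x ∈ Q, ∀ y ∈ Q, x ≠ y → Disjoint (EE A x) (EE A y)

/-- no copy of the graph with edge set `E` -/
def HFree (E : Finset (Sym2 V)) (EG : Finset (Sym2 Y)) : Prop :=
  ∀ φ : V → Y, Function.Injective φ → ¬ ∀ e ∈ E, Sym2.map φ e ∈ EG

theorem good_mono {k : ℕ} (A : Fin k → Finset (Sym2 V)) (EG : Finset (Sym2 Y))
    (Q Q' : Finset (ℕ × Σ j, (vs (A j) → Y))) (h : Q ⊆ Q') (h' : Good A EG Q') : Good A EG Q :=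
  ⟨fun x hx => h'.1 x (h hx), fun x hx y hy => h'.2 x (h hx) y (h hy)⟩

theorem EE_nonempty {k : ℕ} {A : Fin k → Finset (Sym2 V)} (hne : ∀ j, (A j).Nonempty)
    (x : Σ j, (vs (A j) → Y)) : (EE A x).Nonempty := (hne x.1).image _

theorem exists_max_card {α : Type} [Fintype α] [DecidableEq α] (P : Finset α → Prop) (h : P ∅) :
    ∃ F, P F ∧ ∀ F', P F' → F'.card ≤ F.card := by
  classical
  obtain ⟨F, hF, hmax⟩ := exists_max_image (univ.filter P) card ⟨∅, by simp [h]⟩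
  exact ⟨F, (mem_filter.1 hF).2, fun F' hF' => hmax F' (mem_filter.2 ⟨mem_univ _, hF'⟩)⟩

theorem good_insert {k : ℕ} {A : Fin k → Finset (Sym2 V)} {EG : Finset (Sym2 Y)}
    {Q : Finset (ℕ × Σ j, (vs (A j) → Y))} (hG : Good A EG Q) {x₀ : ℕ × Σ j, (vs (A j) → Y)}
    (h1 : Function.Injective x₀.2.2) (h2 : EE A x₀.2 ⊆ EG)
    (h3 : ∀ x ∈ Q, Disjoint (EE A x₀.2) (EE A x.2)) : Good A EG (insert x₀ Q) := by
  constructor
  · intro x hx
    rcases mem_insert.1 hx with hx' | hx'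
    · rw [hx']
      exact ⟨h1, h2⟩
    · exact hG.1 x hx'
  · intro x hx y hy hxy
    rcases mem_insert.1 hx with hx' | hx'
    · rcases mem_insert.1 hy with hy' | hy'
      · exact absurd (hx'.trans hy'.symm) hxy
      · rw [hx']
        exact h3 y hy'
    · rcases mem_insert.1 hy with hy' | hy'
      · rw [hy']
        exact (h3 x hx').symm
      · exact hG.2 x hx' y hy' hxy

theorem good'_insert {k : ℕ} {A : Fin k → Finset (Sym2 V)} {EG : Finset (Sym2 Y)}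
    {Q : Finset (Σ j, (vs (A j) → Y))} (hG : Good' A EG Q) {x₀ : Σ j, (vs (A j) → Y)}
    (h1 : Function.Injective x₀.2) (h2 : EE A x₀ ⊆ EG)
    (h3 : ∀ x ∈ Q, Disjoint (EE A x₀) (EE A x)) : Good' A EG (insert x₀ Q) := by
  constructor
  · intro x hx
    rcases mem_insert.1 hx with hx' | hx'
    · rw [hx']
      exact ⟨h1, h2⟩
    · exact hG.1 x hx'
  · intro x hx y hy hxy
    rcases mem_insert.1 hx with hx' | hx'
    · rcases mem_insert.1 hy with hy' | hy'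
      · exact absurd (hx'.trans hy'.symm) hxy
      · rw [hx']
        exact h3 y hy'
    · rcases mem_insert.1 hy with hy' | hy'
      · rw [hy']
        exact (h3 x hx').symm
      · exact hG.2 x hx' y hy' hxy

theorem res_inj {S : Finset V} {φ : V → Y} (hφ : Function.Injective φ) :
    Function.Injective (res S φ) := fun _ _ hab => Subtype.ext (hφ hab)

theorem EE_res_sub {k : ℕ} {A : Fin k → Finset (Sym2 V)} {E : Finset (Sym2 V)}
    (hAE : ∀ j, A j ⊆ E) {φ : V → Y} {EG : Finset (Sym2 Y)} (hall : ∀ e ∈ E, Sym2.map φ e ∈ EG)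
    (j : Fin k) : EE A ⟨j, res (vs (A j)) φ⟩ ⊆ EG := by
  unfold EE
  rw [Eb_res Subset.rfl φ]
  intro e he
  obtain ⟨e', he', rfl⟩ := mem_image.1 he
  exact hall e' (hAE j he')

theorem det_free {k : ℕ} {A : Fin k → Finset (Sym2 V)} {E : Finset (Sym2 V)} (hAE : ∀ j, A j ⊆ E)
    (hne : ∀ j, (A j).Nonempty) {EG : Finset (Sym2 Y)}
    {Q : Finset (ℕ × Σ j, (vs (A j) → Y))} (hG : Good A EG Q)
    {C D : ∀ j, Finset (vs (A j) → Y)}
    (hCD : ∀ φ : V → Y, (∀ j, res (vs (A j)) φ ∈ C j) → ∃ j, res (vs (A j)) φ ∈ D j)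
    {E1 E3 E' : Finset (Sym2 Y)} (hE1 : ∀ x ∈ Q, EE A x.2 ⊆ E1)
    (hE' : E' ⊆ EG) (h1 : Disjoint E' E1)
    (h2 : ∀ j, ∀ u, u ∉ C j → Function.Injective u → EE A ⟨j, u⟩ ⊆ E' → ∃ r : ℕ,
      (r, (⟨j, u⟩ : Σ j, (vs (A j) → Y))) ∉ Q → ¬ Good A EG (insert (r, ⟨j, u⟩) Q))
    {F : Finset (Σ j, (vs (A j) → Y))} (hF : Good' A E' F) (hFD : F ⊆ univ.sigma D)
    (hE3 : ∀ x ∈ F, EE A x ⊆ E3)
    (hmax : ∀ F', (F' ⊆ univ.sigma D ∧ Good' A E' F') → F'.card ≤ F.card) :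
    HFree E (E' \ E3) := by
  intro φ hφ hall
  have hsub : ∀ j, EE A ⟨j, res (vs (A j)) φ⟩ ⊆ E' \ E3 := EE_res_sub hAE hall
  have hsub' : ∀ j, EE A ⟨j, res (vs (A j)) φ⟩ ⊆ E' := fun j => (hsub j).trans sdiff_subset
  have hall' : ∀ j, res (vs (A j)) φ ∈ C j := by
    intro j
    by_contra hcon
    obtain ⟨r, h⟩ := h2 j _ hcon (res_inj hφ) (hsub' j)
    have hdis : ∀ x ∈ Q, Disjoint (EE A ⟨j, res (vs (A j)) φ⟩) (EE A x.2) := fun x hx =>
      disjoint_of_subset_left (hsub' j) (disjoint_of_subset_right (hE1 x hx) h1)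
    refine h ?_ (good_insert hG (res_inj hφ) ((hsub' j).trans hE') hdis)
    intro hmem
    obtain ⟨e, he⟩ := EE_nonempty hne (⟨j, res (vs (A j)) φ⟩ : Σ j, (vs (A j) → Y))
    exact (disjoint_left.1 (hdis _ hmem)) he he
  obtain ⟨j, hj⟩ := hCD φ hall'
  have hdis3 : ∀ x ∈ F, Disjoint (EE A ⟨j, res (vs (A j)) φ⟩) (EE A x) := fun x hx =>
    disjoint_of_subset_left (hsub j) (disjoint_of_subset_right (hE3 x hx) sdiff_disjoint)
  have hx₀F : (⟨j, res (vs (A j)) φ⟩ : Σ j, (vs (A j) → Y)) ∉ F := by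
    intro hmem
    obtain ⟨e, he⟩ := EE_nonempty hne (⟨j, res (vs (A j)) φ⟩ : Σ j, (vs (A j) → Y))
    exact (disjoint_left.1 (hdis3 _ hmem)) he he
  have hg1 : Good' A E' (insert ⟨j, res (vs (A j)) φ⟩ F) :=
    good'_insert hF (res_inj hφ) (hsub' j) hdis3
  have hg2 : insert ⟨j, res (vs (A j)) φ⟩ F ⊆ univ.sigma D :=
    insert_subset (mem_sigma.2 ⟨mem_univ _, hj⟩) hFD
  have hg3 : (insert ⟨j, res (vs (A j)) φ⟩ F).card = F.card + 1 := card_insert_of_notMem hx₀F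
  have hbig := hmax _ ⟨hg2, hg1⟩
  rw [hg3] at hbig
  exact absurd hbig (Nat.not_succ_le_self _)

theorem good_union {k : ℕ} {A : Fin k → Finset (Sym2 V)} {EG E' E1 : Finset (Sym2 Y)}
    {Q : Finset (ℕ × Σ j, (vs (A j) → Y))} (hG : Good A EG Q)
    (hE1 : ∀ x ∈ Q, EE A x.2 ⊆ E1) (hE' : E' ⊆ EG) (h1 : Disjoint E' E1)
    {F : Finset (Σ j, (vs (A j) → Y))} (hF : Good' A E' F) (s : ℕ) :
    Good A EG (Q ∪ F.image (Prod.mk s)) := by
  have hmix : ∀ x ∈ Q, ∀ z ∈ F, Disjoint (EE A x.2) (EE A z) := fun x hx z hz =>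
    (disjoint_of_subset_left (hF.1 z hz).2 (disjoint_of_subset_right (hE1 x hx) h1)).symm
  constructor
  · intro x hx
    rcases mem_union.1 hx with hx | hx
    · exact hG.1 x hx
    · obtain ⟨z, hz, rfl⟩ := mem_image.1 hx
      exact ⟨(hF.1 z hz).1, (hF.1 z hz).2.trans hE'⟩
  · intro x hx y hy hxy
    rcases mem_union.1 hx with hx | hx
    · rcases mem_union.1 hy with hy | hy
      · exact hG.2 x hx y hy hxy
      · obtain ⟨z, hz, rfl⟩ := mem_image.1 hy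
        exact hmix x hx z hz
    · obtain ⟨z, hz, rfl⟩ := mem_image.1 hx
      rcases mem_union.1 hy with hy | hy
      · exact (hmix y hy z hz).symm
      · obtain ⟨z', hz', rfl⟩ := mem_image.1 hy
        refine hF.2 z hz z' hz' fun h => hxy ?_
        rw [h]

theorem det {k : ℕ} (A : Fin k → Finset (Sym2 V)) (E : Finset (Sym2 V)) (hAE : ∀ j, A j ⊆ E)
    (hne : ∀ j, (A j).Nonempty) (EG : Finset (Sym2 Y))
    (T : ℕ → ∀ j, Finset (vs (A j) → Y)) (s : ℕ) (hG : Good A EG (lab T s))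
    (C D : ∀ j, Finset (vs (A j) → Y))
    (hCD : ∀ φ : V → Y, (∀ j, res (vs (A j)) φ ∈ C j) → ∃ j, res (vs (A j)) φ ∈ D j)
    (Yr : ℕ → ∀ j, Finset (vs (A j) → Y))
    (hC : ∀ j, ∀ u, u ∉ C j → Function.Injective u → EE A ⟨j, u⟩ ⊆ EG → ∃ r < s,
      ((r, (⟨j, u⟩ : Σ j, (vs (A j) → Y))) ∉ lab T s →
        ¬ Good A EG (insert (r, ⟨j, u⟩) (lab T s))) ∨ u ∈ Yr r j)
    (B : ℝ) (hB : ∀ r < s, ∀ j, ((Yr r j).card : ℝ) ≤ B) (Δ : ℝ)
    (hfar : ∀ E'' ⊆ EG, HFree E E'' → Δ < (EG.card : ℝ) - E''.card) :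
    ∃ F : Finset (Σ j, (vs (A j) → Y)), F ⊆ univ.sigma D ∧
      Good A EG (lab T s ∪ F.image (Prod.mk s)) ∧
      Δ < (lab T s).card * E.card + s * (k * B) + F.card * E.card := by
  have hEEcard : ∀ x : Σ j, (vs (A j) → Y), (EE A x).card ≤ E.card := fun x =>
    card_image_le.trans (card_le_card (hAE x.1))
  obtain ⟨pick, hpick⟩ : ∃ pick : (Σ j, (vs (A j) → Y)) → Sym2 Y, ∀ x, pick x ∈ EE A x :=
    ⟨fun x => (EE_nonempty hne x).choose, fun x => (EE_nonempty hne x).choose_spec⟩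
  obtain ⟨E1, hE1⟩ : ∃ E1, E1 = (lab T s).biUnion fun x => EE A x.2 := ⟨_, rfl⟩
  obtain ⟨E2, hE2⟩ : ∃ E2, E2 = (range s).biUnion fun r => univ.biUnion fun j =>
    (Yr r j).image fun u => pick ⟨j, u⟩ := ⟨_, rfl⟩
  obtain ⟨E', hE'⟩ : ∃ E', E' = EG \ (E1 ∪ E2) := ⟨_, rfl⟩
  obtain ⟨F, ⟨hFD, hF⟩, hmax⟩ := exists_max_card
    (fun F : Finset (Σ j, (vs (A j) → Y)) => F ⊆ univ.sigma D ∧ Good' A E' F)
    ⟨empty_subset _, fun x hx => absurd hx (notMem_empty x), fun x hx => absurd hx (notMem_empty x)⟩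
  obtain ⟨E3, hE3⟩ : ∃ E3, E3 = F.biUnion fun x => EE A x := ⟨_, rfl⟩
  have hE'G : E' ⊆ EG := by rw [hE']; exact sdiff_subset
  have hE1s : ∀ x ∈ lab T s, EE A x.2 ⊆ E1 := fun x hx => by
    rw [hE1]
    exact subset_biUnion_of_mem (fun x : ℕ × Σ j, (vs (A j) → Y) => EE A x.2) hx
  have hdis : Disjoint E' E1 := by
    rw [hE']
    exact disjoint_of_subset_right subset_union_left sdiff_disjoint
  have hE3s : ∀ x ∈ F, EE A x ⊆ E3 := fun x hx => by
    rw [hE3]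
    exact subset_biUnion_of_mem (fun x : Σ j, (vs (A j) → Y) => EE A x) hx
  have hfree : HFree E (E' \ E3) := by
    refine det_free hAE hne hG hCD hE1s hE'G hdis ?_ hF hFD hE3s hmax
    intro j u huC hu hsub
    obtain ⟨r, hr, h⟩ := hC j u huC hu (hsub.trans hE'G)
    refine ⟨r, ?_⟩
    rcases h with h | h
    · exact h
    · exfalso
      have h1 : pick ⟨j, u⟩ ∈ E2 := by
        rw [hE2]
        exact mem_biUnion.2 ⟨r, mem_range.2 hr, mem_biUnion.2 ⟨j, mem_univ _,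
          mem_image.2 ⟨_, h, rfl⟩⟩⟩
      have h2 := hsub (hpick ⟨j, u⟩)
      rw [hE'] at h2
      exact (mem_sdiff.1 h2).2 (mem_union_right _ h1)
  have hΔ := hfar (E' \ E3) (sdiff_subset.trans hE'G) hfree
  refine ⟨F, hFD, good_union hG hE1s hE'G hdis hF s, ?_⟩
  have c1 : (E1.card : ℝ) ≤ (lab T s).card * E.card := by
    have : E1.card ≤ (lab T s).card * E.card := by
      rw [hE1]
      exact card_biUnion_le_card_mul _ _ _ fun x _ => hEEcard x.2
    exact_mod_cast this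
  have c3 : (E3.card : ℝ) ≤ F.card * E.card := by
    have : E3.card ≤ F.card * E.card := by
      rw [hE3]
      exact card_biUnion_le_card_mul _ _ _ fun x _ => hEEcard x
    exact_mod_cast this
  have c2 : (E2.card : ℝ) ≤ s * (k * B) := by
    have h1 : E2.card ≤ ∑ r ∈ range s, ∑ j : Fin k, (Yr r j).card := by
      rw [hE2]
      refine card_biUnion_le.trans (sum_le_sum fun r _ => ?_)
      exact card_biUnion_le.trans (sum_le_sum fun j _ => card_image_le)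
    have h2 : ((E2.card : ℕ) : ℝ) ≤ ∑ r ∈ range s, ∑ j : Fin k, ((Yr r j).card : ℝ) := by
      exact_mod_cast h1
    refine h2.trans ?_
    have h3 : ∀ r ∈ range s, ∑ j : Fin k, ((Yr r j).card : ℝ) ≤ k * B := by
      intro r hr
      refine (sum_le_sum fun j _ => hB r (mem_range.1 hr) j).trans ?_
      rw [sum_const, card_univ, Fintype.card_fin, nsmul_eq_mul]
    refine (sum_le_sum h3).trans ?_
    rw [sum_const, card_range, nsmul_eq_mul]
  have c4 : (EG.card : ℝ) - (E' \ E3).card ≤ E1.card + E2.card + E3.card := by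
    have h1 : EG ⊆ (E' \ E3) ∪ ((E1 ∪ E2) ∪ E3) := by
      intro e he
      by_cases h2 : e ∈ E1 ∪ E2
      · exact mem_union_right _ (mem_union_left _ h2)
      · by_cases h3 : e ∈ E3
        · exact mem_union_right _ (mem_union_right _ h3)
        · refine mem_union_left _ (mem_sdiff.2 ⟨?_, h3⟩)
          rw [hE']
          exact mem_sdiff.2 ⟨he, h2⟩
    have h2 := (card_le_card h1).trans ((card_union_le _ _).trans (Nat.add_le_add_left
      ((card_union_le _ _).trans (Nat.add_le_add_right (card_union_le _ _) _)) _))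
    have h3 : (EG.card : ℝ) ≤ (E' \ E3).card + (E1.card + E2.card + E3.card) := by exact_mod_cast h2
    linarith
  linarith

end Pool.Agent.N437.RL
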