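import Pool.Agent.N437.RL.Core3
/-!
# From graphs to edge sets
-/

set_option autoImplicit false
set_option linter.unusedSectionVars false
set_option linter.unusedVariables false

open Finset

namespace Pool.Agent.N437.RL

variable {V : Type} [Fintype V] [DecidableEq V] {Y : Type} [Fintype Y] [DecidableEq Y]

open Classical in
/-- the edges of a graph -/
noncomputable def ef {Y : Type} [Fintype Y] (G : SimpleGraph Y) : Finset (Sym2 Y) :=
  univ.filter fun e => e ∈ G.edgeSet

theorem mem_ef {G : SimpleGraph Y} {e : Sym2 Y} : e ∈ ef G ↔ e ∈ G.edgeSet := by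
  unfold ef
  simp

theorem coe_ef (G : SimpleGraph Y) : (ef G : Set (Sym2 Y)) = G.edgeSet := by
  ext e
  exact mem_ef

theorem card_ef (G : SimpleGraph Y) : (ef G).card = G.edgeSet.ncard := by
  rw [← coe_ef, Set.ncard_coe_finset]

theorem ef_inj {G G' : SimpleGraph Y} (h : ef G = ef G') : G = G' := by
  rw [← SimpleGraph.edgeSet_inj, ← coe_ef, ← coe_ef, h]

/-- an injective map preserving the edges is a labelled copy -/
def toCopy {H : SimpleGraph V} {G : SimpleGraph Y} (φ : V → Y) (hφ : Function.Injective φ)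
    (h : ∀ e ∈ ef H, Sym2.map φ e ∈ ef G) : SimpleGraph.Copy H G :=
  ⟨⟨φ, fun {a b} hab => by
    have := h s(a, b) (mem_ef.2 hab)
    rwa [mem_ef] at this⟩, hφ⟩

theorem msc {n : ℕ} : MeasurableSingletonClass (SimpleGraph (Fin n)) := by
  refine ⟨fun G => ?_⟩
  have h1 : ({G} : Set (SimpleGraph (Fin n))) = SimpleGraph.edgeSet ⁻¹' {G.edgeSet} := by
    ext G'
    simp only [Set.mem_singleton_iff, Set.mem_preimage, SimpleGraph.edgeSet_inj]
  rw [h1]
  exact SimpleGraph.measurable_edgeSet (measurableSet_singleton _)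

theorem nh_le (H : SimpleGraph V) (G : SimpleGraph Y) :
    nh (ef H) (ef G) ≤ (Fintype.card V) ^ (Fintype.card V) * G.copyCount H := by
  classical
  have h1 : nh (ef H) (ef G) ≤ (univ : Finset (SimpleGraph.Copy H G)).card := by
    unfold nh
    refine card_le_card_of_surjOn (fun f : SimpleGraph.Copy H G => (f : V → Y)) ?_
    intro φ hφ
    obtain ⟨hφ1, hφ2⟩ := (mem_filter.1 (mem_coe.1 hφ)).2
    exact ⟨toCopy φ hφ1 hφ2, mem_coe.2 (mem_univ _), rfl⟩
  refine h1.trans ?_
  rw [SimpleGraph.copyCount_eq_card_image_copyToSubgraph]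
  refine card_le_mul_card_image _ _ ?_
  intro S hS
  obtain ⟨f₀, _, rfl⟩ := mem_image.1 hS
  have h2 : ∀ f ∈ (univ : Finset (SimpleGraph.Copy H G)).filter
      (fun f => f.toSubgraph = f₀.toSubgraph), ∀ a, ∃ b, f₀ b = f a := by
    intro f hf a
    have h3 := (mem_filter.1 hf).2
    have h4 : f a ∈ f.toSubgraph.verts := ⟨a, trivial, rfl⟩
    rw [h3] at h4
    obtain ⟨b, _, hb⟩ := h4
    exact ⟨b, hb⟩
  have h5 : ((univ : Finset (SimpleGraph.Copy H G)).filter
      (fun f => f.toSubgraph = f₀.toSubgraph)).card ≤ (univ : Finset (V → V)).card := by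
    refine card_le_card_of_injOn
      (fun f a => if h : ∃ b, f₀ b = f a then h.choose else a) (fun _ _ => mem_coe.2 (mem_univ _)) ?_
    intro f hf g hg hfg
    refine SimpleGraph.Copy.ext fun a => ?_
    have e1 := h2 f (mem_coe.1 hf) a
    have e2 := h2 g (mem_coe.1 hg) a
    have e3 := congrFun hfg a
    simp only [dif_pos e1, dif_pos e2] at e3
    rw [← e1.choose_spec, ← e2.choose_spec, e3]
  rwa [card_univ, Fintype.card_fun] at h5

theorem bridge [Nonempty Y] (H : SimpleGraph V) {ε δ p : ℝ} {G₀ : SimpleGraph Y}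
    (hV : 0 < Fintype.card V)
    (h : ¬ ∀ G ≤ G₀, (G.copyCount H : ℝ) ≤ δ / (Fintype.card V : ℝ) ^ Fintype.card V *
      p ^ H.edgeSet.ncard * (Fintype.card Y : ℝ) ^ Fintype.card V →
      ∃ s : Finset (Sym2 Y), (s.card : ℝ) ≤ ε * p * (Fintype.card Y : ℝ) ^ 2 ∧
        H.Free (G.deleteEdges (s : Set (Sym2 Y)))) : BadE (ef H) ε δ p (ef G₀) := by
  classical
  push Not at h
  obtain ⟨G, hG, hcount, hs⟩ := h
  have hV' : (0 : ℝ) < (Fintype.card V : ℝ) ^ Fintype.card V := by positivity
  refine ⟨ef G, fun e he => mem_ef.2 (SimpleGraph.edgeSet_mono hG (mem_ef.1 he)), ?_, ?_⟩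
  · have h1 : ((nh (ef H) (ef G) : ℕ) : ℝ) ≤
        (Fintype.card V : ℝ) ^ (Fintype.card V) * G.copyCount H := by exact_mod_cast nh_le H G
    refine h1.trans ?_
    refine (mul_le_mul_of_nonneg_left hcount hV'.le).trans (le_of_eq ?_)
    rw [card_ef]
    field_simp
  · intro E'' hE'' hfree
    by_contra hcon
    push Not at hcon
    have hcard : ((ef G \ E'').card : ℝ) ≤ ε * p * (Fintype.card Y : ℝ) ^ 2 := by
      rw [card_sdiff_of_subset hE'', Nat.cast_sub (card_le_card hE'')]
      linarith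
    obtain ⟨f⟩ := hs (ef G \ E'') hcard
    refine hfree f f.injective fun e he => ?_
    induction e with
    | _ a b =>
      have h1 : H.Adj a b := mem_ef.1 he
      have h2 := f.toHom.map_adj h1
      rw [SimpleGraph.deleteEdges_adj] at h2
      obtain ⟨h3, h4⟩ := h2
      by_contra h5
      refine h4 ?_
      rw [mem_coe, mem_sdiff]
      exact ⟨mem_ef.2 h3, h5⟩

theorem prob_bound {n : ℕ} (p : unitInterval) (Bad : Set (SimpleGraph (Fin n)))
    (Q : Finset (Sym2 (Fin n)) → Prop) (h : ∀ G ∈ Bad, Q (ef G)) :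
    SimpleGraph.binomialRandom (Fin n) p Bad ≤
      ENNReal.ofReal (prE (univ.filter fun e : Sym2 (Fin n) => ¬ e.IsDiag) p Q) := by
  classical
  have := msc (n := n)
  have hp0 : (0 : ℝ) ≤ p := p.2.1
  have hp1 : (p : ℝ) ≤ 1 := p.2.2
  have hU : (univ.filter fun e : Sym2 (Fin n) => ¬ e.IsDiag).card = n.choose 2 := by
    have := Sym2.card_subtype_not_diag (α := Fin n)
    rw [Fintype.card_fin] at this
    rw [← this, Fintype.card_subtype]
  have h1 : SimpleGraph.binomialRandom (Fin n) p Bad =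
      ∑ G ∈ univ.filter (fun G : SimpleGraph (Fin n) => G ∈ Bad),
        SimpleGraph.binomialRandom (Fin n) p {G} := by
    rw [MeasureTheory.sum_measure_singleton]
    congr 1
    ext G
    simp
  have h2 : ∀ G : SimpleGraph (Fin n), SimpleGraph.binomialRandom (Fin n) p {G} =
      ENNReal.ofReal ((p : ℝ) ^ (ef G).card * (1 - p) ^
        ((univ.filter fun e : Sym2 (Fin n) => ¬ e.IsDiag).card - (ef G).card)) := by
    intro G
    rw [SimpleGraph.binomialRandom_singleton, hU, card_ef, Nat.card_eq_fintype_card,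
      Fintype.card_fin, ENNReal.ofReal_mul (by positivity), ENNReal.ofReal_pow hp0,
      ENNReal.ofReal_pow (by linarith)]
    congr 2
    · rw [ENNReal.ofReal_eq_coe_nnreal hp0]
      rfl
    · rw [ENNReal.ofReal_eq_coe_nnreal (show (0 : ℝ) ≤ 1 - p by linarith)]
      rfl
  rw [h1, sum_congr rfl fun G _ => h2 G, ← ENNReal.ofReal_sum_of_nonneg (fun G _ => by
    have : (0 : ℝ) ≤ 1 - p := by linarith
    positivity)]
  refine ENNReal.ofReal_le_ofReal ?_
  rw [prE_eq, ← sum_filter]
  rw [← sum_image (f := fun s : Finset (Sym2 (Fin n)) => (p : ℝ) ^ s.card * (1 - p) ^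
    ((univ.filter fun e : Sym2 (Fin n) => ¬ e.IsDiag).card - s.card))
    (g := fun G : SimpleGraph (Fin n) => ef G) (fun G _ G' _ hGG => ef_inj hGG)]
  refine sum_le_sum_of_subset_of_nonneg ?_ fun s _ _ => by
    have : (0 : ℝ) ≤ 1 - p := by linarith
    positivity
  intro s hs
  obtain ⟨G, hG, rfl⟩ := mem_image.1 hs
  refine mem_filter.2 ⟨mem_powerset.2 fun e he => mem_filter.2 ⟨mem_univ _, ?_⟩,
    h G (mem_filter.1 hG).2⟩
  exact G.not_isDiag_of_mem_edgeSet (mem_ef.1 he)

end Pool.Agent.N437.RL
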