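import Pool.Agent.N437.RL.Fin1
/-!
# Counting extensions; the sparse cases
-/

set_option autoImplicit false
set_option linter.unusedSectionVars false
set_option linter.unusedVariables false

open Finset

namespace Pool.Agent.N437.RL

variable {V : Type} [Fintype V] [DecidableEq V] {Y : Type} [Fintype Y] [DecidableEq Y]

theorem ext_count (S : Finset V) (u : S → Y) (hu : Function.Injective u) :
    (Fintype.card Y - Fintype.card V) ^ (Fintype.card V - S.card) ≤
      (univ.filter fun φ : V → Y => Function.Injective φ ∧ res S φ = u).card := by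
  classical
  have h1 : Fintype.card {a : V // a ∉ S} = Fintype.card V - S.card := by
    rw [Fintype.card_subtype_compl, Fintype.card_coe]
  have h2 : Fintype.card {y : Y // y ∉ univ.image u} = Fintype.card Y - S.card := by
    rw [Fintype.card_subtype_compl, Fintype.card_coe, card_image_of_injective _ hu, card_univ,
      Fintype.card_coe]
  have hS : S.card ≤ Fintype.card V := card_le_univ S
  have h3 : (Fintype.card Y - Fintype.card V) ^ (Fintype.card V - S.card) ≤
      Fintype.card ({a : V // a ∉ S} ↪ {y : Y // y ∉ univ.image u}) := by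
    rw [Fintype.card_embedding_eq, h1, h2]
    refine le_trans ?_ (Nat.pow_sub_le_descFactorial _ _)
    exact Nat.pow_le_pow_left (by omega) _
  refine h3.trans ?_
  rw [← card_univ]
  refine card_le_card_of_injOn
    (fun g a => if h : a ∈ S then u ⟨a, h⟩ else (g ⟨a, h⟩).1) ?_ ?_
  · intro g _
    rw [mem_coe, mem_filter]
    refine ⟨mem_univ _, ?_, ?_⟩
    · intro a b hab
      simp only at hab
      by_cases ha : a ∈ S <;> by_cases hb : b ∈ S
      · rw [dif_pos ha, dif_pos hb] at hab
        exact congrArg Subtype.val (hu hab)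
      · rw [dif_pos ha, dif_neg hb] at hab
        exact absurd (mem_image.2 ⟨_, mem_univ _, hab⟩) (g ⟨b, hb⟩).2
      · rw [dif_neg ha, dif_pos hb] at hab
        exact absurd (mem_image.2 ⟨_, mem_univ _, hab.symm⟩) (g ⟨a, ha⟩).2
      · rw [dif_neg ha, dif_neg hb] at hab
        exact congrArg Subtype.val (g.injective (Subtype.ext hab))
    · funext a
      unfold res
      simp only [dif_pos a.2]
  · intro g _ g' _ hgg
    ext a
    have := congrFun hgg a.1
    simp only [dif_neg a.2] at this
    exact this

theorem nh_ge {E : Finset (Sym2 V)} {EG : Finset (Sym2 Y)} (S : Finset V) (R : Finset (S → Y))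
    (hR : ∀ u ∈ R, Function.Injective u)
    (hR' : ∀ φ : V → Y, res S φ ∈ R → ∀ e ∈ E, Sym2.map φ e ∈ EG) :
    (Fintype.card Y - Fintype.card V) ^ (Fintype.card V - S.card) * R.card ≤ nh E EG := by
  classical
  have h1 : (univ.filter fun φ : V → Y => Function.Injective φ ∧ res S φ ∈ R).card ≤ nh E EG := by
    unfold nh
    refine card_le_card fun φ hφ => ?_
    obtain ⟨a1, a2⟩ := (mem_filter.1 hφ).2
    exact mem_filter.2 ⟨mem_univ _, a1, hR' φ a2⟩
  refine le_trans ?_ h1
  refine mul_card_image_le_card_of_maps_to (f := fun φ : V → Y => res S φ)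
    (fun φ hφ => (mem_filter.1 hφ).2.2) _ ?_
  intro u hu
  refine (ext_count S u (hR u hu)).trans (card_le_card fun φ hφ => ?_)
  obtain ⟨a1, a2⟩ := (mem_filter.1 hφ).2
  exact mem_filter.2 ⟨mem_filter.2 ⟨mem_univ _, a1, by rw [a2]; exact hu⟩, a2⟩

theorem two_edges {e₁ e₂ : Sym2 V} (h1 : ¬ e₁.IsDiag) (h2 : ¬ e₂.IsDiag) (hne : e₁ ≠ e₂)
    {S : Finset V} (hS1 : ∀ a ∈ e₁, a ∈ S) (hS2 : ∀ a ∈ e₂, a ∈ S) : 3 ≤ S.card := by
  by_contra hcon
  push Not at hcon
  induction e₁ with
  | _ a b =>
    induction e₂ with
    | _ c d =>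
      rw [Sym2.mk_isDiag_iff] at h1 h2
      have ha := hS1 a (by simp)
      have hb := hS1 b (by simp)
      have hc := hS2 c (by simp)
      have hd := hS2 d (by simp)
      have hab : ({a, b} : Finset V) ⊆ S := by
        intro x hx
        rcases mem_insert.1 hx with rfl | hx
        · exact ha
        · rw [mem_singleton.1 hx]; exact hb
      have heq : ({a, b} : Finset V) = S := by
        refine eq_of_subset_of_card_le hab ?_
        rw [card_pair h1]
        omega
      rw [← heq] at hc hd
      simp only [mem_insert, mem_singleton] at hc hd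
      rcases hc with rfl | rfl <;> rcases hd with rfl | rfl
      · exact h2 rfl
      · exact hne rfl
      · exact hne Sym2.eq_swap
      · exact h2 rfl

theorem card_vs_le (A : Finset (Sym2 V)) : (vs A).card ≤ 2 * A.card := by
  classical
  have h1 : vs A ⊆ A.biUnion fun e => e.toFinset := by
    intro a ha
    obtain ⟨e, he, hae⟩ := mem_vs.1 ha
    exact mem_biUnion.2 ⟨e, he, Sym2.mem_toFinset.2 hae⟩
  refine (card_le_card h1).trans ?_
  rw [mul_comm]
  refine card_biUnion_le_card_mul _ _ _ fun e _ => ?_
  induction e with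
  | _ a b =>
    by_cases h : a = b
    · rw [Sym2.card_toFinset_of_isDiag]
      · norm_num
      · rwa [Sym2.mk_isDiag_iff]
    · rw [Sym2.card_toFinset_of_not_isDiag]
      rwa [Sym2.mk_isDiag_iff]

theorem ef_diag {H : SimpleGraph V} {e : Sym2 V} (he : e ∈ ef H) : ¬ e.IsDiag :=
  H.not_isDiag_of_mem_edgeSet (mem_ef.1 he)

end Pool.Agent.N437.RL
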