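import Pool.Agent.N437.RL.Fin2
/-!
# The degenerate cases
-/

set_option autoImplicit false
set_option linter.unusedSectionVars false
set_option linter.unusedVariables false

open Finset

namespace Pool.Agent.N437.RL

variable {V : Type} [Fintype V] [DecidableEq V]

/-- the removal property -/
def RemProp {V : Type} [Fintype V] {n : ℕ} (H : SimpleGraph V) (ε δ p : ℝ)
    (G₀ : SimpleGraph (Fin n)) : Prop :=
  ∀ G ≤ G₀, (G.copyCount H : ℝ) ≤ δ * p ^ H.edgeSet.ncard * (n : ℝ) ^ Fintype.card V →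
    ∃ s : Finset (Sym2 (Fin n)), (s.card : ℝ) ≤ ε * p * (n : ℝ) ^ 2 ∧
      H.Free (G.deleteEdges (s : Set (Sym2 (Fin n))))

theorem half_pow {n v k : ℕ} (hn : 2 * v ≤ n) (hk : k ≤ v) :
    (n : ℝ) ^ k ≤ 2 ^ v * (((n - v) ^ k : ℕ) : ℝ) := by
  have h1 : (n : ℝ) ≤ 2 * ((n - v : ℕ) : ℝ) := by
    have : n ≤ 2 * (n - v) := by omega
    exact_mod_cast this
  push_cast
  calc (n : ℝ) ^ k ≤ (2 * ((n - v : ℕ) : ℝ)) ^ k := pow_le_pow_left₀ (Nat.cast_nonneg _) h1 k
    _ = 2 ^ k * ((n - v : ℕ) : ℝ) ^ k := mul_pow _ _ _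
    _ ≤ 2 ^ v * ((n - v : ℕ) : ℝ) ^ k := by
        refine mul_le_mul_of_nonneg_right ?_ (by positivity)
        exact pow_le_pow_right₀ (by norm_num) hk

theorem case1 (H : SimpleGraph V) (hE : (ef H).card = 1) {ε : ℝ} (hε : 0 < ε) :
    ∃ δ : ℝ, 0 < δ ∧ ∀ n : ℕ, 2 * Fintype.card V ≤ n → 0 < n → ∀ p : ℝ, 0 ≤ p →
      ∀ G₀ : SimpleGraph (Fin n), RemProp H ε δ p G₀ := by
  classical
  obtain ⟨e₀, he₀⟩ := card_eq_one.1 hE
  have he₀m : e₀ ∈ ef H := by rw [he₀]; exact mem_singleton_self _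
  have hd := ef_diag he₀m
  obtain ⟨a, b, hab⟩ : ∃ a b, e₀ = s(a, b) := by
    induction e₀ with
    | _ a b => exact ⟨a, b, rfl⟩
  have hne : a ≠ b := by
    intro h
    rw [hab, Sym2.mk_isDiag_iff] at hd
    exact hd h
  have hVpos : 0 < Fintype.card V := Fintype.card_pos_iff.2 ⟨a⟩
  have hV2 : 2 ≤ Fintype.card V := by
    have := card_le_univ ({a, b} : Finset V)
    rwa [card_pair hne] at this
  have hVV : (0 : ℝ) < (Fintype.card V : ℝ) ^ Fintype.card V := by positivity
  refine ⟨ε / ((Fintype.card V : ℝ) ^ Fintype.card V * 2 ^ Fintype.card V), by positivity, ?_⟩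
  intro n hn hn0 p hp G₀ G hG hcount
  have hnh := nh_le H G
  -- a lower bound
  have hlow : (n - Fintype.card V) ^ (Fintype.card V - 2) * (ef G).card ≤ nh (ef H) (ef G) := by
    have h1 : ∀ e' : Sym2 (Fin n), ∃ x y, e' = s(x, y) := fun e' => by
      induction e' with
      | _ x y => exact ⟨x, y, rfl⟩
    choose fx fy hf using h1
    obtain ⟨U, hU⟩ : ∃ U : Sym2 (Fin n) → (({a, b} : Finset V) → Fin n),
      U = fun e' c => if c.1 = a then fx e' else fy e' := ⟨_, rfl⟩
    have ha : a ∈ ({a, b} : Finset V) := mem_insert_self _ _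
    have hb : b ∈ ({a, b} : Finset V) := mem_insert_of_mem (mem_singleton_self _)
    have hUa : ∀ e', U e' ⟨a, ha⟩ = fx e' := fun e' => by rw [hU]; exact if_pos rfl
    have hUb : ∀ e', U e' ⟨b, hb⟩ = fy e' := fun e' => by
      rw [hU]; exact if_neg fun h => hne h.symm
    have hUinj : Function.Injective U := by
      intro e e' hee
      rw [hf e, hf e', ← hUa, ← hUb, ← hUa, ← hUb, hee]
    have hS : ({a, b} : Finset V).card = 2 := card_pair hne
    have h2 := nh_ge (E := ef H) (EG := ef G) ({a, b} : Finset V) ((ef G).image U) (by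
      intro u hu
      obtain ⟨e', he', rfl⟩ := mem_image.1 hu
      have hxy : fx e' ≠ fy e' := by
        intro h
        refine ef_diag he' ?_
        rw [hf e', h, Sym2.mk_isDiag_iff]
      rintro ⟨c, hc⟩ ⟨d, hd⟩ hcd
      simp only [mem_insert, mem_singleton] at hc hd
      rcases hc with rfl | rfl <;> rcases hd with rfl | rfl
      · rfl
      · rw [hUa, hUb] at hcd
        exact absurd hcd hxy
      · rw [hUa, hUb] at hcd
        exact absurd hcd.symm hxy
      · rfl) (by
      intro φ hφ e he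
      obtain ⟨e', he', hee⟩ := mem_image.1 hφ
      rw [he₀, mem_singleton] at he
      have e1 : φ a = fx e' := by rw [← hUa, hee]; rfl
      have e2 : φ b = fy e' := by rw [← hUb, hee]; rfl
      rw [he, hab, Sym2.map_mk, e1, e2, ← hf e']
      exact he')
    rw [card_image_of_injective _ hUinj, Fintype.card_fin, hS] at h2
    exact h2
  have hfin : ((ef G).card : ℝ) ≤ ε * p * (n : ℝ) ^ 2 := by
    have hn' : (0 : ℝ) < n := by exact_mod_cast hn0
    have h1 : (((n - Fintype.card V) ^ (Fintype.card V - 2) : ℕ) : ℝ) * (ef G).card ≤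
        (Fintype.card V : ℝ) ^ (Fintype.card V) * G.copyCount H := by
      exact_mod_cast hlow.trans hnh
    have h2 := half_pow (k := Fintype.card V - 2) hn (Nat.sub_le _ _)
    have h3 : (n : ℝ) ^ (Fintype.card V - 2) * (ef G).card ≤
        (n : ℝ) ^ (Fintype.card V - 2) * (ε * p * (n : ℝ) ^ 2) := by
      calc (n : ℝ) ^ (Fintype.card V - 2) * (ef G).card ≤
          (2 ^ Fintype.card V * (((n - Fintype.card V) ^ (Fintype.card V - 2) : ℕ) : ℝ)) *
            (ef G).card := mul_le_mul_of_nonneg_right h2 (Nat.cast_nonneg _)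
        _ = 2 ^ Fintype.card V * ((((n - Fintype.card V) ^ (Fintype.card V - 2) : ℕ) : ℝ) *
            (ef G).card) := by ring
        _ ≤ 2 ^ Fintype.card V * ((Fintype.card V : ℝ) ^ (Fintype.card V) * G.copyCount H) :=
            mul_le_mul_of_nonneg_left h1 (by positivity)
        _ ≤ 2 ^ Fintype.card V * ((Fintype.card V : ℝ) ^ (Fintype.card V) *
            (ε / ((Fintype.card V : ℝ) ^ Fintype.card V * 2 ^ Fintype.card V) *
              p ^ H.edgeSet.ncard * (n : ℝ) ^ Fintype.card V)) := by gcongr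
        _ = (n : ℝ) ^ (Fintype.card V - 2) * (ε * p * (n : ℝ) ^ 2) := by
            rw [← card_ef, hE, pow_one]
            have h4 : (n : ℝ) ^ Fintype.card V = (n : ℝ) ^ (Fintype.card V - 2) * (n : ℝ) ^ 2 := by
              rw [← pow_add]
              congr 1
              omega
            rw [h4]
            field_simp
    exact le_of_mul_le_mul_left h3 (by positivity)
  refine ⟨ef G, hfin, ?_⟩
  have h5 : G.deleteEdges (ef G : Set (Sym2 (Fin n))) = ⊥ := by
    rw [coe_ef]
    ext x y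
    rw [SimpleGraph.deleteEdges_adj, SimpleGraph.mem_edgeSet, SimpleGraph.bot_adj]
    tauto
  rw [h5]
  refine SimpleGraph.free_bot ?_
  rintro rfl
  rw [mem_ef, SimpleGraph.edgeSet_bot] at he₀m
  exact he₀m

theorem case3 (H : SimpleGraph V) (hV : 0 < Fintype.card V) {ε C : ℝ} (hε : 0 < ε) (hC : 0 < C) :
    ∃ δ : ℝ, 0 < δ ∧ ∀ n : ℕ, 2 * Fintype.card V ≤ n → 0 < n → ∀ p : ℝ, 0 ≤ p →
      p * (n : ℝ) ^ 2 ≤ C → ∀ G₀ : SimpleGraph (Fin n), RemProp H ε δ p G₀ := by
  classical
  have hVV : (0 : ℝ) < (Fintype.card V : ℝ) ^ Fintype.card V := by positivity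
  refine ⟨1 / (2 * 2 ^ Fintype.card V * (Fintype.card V : ℝ) ^ Fintype.card V *
    C ^ (ef H).card), by positivity, ?_⟩
  intro n hn hn0 p hp hpC G₀ G hG hcount
  have hn' : (0 : ℝ) < n := by exact_mod_cast hn0
  have hn1 : (1 : ℝ) ≤ n := by exact_mod_cast hn0
  refine ⟨∅, ?_, ?_⟩
  · rw [card_empty, Nat.cast_zero]
    positivity
  · rw [coe_empty, SimpleGraph.deleteEdges_empty]
    rintro ⟨f⟩
    have hnh := nh_le H G
    have hlow := nh_ge (E := ef H) (EG := ef G) (vs (ef H)) {res (vs (ef H)) f} (by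
      intro u hu
      rw [mem_singleton] at hu
      subst hu
      intro x y hxy
      exact Subtype.ext (f.injective hxy)) (by
      intro φ hφ e he
      rw [mem_singleton] at hφ
      have h1 : Sym2.map φ e = Sym2.map f e := by
        refine Sym2.map_congr fun x hx => ?_
        exact congrFun hφ ⟨x, mem_vs.2 ⟨e, he, hx⟩⟩
      rw [h1]
      induction e with
      | _ x y =>
        rw [Sym2.map_mk, mem_ef]
        exact f.toHom.map_adj (mem_ef.1 he))
    rw [card_singleton, mul_one, Fintype.card_fin] at hlow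
    have h1 : (((n - Fintype.card V) ^ (Fintype.card V - (vs (ef H)).card) : ℕ) : ℝ) ≤
        (Fintype.card V : ℝ) ^ (Fintype.card V) * G.copyCount H := by
      exact_mod_cast hlow.trans hnh
    have h2 := half_pow (k := Fintype.card V - (vs (ef H)).card) hn (Nat.sub_le _ _)
    have hvs := card_vs_le (ef H)
    have h3 : (n : ℝ) ^ Fintype.card V ≤
        (n : ℝ) ^ (2 * (ef H).card) * (n : ℝ) ^ (Fintype.card V - (vs (ef H)).card) := by
      rw [← pow_add]
      exact pow_le_pow_right₀ hn1 (by omega)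
    have h4 : (n : ℝ) ^ (2 * (ef H).card) * p ^ (ef H).card ≤ C ^ (ef H).card := by
      rw [pow_mul, ← mul_pow]
      refine pow_le_pow_left₀ (by positivity) ?_ _
      linarith
    have h5 : (n : ℝ) ^ Fintype.card V ≤ (n : ℝ) ^ Fintype.card V / 2 := by
      calc (n : ℝ) ^ Fintype.card V ≤
          (n : ℝ) ^ (2 * (ef H).card) * (n : ℝ) ^ (Fintype.card V - (vs (ef H)).card) := h3
        _ ≤ (n : ℝ) ^ (2 * (ef H).card) * (2 ^ Fintype.card V *
            (((n - Fintype.card V) ^ (Fintype.card V - (vs (ef H)).card) : ℕ) : ℝ)) := by gcongr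
        _ ≤ (n : ℝ) ^ (2 * (ef H).card) * (2 ^ Fintype.card V *
            ((Fintype.card V : ℝ) ^ (Fintype.card V) * G.copyCount H)) := by gcongr
        _ ≤ (n : ℝ) ^ (2 * (ef H).card) * (2 ^ Fintype.card V *
            ((Fintype.card V : ℝ) ^ (Fintype.card V) *
            (1 / (2 * 2 ^ Fintype.card V * (Fintype.card V : ℝ) ^ Fintype.card V *
              C ^ (ef H).card) * p ^ H.edgeSet.ncard * (n : ℝ) ^ Fintype.card V))) := by gcongr
        _ = ((n : ℝ) ^ (2 * (ef H).card) * p ^ (ef H).card) *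
            ((n : ℝ) ^ Fintype.card V / (2 * C ^ (ef H).card)) := by
            rw [← card_ef]
            field_simp
        _ ≤ C ^ (ef H).card * ((n : ℝ) ^ Fintype.card V / (2 * C ^ (ef H).card)) := by gcongr
        _ = _ := by field_simp
    have h6 : 0 < (n : ℝ) ^ Fintype.card V := by positivity
    linarith

end Pool.Agent.N437.RL
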