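import Pool.Agent.N437.RL.Fin3
import Pool.Agent.N437.RL.Blob
/-!
# The main case
-/

set_option autoImplicit false
set_option linter.unusedSectionVars false
set_option linter.unusedVariables false

open Finset Filter Topology

namespace Pool.Agent.N437.RL

variable {V : Type} [Fintype V] [DecidableEq V]

theorem as_le {m C x p : ℝ} (hm : 0 < m) (hC : 0 ≤ C) (hx : 0 < x) (hp : 0 ≤ p)
    (h : p ≤ C * x ^ (-1 / m)) (v' e' : ℕ) (he : (e' : ℝ) = m * v') :
    x ^ v' * p ^ e' ≤ C ^ e' := by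
  have h1 : (x ^ (-1 / m)) ^ e' = (x ^ v')⁻¹ := by
    rw [← Real.rpow_natCast (x ^ (-1 / m)), ← Real.rpow_mul hx.le, ← Real.rpow_natCast x v',
      ← Real.rpow_neg hx.le]
    congr 1
    rw [he]
    field_simp
  calc x ^ v' * p ^ e' ≤ x ^ v' * (C * x ^ (-1 / m)) ^ e' := by gcongr
    _ = C ^ e' := by
        rw [mul_pow, h1]
        field_simp

theorem as_ge {m c x p : ℝ} (hm : 0 < m) (hc : 0 < c) (hx : 0 < x)
    (h : c * x ^ (-1 / m) ≤ p) (b' e' : ℕ) :
    c ^ e' * x ^ ((b' : ℝ) - e' / m) ≤ x ^ b' * p ^ e' := by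
  have h1 : (x ^ (-1 / m)) ^ e' = x ^ (-((e' : ℝ) / m)) := by
    rw [← Real.rpow_natCast (x ^ (-1 / m)), ← Real.rpow_mul hx.le]
    congr 1
    field_simp
  calc c ^ e' * x ^ ((b' : ℝ) - e' / m) = x ^ b' * (c * x ^ (-1 / m)) ^ e' := by
        rw [mul_pow, h1, sub_eq_add_neg, Real.rpow_add hx, Real.rpow_natCast]
        ring
    _ ≤ x ^ b' * p ^ e' := by gcongr

theorem tend_good {P : ∀ n : ℕ, Set (SimpleGraph (Fin n))} {p : ℕ → unitInterval} {f : ℕ → ℝ}
    (hf : Tendsto f atTop (𝓝 0))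
    (h : ∀ᶠ n in atTop, SimpleGraph.binomialRandom (Fin n) (p n) (P n)ᶜ ≤ ENNReal.ofReal (f n)) :
    Tendsto (fun n => SimpleGraph.binomialRandom (Fin n) (p n) (P n)) atTop (𝓝 1) := by
  have h1 : Tendsto (fun n => 1 - ENNReal.ofReal (f n)) atTop (𝓝 1) := by
    have h2 : Tendsto (fun n => ENNReal.ofReal (f n)) atTop (𝓝 (ENNReal.ofReal 0)) :=
      ENNReal.tendsto_ofReal hf
    rw [ENNReal.ofReal_zero] at h2
    have h3 := ENNReal.Tendsto.sub (tendsto_const_nhds (x := (1 : ENNReal))) h2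
      (Or.inl ENNReal.one_ne_top)
    simpa using h3
  refine tendsto_of_tendsto_of_tendsto_of_le_of_le' h1 tendsto_const_nhds ?_ ?_
  · filter_upwards [h] with n hn
    have h4 : (1 : ENNReal) ≤ SimpleGraph.binomialRandom (Fin n) (p n) (P n) +
        SimpleGraph.binomialRandom (Fin n) (p n) (P n)ᶜ := by
      have h5 : SimpleGraph.binomialRandom (Fin n) (p n) (Set.univ) = 1 :=
        MeasureTheory.measure_univ
      rw [← h5, ← Set.union_compl_self (P n)]
      exact MeasureTheory.measure_union_le _ _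
    rw [tsub_le_iff_right]
    exact h4.trans (by gcongr)
  · exact Eventually.of_forall fun n => MeasureTheory.prob_le_one

theorem case2 (H : SimpleGraph V) (hE : (ef H).Nonempty) {m : ℝ} (hm : 1 / 2 < m)
    (hd : Dens (ef H) m) {ε c C : ℝ} (hε : 0 < ε) (hc : 0 < c) (hC : 0 < C) :
    ∃ δ : ℝ, 0 < δ ∧ ∀ p : ℕ → unitInterval,
      (∀ᶠ n : ℕ in atTop, c * (n : ℝ) ^ (-1 / m) ≤ (p n : ℝ) ∧
        (p n : ℝ) ≤ C * (n : ℝ) ^ (-1 / m)) →
      Tendsto (fun n : ℕ => SimpleGraph.binomialRandom (Fin n) (p n)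
        {G₀ | RemProp H ε δ (p n) G₀}) atTop (𝓝 1) := by
  classical
  have hm0 : 0 < m := by linarith
  obtain ⟨k, A, hk, hzero, hcov, hint, hdis, hJ⟩ := blobs hd (fun e he => ef_diag he) hE
  have hV : 0 < Fintype.card V := by
    obtain ⟨e, he⟩ := hE
    induction e with
    | _ a b => exact Fintype.card_pos_iff.2 ⟨a⟩
  have hAE : ∀ j, A j ⊆ ef H := fun j => (hzero j).1
  have hne : ∀ j, (A j).Nonempty := fun j => (hzero j).2.1
  have hAd : ∀ j, ∀ e ∈ A j, ¬ e.IsDiag := fun j e he => ef_diag (hAE j he)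
  obtain ⟨C₁, hC₁⟩ : ∃ C₁ : ℝ, C₁ = (max 1 C) ^ (ef H).card := ⟨_, rfl⟩
  have hC₁1 : 1 ≤ C₁ := by rw [hC₁]; exact one_le_pow₀ (le_max_left _ _)
  obtain ⟨δ, L, μ₀, n₀, a, hδ, ha, hcore⟩ := core hk A (ef H) hAE hne hcov hint hdis hε hC₁1
  have hVV : (0 : ℝ) < (Fintype.card V : ℝ) ^ Fintype.card V := by positivity
  refine ⟨δ / (Fintype.card V : ℝ) ^ Fintype.card V, by positivity, ?_⟩
  intro p hp
  have hcast : Tendsto (fun n : ℕ => (n : ℝ)) atTop atTop := tendsto_natCast_atTop_atTop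
  have hexp : 0 < 2 - 1 / m := by
    have : 1 / m < 2 := by
      rw [div_lt_iff₀ hm0]
      linarith
    linarith
  have hμlim : Tendsto (fun n : ℕ => c * (n : ℝ) ^ (2 - 1 / m)) atTop atTop :=
    ((tendsto_rpow_atTop hexp).comp hcast).const_mul_atTop hc
  have hμ : ∀ᶠ n : ℕ in atTop, c * (n : ℝ) ^ (2 - 1 / m) ≤ (p n : ℝ) * (n : ℝ) ^ 2 := by
    filter_upwards [hp, eventually_gt_atTop 0] with n h1 h2
    have hn : (0 : ℝ) < n := by exact_mod_cast h2
    have h3 : (n : ℝ) ^ (2 - 1 / m) = (n : ℝ) ^ (-1 / m) * (n : ℝ) ^ 2 := by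
      have : (2 - 1 / m : ℝ) = -1 / m + (2 : ℕ) := by push_cast; ring
      rw [this, Real.rpow_add hn, Real.rpow_natCast]
    rw [h3, ← mul_assoc]
    exact mul_le_mul_of_nonneg_right h1.1 (by positivity)
  have hH2 : ∀ᶠ n : ℕ in atTop, ∀ J : Finset (Fin k), 2 ≤ J.card →
      L * ((p n : ℝ) * (n : ℝ) ^ 2) ≤
        (n : ℝ) ^ (J.biUnion fun j => vs (A j)).card * (p n : ℝ) ^ (∑ j ∈ J, (A j).card) := by
    rw [eventually_all]
    intro J
    by_cases hJ2 : 2 ≤ J.card
    · have hJe := hJ J hJ2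
      obtain ⟨j₀, hj₀⟩ : J.Nonempty := card_pos.1 (by omega)
      have hb2 : 2 ≤ (J.biUnion fun j => vs (A j)).card :=
        (two_le_vs (hAd j₀) Subset.rfl (hne j₀)).trans
          (card_le_card (subset_biUnion_of_mem (fun j => vs (A j)) hj₀))
      have he1 : 1 ≤ ∑ j ∈ J, (A j).card :=
        (card_pos.2 (hne j₀)).trans_le (single_le_sum (f := fun j => (A j).card)
          (fun _ _ => Nat.zero_le _) hj₀)
      obtain ⟨b', hb'⟩ : ∃ b', (J.biUnion fun j => vs (A j)).card = b' + 2 :=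
        ⟨_, (Nat.sub_add_cancel hb2).symm⟩
      obtain ⟨e', he'⟩ : ∃ e', ∑ j ∈ J, (A j).card = e' + 1 :=
        ⟨_, (Nat.sub_add_cancel he1).symm⟩
      rw [hb', he'] at hJe ⊢
      have hβ : 0 < (b' : ℝ) - e' / m := by
        push_cast at hJe
        have h1 : (e' : ℝ) < m * b' := by linarith
        have h2 : (e' : ℝ) / m < b' := by
          rw [div_lt_iff₀ hm0]
          linarith
        linarith
      have hlim : Tendsto (fun n : ℕ => c ^ e' * (n : ℝ) ^ ((b' : ℝ) - e' / m)) atTop atTop :=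
        ((tendsto_rpow_atTop hβ).comp hcast).const_mul_atTop (by positivity)
      filter_upwards [hp, eventually_gt_atTop 0, hlim.eventually_ge_atTop L] with n h1 h2 h3 _
      have hn : (0 : ℝ) < n := by exact_mod_cast h2
      have h4 := h3.trans (as_ge hm0 hc hn h1.1 b' e')
      have hp0 : (0 : ℝ) ≤ p n := (p n).2.1
      calc L * ((p n : ℝ) * (n : ℝ) ^ 2) ≤
          ((n : ℝ) ^ b' * (p n : ℝ) ^ e') * ((p n : ℝ) * (n : ℝ) ^ 2) :=
            mul_le_mul_of_nonneg_right h4 (by positivity)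
        _ = _ := by ring
    · exact Eventually.of_forall fun n h => absurd h hJ2
  refine tend_good (f := fun n : ℕ => Real.exp (-(a * (c * (n : ℝ) ^ (2 - 1 / m))))) ?_ ?_
  · refine Real.tendsto_exp_atBot.comp ?_
    exact tendsto_neg_atTop_atBot.comp (hμlim.const_mul_atTop ha)
  · filter_upwards [hp, eventually_gt_atTop 0, hμ, hH2, hμlim.eventually_ge_atTop μ₀,
      hcast.eventually_ge_atTop n₀] with n h1 h2 h3 h4 h5 h6
    have hn : (0 : ℝ) < n := by exact_mod_cast h2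
    haveI : Nonempty (Fin n) := ⟨⟨0, h2⟩⟩
    have hp1 : (p n : ℝ) ≤ 1 := (p n).2.2
    have hp0 : (0 : ℝ) < p n := lt_of_lt_of_le (by positivity) h1.1
    have hcoren := hcore (Fin n) (p n : ℝ) hp0 hp1 (by rwa [Fintype.card_fin])
      (by rw [Fintype.card_fin]; exact h5.trans h3) (by
        intro j
        rw [Fintype.card_fin]
        have hv2 := two_le_vs (hAd j) Subset.rfl (hne j)
        have he1 : 1 ≤ (A j).card := card_pos.2 (hne j)
        obtain ⟨v', hv'⟩ : ∃ v', (vs (A j)).card = v' + 2 := ⟨_, (Nat.sub_add_cancel hv2).symm⟩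
        obtain ⟨e', he'⟩ : ∃ e', (A j).card = e' + 1 := ⟨_, (Nat.sub_add_cancel he1).symm⟩
        have hz := (hzero j).2.2
        rw [hv', he'] at hz ⊢
        have hz' : (e' : ℝ) = m * v' := by
          push_cast at hz
          linarith
        have h7 := as_le hm0 hC.le hn hp0.le h1.2 v' e' hz'
        have h8 : C ^ e' ≤ C₁ := by
          rw [hC₁]
          have h9 : e' ≤ (ef H).card := by
            have := card_le_card (hAE j)
            omega
          calc C ^ e' ≤ (max 1 C) ^ e' := pow_le_pow_left₀ hC.le (le_max_right _ _) _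
            _ ≤ (max 1 C) ^ (ef H).card := pow_le_pow_right₀ (le_max_left _ _) h9
        calc (n : ℝ) ^ (v' + 2) * (p n : ℝ) ^ (e' + 1) =
            ((n : ℝ) ^ v' * (p n : ℝ) ^ e') * ((p n : ℝ) * (n : ℝ) ^ 2) := by ring
          _ ≤ C₁ * ((p n : ℝ) * (n : ℝ) ^ 2) :=
              mul_le_mul_of_nonneg_right (h7.trans h8) (by positivity)) (by
        intro J hJ2
        rw [Fintype.card_fin]
        exact h4 J hJ2)
    refine (prob_bound (p n) _ (BadE (ef H) ε δ (p n : ℝ)) ?_).trans ?_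
    · intro G hG
      refine bridge H hV ?_
      rw [Fintype.card_fin]
      exact hG
    · refine ENNReal.ofReal_le_ofReal (hcoren.trans ?_)
      refine Real.exp_le_exp.2 (neg_le_neg ?_)
      rw [Fintype.card_fin]
      exact mul_le_mul_of_nonneg_left h3 ha.le

end Pool.Agent.N437.RL
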