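import Pool.Agent.N437.RL.Fin4
/-!
# All cases together
-/

set_option autoImplicit false
set_option linter.unusedSectionVars false
set_option linter.unusedVariables false

open Finset Filter Topology

namespace Pool.Agent.N437.RL

variable {V : Type} [Fintype V] [DecidableEq V]

theorem all_cases (H : SimpleGraph V) (hE : (ef H).Nonempty) {m : ℝ}
    (hm : ∀ A ⊆ ef H, ∀ S : Finset V, (∀ e ∈ A, ∀ a ∈ e, a ∈ S) → 3 ≤ S.card →
      ((A.card : ℝ) - 1) / ((S.card : ℝ) - 2) ≤ m)
    {ε c C : ℝ} (hε : 0 < ε) (hc : 0 < c) (hC : 0 < C) :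
    ∃ δ : ℝ, 0 < δ ∧ ∀ p : ℕ → unitInterval,
      (m = 0 ∨ ∀ᶠ n : ℕ in atTop, c * (n : ℝ) ^ (-1 / m) ≤ (p n : ℝ) ∧
        (p n : ℝ) ≤ C * (n : ℝ) ^ (-1 / m)) →
      Tendsto (fun n : ℕ => SimpleGraph.binomialRandom (Fin n) (p n)
        {G₀ | RemProp H ε δ (p n) G₀}) atTop (𝓝 1) := by
  classical
  have hV : 0 < Fintype.card V := by
    obtain ⟨e, he⟩ := hE
    induction e with
    | _ a b => exact Fintype.card_pos_iff.2 ⟨a⟩
  -- a deterministic property gives the limit
  have hdet : ∀ (δ : ℝ) (p : ℕ → unitInterval),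
      (∀ᶠ n : ℕ in atTop, ∀ G₀ : SimpleGraph (Fin n), RemProp H ε δ (p n) G₀) →
      Tendsto (fun n : ℕ => SimpleGraph.binomialRandom (Fin n) (p n)
        {G₀ | RemProp H ε δ (p n) G₀}) atTop (𝓝 1) := by
    intro δ p h
    refine tendsto_const_nhds.congr' ?_
    filter_upwards [h] with n hn
    have : {G₀ : SimpleGraph (Fin n) | RemProp H ε δ (p n) G₀} = Set.univ :=
      Set.eq_univ_of_forall hn
    rw [this]
    exact MeasureTheory.measure_univ.symm
  rcases Nat.lt_or_ge (ef H).card 2 with h1 | h2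
  · have hE1 : (ef H).card = 1 := by have := card_pos.2 hE; omega
    obtain ⟨δ, hδ, h⟩ := case1 H hE1 hε
    refine ⟨δ, hδ, fun p _ => hdet δ p ?_⟩
    filter_upwards [eventually_ge_atTop (2 * Fintype.card V), eventually_gt_atTop 0] with n h3 h4
    exact h n h3 h4 _ (p n).2.1
  · -- two edges
    have hm2 : 1 / 2 ≤ m := by
      obtain ⟨e₁, he₁, e₂, he₂, hne⟩ := one_lt_card.1 h2
      have hsub : ({e₁, e₂} : Finset (Sym2 V)) ⊆ ef H := by
        intro e he
        rcases mem_insert.1 he with rfl | he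
        · exact he₁
        · rw [mem_singleton.1 he]; exact he₂
      have hc2 : ({e₁, e₂} : Finset (Sym2 V)).card = 2 := card_pair hne
      have h3 : 3 ≤ (vs ({e₁, e₂} : Finset (Sym2 V))).card :=
        two_edges (ef_diag he₁) (ef_diag he₂) hne
          (fun a ha => mem_vs.2 ⟨e₁, mem_insert_self _ _, ha⟩)
          (fun a ha => mem_vs.2 ⟨e₂, mem_insert_of_mem (mem_singleton_self _), ha⟩)
      have h4 : (vs ({e₁, e₂} : Finset (Sym2 V))).card ≤ 4 := by
        have := card_vs_le ({e₁, e₂} : Finset (Sym2 V))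
        rw [hc2] at this
        exact this
      have h5 := hm {e₁, e₂} hsub (vs {e₁, e₂}) (fun e he a ha => mem_vs.2 ⟨e, he, ha⟩) h3
      refine le_trans ?_ h5
      rw [hc2]
      have h3' : (3 : ℝ) ≤ (vs ({e₁, e₂} : Finset (Sym2 V))).card := by exact_mod_cast h3
      have h4' : ((vs ({e₁, e₂} : Finset (Sym2 V))).card : ℝ) ≤ 4 := by exact_mod_cast h4
      rw [div_le_div_iff₀ (by norm_num) (by linarith)]
      push_cast
      linarith
    have hm0 : m ≠ 0 := by
      intro h
      rw [h] at hm2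
      norm_num at hm2
    rcases lt_or_eq_of_le hm2 with hlt | heq
    · have hd : Dens (ef H) m := by
        intro A hA S hS hS2
        rcases Nat.lt_or_ge S.card 3 with h3 | h3
        · have hS' : S.card = 2 := by omega
          have hA1 : A.card ≤ 1 := by
            by_contra hcon
            push Not at hcon
            obtain ⟨e₁, he₁, e₂, he₂, hne⟩ := one_lt_card.1 hcon
            have := two_edges (ef_diag (hA he₁)) (ef_diag (hA he₂)) hne (hS e₁ he₁) (hS e₂ he₂)
            omega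
          have hA1' : (A.card : ℝ) ≤ 1 := by exact_mod_cast hA1
          rw [hS']
          push_cast
          linarith
        · have h4 := hm A hA S hS h3
          have h3' : (3 : ℝ) ≤ S.card := by exact_mod_cast h3
          rw [div_le_iff₀ (by linarith)] at h4
          exact h4
      obtain ⟨δ, hδ, h⟩ := case2 H hE hlt hd hε hc hC
      exact ⟨δ, hδ, fun p hp => h p (hp.resolve_left hm0)⟩
    · obtain ⟨δ, hδ, h⟩ := case3 H hV hε hC
      refine ⟨δ, hδ, fun p hp => hdet δ p ?_⟩
      filter_upwards [eventually_ge_atTop (2 * Fintype.card V), eventually_gt_atTop 0,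
        hp.resolve_left hm0] with n h3 h4 h5
      refine h n h3 h4 _ (p n).2.1 ?_
      have hn : (0 : ℝ) < n := by exact_mod_cast h4
      have h6 := h5.2
      rw [← heq] at h6
      have h7 : (n : ℝ) ^ (-1 / (1 / 2 : ℝ)) = ((n : ℝ) ^ 2)⁻¹ := by
        rw [← Real.rpow_natCast (n : ℝ) 2, ← Real.rpow_neg hn.le]
        norm_num
      rw [h7] at h6
      calc (p n : ℝ) * (n : ℝ) ^ 2 ≤ (C * ((n : ℝ) ^ 2)⁻¹) * (n : ℝ) ^ 2 :=
            mul_le_mul_of_nonneg_right h6 (by positivity)
        _ = C := by field_simp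

end Pool.Agent.N437.RL
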