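import Pool.Agent.N437.RL.Cond
/-!
# Weak and strong regularity for families of functions on powers of a finite set
-/

set_option autoImplicit false

open Finset

namespace Pool.Agent.N437.RL

variable {k : ℕ} {I : Fin k → Type} [∀ j, Fintype (I j)] [∀ j, DecidableEq (I j)]

/-- the coloring of maps induced by a coloring of the points -/
def pc {X P J : Type} (c : X → P) (y : J → X) : J → P := fun a => c (y a)

theorem pc_ref {X P P' J : Type} {c : X → P} {c' : X → P'} (h : Ref c' c) :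
    Ref (pc (J := J) c') (pc c) := by
  intro y y' hy
  funext a
  exact h _ _ (congrFun hy a)

/-- the energy of a coloring -/
noncomputable def En {X P : Type} [Fintype X] [DecidableEq X] [DecidableEq P]
    (f : ∀ j, (I j → X) → ℝ) (c : X → P) : ℝ :=
  ∑ j, (∑ y : I j → X, cE (pc c) (f j) y ^ 2) / (Fintype.card X : ℝ) ^ Fintype.card (I j)

theorem cardX_pos {X : Type} [Fintype X] [Nonempty X] (m : ℕ) : (0 : ℝ) < (Fintype.card X : ℝ) ^ m := by
  have : 0 < Fintype.card X := Fintype.card_pos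
  positivity

theorem En_le {X P : Type} [Fintype X] [DecidableEq X] [Nonempty X] [DecidableEq P]
    {f : ∀ j, (I j → X) → ℝ} (hf : ∀ j y, 0 ≤ f j y ∧ f j y ≤ 1) (c : X → P) : En f c ≤ k := by
  unfold En
  have : ∀ j ∈ (univ : Finset (Fin k)), (∑ y : I j → X, cE (pc c) (f j) y ^ 2) /
      (Fintype.card X : ℝ) ^ Fintype.card (I j) ≤ 1 := by
    intro j _
    rw [div_le_one (cardX_pos _)]
    have h : ∀ y ∈ (univ : Finset (I j → X)), cE (pc c) (f j) y ^ 2 ≤ 1 := by
      intro y _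
      have h1 := cE_nonneg (π := pc c) (fun y => (hf j y).1) y
      have h2 := cE_le_one (π := pc c) (fun y => (hf j y).2) y
      exact pow_le_one₀ h1 h2
    refine (sum_le_sum h).trans ?_
    simp
  refine (sum_le_sum this).trans ?_
  simp

theorem En_mono_term {X P P' : Type} [Fintype X] [DecidableEq X] [Nonempty X] [DecidableEq P]
    [DecidableEq P'] {J : Type} [Fintype J] [DecidableEq J] (f : (J → X) → ℝ) {c : X → P}
    {c' : X → P'} (h : Ref c' c) :
    (∑ y : J → X, cE (pc c) f y ^ 2) / (Fintype.card X : ℝ) ^ Fintype.card J ≤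
      (∑ y : J → X, cE (pc c') f y ^ 2) / (Fintype.card X : ℝ) ^ Fintype.card J := by
  refine div_le_div_of_nonneg_right ?_ (cardX_pos _).le
  have h1 := pyth (pc_ref (J := J) h) f
  have h2 : 0 ≤ ∑ y, (cE (pc c') f y - cE (pc c) f y) ^ 2 := sum_nonneg fun _ _ => sq_nonneg _
  linarith

/-- a coloring which is not cut uniform has a refinement of larger energy -/
theorem refine_step {X P : Type} [Fintype X] [DecidableEq X] [Nonempty X] [Fintype P]
    [DecidableEq P] {f : ∀ j, (I j → X) → ℝ} {c : X → P} {κ : ℝ} (hκ : 0 < κ) {j : Fin k}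
    (hj : ¬ Cut (fun y => f j y - cE (pc c) (f j) y) κ) :
    ∃ c' : X → P × (I j → Bool), Ref c' c ∧ En f c + κ ^ 2 ≤ En f c' := by
  classical
  unfold Cut at hj
  push Not at hj
  obtain ⟨A, hA⟩ := hj
  set c' : X → P × (I j → Bool) := fun x => (c x, fun a => decide (x ∈ A a)) with hc'
  have href : Ref c' c := fun x x' h => (Prod.ext_iff.1 h).1
  refine ⟨c', href, ?_⟩
  set T : (I j → X) → ℝ := fun y => ∏ a, (if y a ∈ A a then (1 : ℝ) else 0) with hT
  have hTm : ∀ y y' : I j → X, pc c' y = pc c' y' → T y = T y' := by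
    intro y y' h
    simp only [hT]
    refine prod_congr rfl fun a _ => ?_
    have h1 := congrFun (Prod.ext_iff.1 (congrFun h a)).2 a
    have h2 : (y a ∈ A a) ↔ (y' a ∈ A a) := by
      have : decide (y a ∈ A a) = decide (y' a ∈ A a) := h1
      exact decide_eq_decide.1 this
    simp only [h2]
  have h1 : ∑ y, (f j y - cE (pc c) (f j) y) * T y =
      ∑ y, (cE (pc c') (f j) y - cE (pc c) (f j) y) * T y := by
    simp only [sub_mul, sum_sub_distrib]
    rw [sum_cE_mul (pc c') (f j) T hTm]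
  have h2 : (∑ y, (cE (pc c') (f j) y - cE (pc c) (f j) y) * T y) ^ 2 ≤
      (∑ y, (cE (pc c') (f j) y - cE (pc c) (f j) y) ^ 2) * ∑ y, T y ^ 2 :=
    sum_mul_sq_le_sq_mul_sq _ _ _
  have h3 : ∑ y : I j → X, T y ^ 2 ≤ (Fintype.card X : ℝ) ^ Fintype.card (I j) := by
    have : ∀ y ∈ (univ : Finset (I j → X)), T y ^ 2 ≤ 1 := by
      intro y _
      have h4 : 0 ≤ T y := prod_nonneg fun a _ => by split_ifs <;> norm_num
      have h5 : T y ≤ 1 := prod_le_one (fun a _ => by split_ifs <;> norm_num)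
        (fun a _ => by split_ifs <;> norm_num)
      exact pow_le_one₀ h4 h5
    refine (sum_le_sum this).trans ?_
    simp
  have hN := cardX_pos (X := X) (Fintype.card (I j))
  have h4 : (κ * (Fintype.card X : ℝ) ^ Fintype.card (I j)) ^ 2 ≤
      (∑ y, (cE (pc c') (f j) y - cE (pc c) (f j) y) ^ 2) *
        (Fintype.card X : ℝ) ^ Fintype.card (I j) := by
    have h5 : (κ * (Fintype.card X : ℝ) ^ Fintype.card (I j)) ^ 2 ≤
        (∑ y, (f j y - cE (pc c) (f j) y) * T y) ^ 2 := by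
      rw [← sq_abs (∑ y, (f j y - cE (pc c) (f j) y) * T y)]
      exact pow_le_pow_left₀ (by positivity) hA.le 2
    rw [h1] at h5
    refine h5.trans (h2.trans (mul_le_mul_of_nonneg_left h3 (sum_nonneg fun _ _ => sq_nonneg _)))
  have h5 : κ ^ 2 ≤ (∑ y, (cE (pc c') (f j) y - cE (pc c) (f j) y) ^ 2) /
      (Fintype.card X : ℝ) ^ Fintype.card (I j) := by
    rw [le_div_iff₀ hN]
    have h6 : (κ ^ 2 * (Fintype.card X : ℝ) ^ Fintype.card (I j)) *
        (Fintype.card X : ℝ) ^ Fintype.card (I j) ≤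
        (∑ y, (cE (pc c') (f j) y - cE (pc c) (f j) y) ^ 2) *
        (Fintype.card X : ℝ) ^ Fintype.card (I j) := by
      refine le_trans (le_of_eq ?_) h4
      ring
    exact le_of_mul_le_mul_right h6 hN
  rw [pyth (pc_ref href) (f j), sub_div] at h5
  unfold En
  rw [← add_sum_erase univ _ (mem_univ j), ← add_sum_erase univ
    (fun j => (∑ y : I j → X, cE (pc c') (f j) y ^ 2) / (Fintype.card X : ℝ) ^ Fintype.card (I j))
    (mem_univ j)]
  have h7 := sum_le_sum (s := univ.erase j) fun i _ => En_mono_term (f i) href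
  linarith

theorem fk (I : Fin k → Type) [∀ j, Fintype (I j)] [∀ j, DecidableEq (I j)] {κ : ℝ} (hκ : 0 < κ) :
    ∀ i M : ℕ, ∃ M' : ℕ, ∀ (X : Type) [Fintype X] [DecidableEq X] [Nonempty X]
      (f : ∀ j, (I j → X) → ℝ), (∀ j y, 0 ≤ f j y ∧ f j y ≤ 1) →
      ∀ (P : Type) [Fintype P] [DecidableEq P] (c : X → P), Fintype.card P ≤ M →
        (k : ℝ) - i * κ ^ 2 ≤ En f c →
        ∃ (P' : Type) (_ : Fintype P') (_ : DecidableEq P') (c' : X → P'),
          Fintype.card P' ≤ M' ∧ Ref c' c ∧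
            ∀ j, Cut (fun y => f j y - cE (pc c') (f j) y) κ := by
  classical
  intro i
  induction i with
  | zero =>
    intro M
    refine ⟨M, fun X _ _ _ f hf P _ _ c hP hE => ?_⟩
    refine ⟨P, inferInstance, inferInstance, c, hP, fun _ _ h => h, ?_⟩
    by_contra hcon
    push Not at hcon
    obtain ⟨j, hj⟩ := hcon
    obtain ⟨c', _, h2⟩ := refine_step hκ hj
    have h3 := En_le hf c'
    have h4 : 0 < κ ^ 2 := by positivity
    simp only [Nat.cast_zero, zero_mul, sub_zero] at hE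
    linarith
  | succ i ih =>
    intro M
    choose M' hM' using fun j => ih (M * 2 ^ Fintype.card (I j))
    refine ⟨M + ∑ j, M' j, fun X _ _ _ f hf P _ _ c hP hE => ?_⟩
    by_cases hcon : ∀ j, Cut (fun y => f j y - cE (pc c) (f j) y) κ
    · exact ⟨P, inferInstance, inferInstance, c, by omega, fun _ _ h => h, hcon⟩
    · push Not at hcon
      obtain ⟨j, hj⟩ := hcon
      obtain ⟨c₁, h1, h2⟩ := refine_step hκ hj
      have hcard : Fintype.card (P × (I j → Bool)) ≤ M * 2 ^ Fintype.card (I j) := by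
        rw [Fintype.card_prod, Fintype.card_fun, Fintype.card_bool]
        exact Nat.mul_le_mul_right _ hP
      obtain ⟨P', i1, i2, c', h3, h4, h5⟩ := hM' j X f hf _ c₁ hcard (by
        push_cast at hE
        linarith)
      refine ⟨P', i1, i2, c', ?_, fun x x' h => h1 _ _ (h4 _ _ h), h5⟩
      have h6 : M' j ≤ ∑ j, M' j := single_le_sum (f := M') (fun _ _ => Nat.zero_le _) (mem_univ j)
      omega

/-- strong regularity -/
theorem strong (I : Fin k → Type) [∀ j, Fintype (I j)] [∀ j, DecidableEq (I j)] (F : ℕ → ℝ)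
    (hF : ∀ M, 0 < F M) {ζ : ℝ} (hζ : 0 < ζ) :
    ∀ i M : ℕ, ∃ M' : ℕ, ∀ (X : Type) [Fintype X] [DecidableEq X] [Nonempty X]
      (f : ∀ j, (I j → X) → ℝ), (∀ j y, 0 ≤ f j y ∧ f j y ≤ 1) →
      ∀ (P : Type) [Fintype P] [DecidableEq P] (c : X → P), Fintype.card P ≤ M →
        (k : ℝ) - i * ζ ≤ En f c →
        ∃ (M₁ : ℕ) (P₁ : Type) (_ : Fintype P₁) (_ : DecidableEq P₁) (c₁ : X → P₁)
          (P₂ : Type) (_ : Fintype P₂) (_ : DecidableEq P₂) (c₂ : X → P₂),
          M₁ ≤ M' ∧ Fintype.card P₁ ≤ M₁ ∧ Ref c₂ c₁ ∧ En f c₂ ≤ En f c₁ + ζ ∧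
            ∀ j, Cut (fun y => f j y - cE (pc c₂) (f j) y) (F M₁) := by
  classical
  intro i
  induction i with
  | zero =>
    intro M
    refine ⟨M, fun X _ _ _ f hf P _ _ c hP hE => ?_⟩
    obtain ⟨i₀, hi₀⟩ := exists_nat_ge ((k : ℝ) / F M ^ 2)
    obtain ⟨M'', hM''⟩ := fk I (hF M) i₀ M
    have hF2 : 0 < F M ^ 2 := by have := hF M; positivity
    obtain ⟨P', i1, i2, c', _, h4, h5⟩ := hM'' X f hf P c hP (by
      rw [div_le_iff₀ hF2] at hi₀
      have : 0 ≤ En f c := sum_nonneg fun j _ => div_nonneg (sum_nonneg fun _ _ => sq_nonneg _)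
        (cardX_pos _).le
      linarith)
    refine ⟨M, P, inferInstance, inferInstance, c, P', i1, i2, c', le_rfl, hP, h4, ?_, h5⟩
    have := En_le hf c'
    simp only [Nat.cast_zero, zero_mul, sub_zero] at hE
    linarith
  | succ i ih =>
    intro M
    obtain ⟨i₀, hi₀⟩ := exists_nat_ge ((k : ℝ) / F M ^ 2)
    obtain ⟨M'', hM''⟩ := fk I (hF M) i₀ M
    obtain ⟨M₃, hM₃⟩ := ih M''
    have hF2 : 0 < F M ^ 2 := by have := hF M; positivity
    refine ⟨max M M₃, fun X _ _ _ f hf P _ _ c hP hE => ?_⟩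
    obtain ⟨P', i1, i2, c', h3, h4, h5⟩ := hM'' X f hf P c hP (by
      rw [div_le_iff₀ hF2] at hi₀
      have : 0 ≤ En f c := sum_nonneg fun j _ => div_nonneg (sum_nonneg fun _ _ => sq_nonneg _)
        (cardX_pos _).le
      linarith)
    by_cases hcase : En f c' ≤ En f c + ζ
    · exact ⟨M, P, inferInstance, inferInstance, c, P', i1, i2, c', le_max_left _ _, hP, h4, hcase,
        h5⟩
    · push Not at hcase
      obtain ⟨M₁, P₁, j1, j2, c₁, P₂, j3, j4, c₂, h6, h7, h8, h9, h10⟩ :=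
        hM₃ X f hf P' c' h3 (by push_cast at hE; linarith)
      exact ⟨M₁, P₁, j1, j2, c₁, P₂, j3, j4, c₂, h6.trans (le_max_right _ _), h7, h8, h9, h10⟩

end Pool.Agent.N437.RL
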