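import Pool.Agent.N437.RL.StepAll
/-!
# Containers
-/

set_option autoImplicit false
set_option linter.unusedSectionVars false
set_option linter.unusedVariables false

open Finset

namespace Pool.Agent.N437.RL

section

variable {ι : Type} [Fintype ι] [DecidableEq ι] {X : ι → Type} [∀ i, Fintype (X i)]
  [∀ i, DecidableEq (X i)]

/-- the weight restricted to a container -/
def wC (w : (∀ i, X i) → ℝ) (C : ∀ i, Finset (X i)) (y : ∀ i, X i) : ℝ :=
  if (∀ i, y i ∈ C i) then w y else 0

/-- the labelled fingerprint -/
def lab (T : ℕ → ∀ i, Finset (X i)) (r : ℕ) : Finset (ℕ × Σ i, X i) :=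
  (range r).biUnion fun q => (univ.sigma (T q)).image (Prod.mk q)

theorem mem_lab {T : ℕ → ∀ i, Finset (X i)} {r : ℕ} {x : ℕ × Σ i, X i} :
    x ∈ lab T r ↔ x.1 < r ∧ x.2.2 ∈ T x.1 x.2.1 := by
  obtain ⟨q, i, u⟩ := x
  unfold lab
  simp only [mem_biUnion, mem_range, mem_image, mem_sigma, mem_univ, true_and, Prod.mk.injEq,
    Sigma.exists]
  constructor
  · rintro ⟨q', h1, i', u', h2, rfl, h3⟩
    cases h3
    exact ⟨h1, h2⟩
  · rintro ⟨h1, h2⟩
    exact ⟨q, h1, i, u, h2, rfl, rfl⟩

/-- the containers -/
def Cn (ZF : (∀ i, Finset (X i)) → (∀ i, Finset (X i)) → ∀ i, Finset (X i)) :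
    ℕ → (ℕ → ∀ i, Finset (X i)) → ∀ i, Finset (X i)
  | 0, _ => fun _ => univ
  | r + 1, T => fun i => Cn ZF r T i \ ZF (Cn ZF r T) (T r) i

theorem Cn_congr (ZF : (∀ i, Finset (X i)) → (∀ i, Finset (X i)) → ∀ i, Finset (X i)) :
    ∀ (r : ℕ) (T T' : ℕ → ∀ i, Finset (X i)), (∀ q < r, T q = T' q) → Cn ZF r T = Cn ZF r T'
  | 0, _, _, _ => rfl
  | r + 1, T, T', h => by
    have h1 := Cn_congr ZF r T T' fun q hq => h q (by omega)
    unfold Cn
    rw [h1, h r (by omega)]

end

theorem containers {ι : Type} [Fintype ι] [DecidableEq ι] [Nonempty ι] {γ : ℝ} (hγ : 0 < γ) :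
    ∃ (s : ℕ) (c : ℝ), 0 < c ∧
    ∀ (X : ι → Type) [∀ i, Fintype (X i)] [∀ i, DecidableEq (X i)] [Nonempty (∀ i, X i)]
      (N : ι → ℝ) (t : ℕ) (W : ℝ) (w : (∀ i, X i) → ℝ),
      (∀ i, 0 < N i) → (∀ i, (Fintype.card (X i) : ℝ) ≤ N i) → 0 < t → 0 < W →
      Bdd N t W w ∅ 1 →
      ∃ 𝒞 : (ℕ → ∀ i, Finset (X i)) → ∀ i, Finset (X i),
        (∀ T T', (∀ q < s, T q = T' q) → 𝒞 T = 𝒞 T') ∧
        ∀ Good : Finset (ℕ × Σ i, X i) → Prop, (∀ Q Q', Q ⊆ Q' → Good Q' → Good Q) → Good ∅ →
          ∃ T : ℕ → ∀ i, Finset (X i), (∀ r i, (T r i).card ≤ t) ∧ Good (lab T s) ∧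
            ∑ y, wC w (𝒞 T) y < γ * W ∧
            ∀ i, ∀ u, u ∉ 𝒞 T i → ∃ r < s,
              ((r, (⟨i, u⟩ : Σ i, X i)) ∉ lab T s → ¬ Good (insert (r, ⟨i, u⟩) (lab T s))) ∨
              c * (W * ∏ j ∈ univ.erase i, (t / N j)) / N i ≤
                ∑ y : ∀ i, X i, if (y i = u ∧ ∀ j ∈ univ.erase i, y j ∈ T r j) then w y else 0 := by
  classical
  obtain ⟨n, hn⟩ : ∃ n, (univ : Finset ι).card = n + 1 :=
    ⟨(univ : Finset ι).card - 1, by have := card_pos.2 (univ_nonempty (α := ι)); omega⟩
  obtain ⟨c, hc, hstep⟩ := step_all n (univ : Finset ι) hn γ 1 hγ one_pos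
  obtain ⟨s, hs⟩ := exists_nat_gt ((Fintype.card ι : ℝ) / c)
  refine ⟨s, c, hc, ?_⟩
  intro X _ _ _ N t W w hN hX ht hW hb
  have ht' : (0 : ℝ) < t := by exact_mod_cast ht
  have hwC : ∀ C : ∀ i, Finset (X i), Bdd N t W (wC w C) (univ \ univ) 1 := by
    intro C
    rw [sdiff_self]
    have hle : ∀ y, wC w C y ≤ w y := by
      intro y
      unfold wC
      split_ifs
      · exact le_rfl
      · exact hb.nonneg y
    refine ⟨fun y => ?_, fun J hJ hJd x => (deg_mono hle J x).trans (hb.deg J hJ hJd x)⟩
    unfold wC
    split_ifs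
    · exact hb.nonneg y
    · exact le_rfl
  have hZ : ∀ C : ∀ i, Finset (X i), γ * (W * ∏ j ∈ univ \ univ, (t / N j)) ≤ ∑ y, wC w C y → _ :=
    fun C h => hstep X N t W (wC w C) hN hX ht hW (hwC C) h
  choose 𝒵 h𝒵 using hZ
  set ZF : (∀ i, Finset (X i)) → (∀ i, Finset (X i)) → ∀ i, Finset (X i) := fun C =>
    if h : γ * (W * ∏ j ∈ univ \ univ, (t / N j)) ≤ ∑ y, wC w C y then 𝒵 C h else fun _ _ => ∅
    with hZF
  refine ⟨Cn ZF s, fun T T' h => Cn_congr ZF s T T' h, ?_⟩
  intro Good hmono hG0
  have hprod1 : W * ∏ j ∈ (univ : Finset ι) \ univ, ((t : ℝ) / N j) = W := by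
    rw [sdiff_self]
    simp
  have key : ∀ r : ℕ, ∃ T : ℕ → ∀ i, Finset (X i), (∀ q i, (T q i).card ≤ t) ∧
      Good (lab T r) ∧
      (∑ y, wC w (Cn ZF r T) y < γ * W ∨
        ∑ i, ((Cn ZF r T i).card : ℝ) / N i ≤ Fintype.card ι - r * c) ∧
      ∀ i, ∀ u, u ∉ Cn ZF r T i → ∃ q < r,
        ((q, (⟨i, u⟩ : Σ i, X i)) ∉ lab T r → ¬ Good (insert (q, ⟨i, u⟩) (lab T r))) ∨
        c * (W * ∏ j ∈ univ.erase i, (t / N j)) / N i ≤
          ∑ y : ∀ i, X i, if (y i = u ∧ ∀ j ∈ univ.erase i, y j ∈ T q j) then w y else 0 := by
    intro r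
    induction r with
    | zero =>
      refine ⟨fun _ _ => ∅, by simp, ?_, Or.inr ?_, ?_⟩
      · have : lab (fun (_ : ℕ) (i : ι) => (∅ : Finset (X i))) 0 = ∅ := by simp [lab]
        rw [this]
        exact hG0
      · unfold Cn
        have : ∀ i ∈ (univ : Finset ι), ((univ : Finset (X i)).card : ℝ) / N i ≤ 1 := by
          intro i _
          rw [div_le_one (hN i)]
          exact hX i
        refine (sum_le_sum this).trans ?_
        simp
      · intro i u hu
        unfold Cn at hu
        exact absurd (mem_univ u) hu
    | succ r ih =>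
      obtain ⟨T, h1, h2, h3, h4⟩ := ih
      set C := Cn ZF r T with hC
      by_cases htot : γ * (W * ∏ j ∈ univ \ univ, (t / N j)) ≤ ∑ y, wC w C y
      · -- a real step
        obtain ⟨hz1, hz2⟩ := h𝒵 C htot
        have hempty : lab T r ∪ (univ.sigma fun i => (∅ : Finset (X i))).image (Prod.mk r) =
            lab T r := by
          have he : (univ.sigma fun i => (∅ : Finset (X i))) = ∅ := by
            ext x
            simp
          rw [he, image_empty, union_empty]
        obtain ⟨Tn, a1, a2, a3, ⟨i₀, _, a4⟩, a5⟩ := hz2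
          (fun Q => Good (lab T r ∪ Q.image (Prod.mk r))) (fun _ => ∅) (fun _ _ => rfl)
          (by rw [hempty]; exact h2)
        set T' := Function.update T r Tn with hT'
        have hT'r : T' r = Tn := by simp [hT']
        have hT'q : ∀ q < r, T' q = T q := fun q hq => by
          rw [hT', Function.update_of_ne (by omega)]
        have hCn : Cn ZF r T' = C := by
          rw [hC]
          exact Cn_congr ZF r T' T hT'q
        have hlab : lab T' (r + 1) = lab T r ∪ (univ.sigma Tn).image (Prod.mk r) := by
          ext ⟨q, i, u⟩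
          rw [mem_union, mem_lab, mem_lab]
          simp only [mem_image, mem_sigma, mem_univ, true_and, Prod.mk.injEq, Sigma.exists]
          constructor
          · rintro ⟨h5, h6⟩
            by_cases hq : q = r
            · subst hq
              rw [hT'r] at h6
              exact Or.inr ⟨i, u, h6, rfl, rfl⟩
            · left
              refine ⟨by omega, ?_⟩
              rwa [hT'q q (by omega)] at h6
          · rintro (⟨h5, h6⟩ | ⟨i', u', h5, rfl, h6⟩)
            · refine ⟨by omega, ?_⟩
              rw [hT'q q h5]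
              exact h6
            · cases h6
              refine ⟨by omega, ?_⟩
              rw [hT'r]
              exact h5
        have hZFC : ZF C = 𝒵 C htot := by
          simp only [hZF]
          rw [dif_pos htot]
        have hCs : ∀ i, Cn ZF (r + 1) T' i = C i \ 𝒵 C htot Tn i := by
          intro i
          change Cn ZF r T' i \ ZF (Cn ZF r T') (T' r) i = _
          rw [hCn, hT'r, hZFC]
        have hsub : ∀ i, 𝒵 C htot Tn i ⊆ C i := by
          intro i u hu
          obtain ⟨y, hy1, hy2⟩ := hz1 Tn i u hu
          unfold wC at hy2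
          split_ifs at hy2 with h
          · rw [← hy1]
            exact h i
          · exact absurd hy2 (lt_irrefl _)
        refine ⟨T', ?_, ?_, ?_, ?_⟩
        · intro q i
          by_cases hq : q = r
          · subst hq
            rw [hT'r]
            exact a2 i (mem_univ i)
          · rw [hT', Function.update_of_ne hq]
            exact h1 q i
        · rw [hlab]
          exact a3
        · rcases h3 with h3 | h3
          · rw [hprod1] at htot
            exact absurd h3 (not_lt.2 htot)
          · right
            have h5 : ∀ i, ((Cn ZF (r + 1) T' i).card : ℝ) / N i =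
                ((C i).card : ℝ) / N i - ((𝒵 C htot Tn i).card : ℝ) / N i := by
              intro i
              rw [hCs, card_sdiff_of_subset (hsub i), Nat.cast_sub (card_le_card (hsub i)), sub_div]
            rw [sum_congr rfl fun i _ => h5 i, sum_sub_distrib]
            have h6 : c ≤ ∑ i, ((𝒵 C htot Tn i).card : ℝ) / N i := by
              have h7 : ((𝒵 C htot Tn i₀).card : ℝ) / N i₀ ≤
                  ∑ i, ((𝒵 C htot Tn i).card : ℝ) / N i :=
                single_le_sum (f := fun i => ((𝒵 C htot Tn i).card : ℝ) / N i)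
                  (fun i _ => div_nonneg (Nat.cast_nonneg _) (hN i).le) (mem_univ i₀)
              refine le_trans ?_ h7
              rw [le_div_iff₀ (hN i₀)]
              exact a4
            push_cast
            linarith
        · intro i u hu
          rw [hCs] at hu
          by_cases huC : u ∈ C i
          · have huZ : u ∈ 𝒵 C htot Tn i := by
              by_contra h
              exact hu (mem_sdiff.2 ⟨huC, h⟩)
            refine ⟨r, by omega, ?_⟩
            rcases a5 i u huZ with h5 | h5
            · left
              intro h6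
              rw [hlab]
              have h7 : (⟨i, u⟩ : Σ i, X i) ∉ univ.sigma Tn := by
                intro h8
                refine h6 ?_
                rw [hlab]
                exact mem_union_right _ (mem_image_of_mem _ h8)
              have h8 := h5 h7
              rw [image_insert, union_insert] at h8
              exact h8
            · right
              rw [hT'r]
              refine h5.trans (sum_le_sum fun y _ => ?_)
              by_cases hy : y i = u ∧ ∀ j ∈ univ.erase i, y j ∈ Tn j
              · rw [if_pos hy, if_pos hy]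
                unfold wC
                split_ifs
                · exact le_rfl
                · exact hb.nonneg y
              · rw [if_neg hy, if_neg hy]
          · obtain ⟨q, hq, h5⟩ := h4 i u huC
            refine ⟨q, by omega, ?_⟩
            rw [hT'q q hq]
            rcases h5 with h5 | h5
            · left
              intro h6 h7
              have hsubl : lab T r ⊆ lab T' (r + 1) := by
                rw [hlab]
                exact subset_union_left
              refine h5 (fun h8 => h6 (hsubl h8)) (hmono _ _ ?_ h7)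
              exact insert_subset_insert _ hsubl
            · exact Or.inr h5
      · -- nothing happens
        set T' := Function.update T r (fun _ => ∅) with hT'
        have hT'r : T' r = fun _ => ∅ := by simp [hT']
        have hT'q : ∀ q < r, T' q = T q := fun q hq => by
          rw [hT', Function.update_of_ne (by omega)]
        have hCn : Cn ZF r T' = C := by
          rw [hC]
          exact Cn_congr ZF r T' T hT'q
        have hlab : lab T' (r + 1) = lab T r := by
          ext ⟨q, i, u⟩
          rw [mem_lab, mem_lab]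
          constructor
          · rintro ⟨h5, h6⟩
            by_cases hq : q = r
            · subst hq
              simp only [hT'r] at h6
              exact absurd h6 (notMem_empty _)
            · simp only at h5 h6 ⊢
              refine ⟨by omega, ?_⟩
              rwa [hT'q q (by omega)] at h6
          · rintro ⟨h5, h6⟩
            simp only at h5 h6 ⊢
            refine ⟨by omega, ?_⟩
            rwa [hT'q q h5]
        have hCs : Cn ZF (r + 1) T' = C := by
          funext i
          change Cn ZF r T' i \ ZF (Cn ZF r T') (T' r) i = _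
          rw [hCn]
          simp only [hZF]
          rw [dif_neg htot]
          simp
        have htot' : ∑ y, wC w C y < γ * W := by
          rw [hprod1] at htot
          exact not_le.1 htot
        refine ⟨T', ?_, by rw [hlab]; exact h2, Or.inl (by rw [hCs]; exact htot'), ?_⟩
        · intro q i
          by_cases hq : q = r
          · subst hq
            rw [hT'r]
            simp
          · rw [hT', Function.update_of_ne hq]
            exact h1 q i
        · intro i u hu
          rw [hCs] at hu
          obtain ⟨q, hq, h5⟩ := h4 i u hu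
          refine ⟨q, by omega, ?_⟩
          rw [hT'q q hq, hlab]
          exact h5
  obtain ⟨T, h1, h2, h3, h4⟩ := key s
  refine ⟨T, h1, h2, ?_, h4⟩
  rcases h3 with h3 | h3
  · exact h3
  · exfalso
    have h5 : 0 ≤ ∑ i, ((Cn ZF s T i).card : ℝ) / N i :=
      sum_nonneg fun i _ => div_nonneg (Nat.cast_nonneg _) (hN i).le
    rw [div_lt_iff₀ hc] at hs
    linarith

end Pool.Agent.N437.RL
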