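import Pool.Agent.N437.RL.Removal
import Pool.Agent.N437.RL.Iter
import Pool.Agent.N437.RL.Blob
/-!
# The hypergraph of embeddings
-/

set_option autoImplicit false
set_option linter.unusedSectionVars false
set_option linter.unusedVariables false

open Finset

namespace Pool.Agent.N437.RL

variable {V : Type} [Fintype V] [DecidableEq V] {Y : Type} [Fintype Y] [DecidableEq Y] [Nonempty Y]

/-- extension of a partial map -/
noncomputable def ext (S : Finset V) (u : S → Y) : V → Y :=
  fun a => if h : a ∈ S then u ⟨a, h⟩ else Classical.arbitrary Y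

theorem ext_mem (S : Finset V) (u : S → Y) {a : V} (h : a ∈ S) : ext S u a = u ⟨a, h⟩ := by
  simp [ext, h]

theorem ext_res (S : Finset V) (φ : V → Y) {a : V} (h : a ∈ S) : ext S (res S φ) a = φ a := by
  simp [ext, h, res]

/-- the edges of an embedded part -/
noncomputable def Eb (A : Finset (Sym2 V)) (S : Finset V) (u : S → Y) : Finset (Sym2 Y) :=
  A.image (Sym2.map (ext S u))

theorem Eb_res {A : Finset (Sym2 V)} {S : Finset V} (h : vs A ⊆ S) (φ : V → Y) :
    Eb A S (res S φ) = A.image (Sym2.map φ) := by
  unfold Eb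
  refine image_congr fun e he => ?_
  refine Sym2.map_congr fun a ha => ?_
  exact ext_res S φ (h (mem_vs.2 ⟨e, he, ha⟩))

theorem Eb_card {A : Finset (Sym2 V)} {S : Finset V} (h : vs A ⊆ S) {u : S → Y}
    (hu : Function.Injective u) : (Eb A S u).card = A.card := by
  unfold Eb
  refine card_image_of_injOn ?_
  intro e he e' he' hee
  have hmem : ∀ e ∈ A, ∀ a ∈ e, a ∈ S := fun e he a ha => h (mem_vs.2 ⟨e, he, ha⟩)
  have hinj : ∀ a b, a ∈ S → b ∈ S → ext S u a = ext S u b → a = b := by
    intro a b ha hb hab
    rw [ext_mem S u ha, ext_mem S u hb] at hab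
    exact congrArg Subtype.val (hu hab)
  have he1 := hmem e he
  have he2 := hmem e' he'
  induction e with
  | _ a b =>
    induction e' with
    | _ c d =>
      simp only [Sym2.map_mk, Sym2.eq_iff] at hee ⊢
      have ha := he1 a (by simp)
      have hb := he1 b (by simp)
      have hc := he2 c (by simp)
      have hd := he2 d (by simp)
      rcases hee with ⟨h1, h2⟩ | ⟨h1, h2⟩
      · exact Or.inl ⟨hinj _ _ ha hc h1, hinj _ _ hb hd h2⟩
      · exact Or.inr ⟨hinj _ _ ha hd h1, hinj _ _ hb hc h2⟩

theorem Eb_diag {A : Finset (Sym2 V)} {S : Finset V} (h : vs A ⊆ S) {u : S → Y}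
    (hu : Function.Injective u) (hA : ∀ e ∈ A, ¬ e.IsDiag) : ∀ e ∈ Eb A S u, ¬ e.IsDiag := by
  intro e he hd
  obtain ⟨e', he', rfl⟩ := mem_image.1 he
  have hmem : ∀ a ∈ e', a ∈ S := fun a ha => h (mem_vs.2 ⟨e', he', ha⟩)
  have h1 := hA e' he'
  induction e' with
  | _ a b =>
    simp only [Sym2.map_mk, Sym2.mk_isDiag_iff] at hd h1
    have ha := hmem a (by simp)
    have hb := hmem b (by simp)
    rw [ext_mem S u ha, ext_mem S u hb] at hd
    exact h1 (congrArg Subtype.val (hu hd))

section weights

variable {k : ℕ} (S : Fin k → Finset V)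

/-- the number of injective extensions -/
noncomputable def w0 (y : ∀ j, S j → Y) : ℝ :=
  ((univ.filter fun φ : V → Y => Function.Injective φ ∧ ∀ j, res (S j) φ = y j).card : ℝ)

open Classical in
theorem sum_w0 (Q : (∀ j, S j → Y) → Prop) :
    ∑ y : ∀ j, S j → Y, (if Q y then w0 S y else 0) =
      ((univ.filter fun φ : V → Y => Function.Injective φ ∧ Q fun j => res (S j) φ).card : ℝ) := by
  rw [card_eq_sum_card_fiberwise (f := fun (φ : V → Y) (j : Fin k) => res (S j) φ)
    (t := (univ : Finset (∀ j, S j → Y))) (fun φ _ => mem_univ _)]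
  push_cast
  refine sum_congr rfl fun y _ => ?_
  split_ifs with h
  · unfold w0
    congr 1
    congr 1
    ext φ
    simp only [mem_filter, mem_univ, true_and]
    constructor
    · rintro ⟨h1, h2⟩
      have : (fun j => res (S j) φ) = y := funext h2
      exact ⟨⟨h1, by rw [this]; exact h⟩, this⟩
    · rintro ⟨⟨h1, _⟩, h2⟩
      exact ⟨h1, fun j => congrFun h2 j⟩
  · symm
    rw [Nat.cast_eq_zero, card_eq_zero, filter_eq_empty_iff]
    intro φ hφ h2
    have := (mem_filter.1 hφ).2.2
    rw [h2] at this
    exact h this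

theorem deg_w0_le (J : Finset (Fin k)) (x : ∀ j, S j → Y) :
    deg (w0 S) J x * (Fintype.card Y : ℝ) ^ (J.biUnion S).card ≤
      (Fintype.card Y : ℝ) ^ Fintype.card V := by
  classical
  have h1 : deg (w0 S) J x =
      ((univ.filter fun φ : V → Y => Function.Injective φ ∧ ∀ j ∈ J, res (S j) φ = x j).card : ℝ) := by
    have h := sum_w0 S (fun y => ∀ j ∈ J, y j = x j)
    refine Eq.trans ?_ (h.trans ?_)
    · unfold deg
      refine sum_congr rfl fun y _ => ?_
      by_cases hy : ∀ j ∈ J, y j = x j
      · rw [if_pos hy, if_pos hy]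
      · rw [if_neg hy, if_neg hy]
    · congr 1
      congr 1
      ext φ
      simp only [mem_filter]
  rw [h1]
  set Φ := univ.filter fun φ : V → Y => Function.Injective φ ∧ ∀ j ∈ J, res (S j) φ = x j with hΦ
  by_cases hne : Φ.Nonempty
  · obtain ⟨φ₀, hφ₀⟩ := hne
    have h0 := (mem_filter.1 hφ₀).2.2
    have hsub : Φ ⊆ Fintype.piFinset fun a => if a ∈ J.biUnion S then {φ₀ a} else univ := by
      intro φ hφ
      have h2 := (mem_filter.1 hφ).2.2
      rw [Fintype.mem_piFinset]
      intro a
      split_ifs with ha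
      · obtain ⟨j, hj, haj⟩ := mem_biUnion.1 ha
        rw [mem_singleton]
        have h3 := congrFun (h2 j hj) ⟨a, haj⟩
        have h4 := congrFun (h0 j hj) ⟨a, haj⟩
        exact h3.trans h4.symm
      · exact mem_univ _
    have h2 := card_le_card hsub
    rw [Fintype.card_piFinset] at h2
    have h3 : ∏ a : V, (if a ∈ J.biUnion S then ({φ₀ a} : Finset Y) else univ).card =
        Fintype.card Y ^ (univ \ J.biUnion S).card := by
      rw [← prod_sdiff (subset_univ (J.biUnion S))]
      rw [prod_eq_one (s := J.biUnion S), mul_one]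
      · rw [← prod_const]
        refine prod_congr rfl fun a ha => ?_
        rw [if_neg (mem_sdiff.1 ha).2, card_univ]
      · intro a ha
        rw [if_pos ha, card_singleton]
    rw [h3] at h2
    have h4 : (univ \ J.biUnion S).card + (J.biUnion S).card = Fintype.card V := by
      rw [card_sdiff_add_card_eq_card (subset_univ _), card_univ]
    have h5 : ((Φ.card : ℕ) : ℝ) ≤ (Fintype.card Y : ℝ) ^ (univ \ J.biUnion S).card := by
      exact_mod_cast h2
    refine (mul_le_mul_of_nonneg_right h5 (by positivity)).trans (le_of_eq ?_)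
    rw [← pow_add, h4]
  · rw [not_nonempty_iff_eq_empty] at hne
    rw [hne]
    simp only [card_empty, Nat.cast_zero, zero_mul]
    positivity

/-- the number of non-injective maps is small -/
theorem noninj_card : ((univ.filter fun φ : V → Y => ¬ Function.Injective φ).card : ℝ) *
    Fintype.card Y ≤ (Fintype.card V : ℝ) ^ 2 * (Fintype.card Y : ℝ) ^ Fintype.card V := by
  classical
  set P : Finset (V × V) := univ.filter fun p => p.1 ≠ p.2 with hP
  have hsub : (univ.filter fun φ : V → Y => ¬ Function.Injective φ) ⊆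
      P.biUnion fun p => univ.filter fun φ : V → Y => φ p.1 = φ p.2 := by
    intro φ hφ
    have h := (mem_filter.1 hφ).2
    unfold Function.Injective at h
    push Not at h
    obtain ⟨a, b, h1, h2⟩ := h
    exact mem_biUnion.2 ⟨(a, b), mem_filter.2 ⟨mem_univ _, h2⟩, mem_filter.2 ⟨mem_univ _, h1⟩⟩
  have hp : ∀ p ∈ P, (((univ.filter fun φ : V → Y => φ p.1 = φ p.2).card : ℕ) : ℝ) *
      Fintype.card Y ≤ (Fintype.card Y : ℝ) ^ Fintype.card V := by
    intro p hp
    have hne := (mem_filter.1 hp).2
    have h1 : (univ.filter fun φ : V → Y => φ p.1 = φ p.2) =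
        (univ : Finset Y).biUnion fun y => Fintype.piFinset fun a =>
          if a = p.1 ∨ a = p.2 then {y} else univ := by
      ext φ
      simp only [mem_filter, mem_univ, true_and, mem_biUnion, Fintype.mem_piFinset]
      constructor
      · intro h
        refine ⟨φ p.1, fun a => ?_⟩
        split_ifs with ha
        · rw [mem_singleton]
          rcases ha with rfl | rfl
          · rfl
          · exact h.symm
        · exact mem_univ _
      · rintro ⟨y, h⟩
        have h2 := h p.1
        have h3 := h p.2
        simp only [true_or, or_true, if_true, mem_singleton] at h2 h3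
        rw [h2, h3]
    have h2 : (univ.filter fun φ : V → Y => φ p.1 = φ p.2).card ≤
        ∑ _y : Y, Fintype.card Y ^ (Fintype.card V - 2) := by
      rw [h1]
      refine card_biUnion_le.trans (sum_le_sum fun y _ => le_of_eq ?_)
      rw [Fintype.card_piFinset]
      have h3 : ∏ a : V, (if a = p.1 ∨ a = p.2 then ({y} : Finset Y) else univ).card =
          Fintype.card Y ^ (univ \ {p.1, p.2}).card := by
        rw [← prod_sdiff (subset_univ ({p.1, p.2} : Finset V))]
        rw [prod_eq_one (s := {p.1, p.2}), mul_one]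
        · rw [← prod_const]
          refine prod_congr rfl fun a ha => ?_
          rw [if_neg, card_univ]
          intro h
          refine (mem_sdiff.1 ha).2 ?_
          simpa using h
        · intro a ha
          rw [if_pos (by simpa using ha), card_singleton]
      rw [h3, card_sdiff_of_subset (subset_univ _), card_univ, card_pair hne]
    rw [sum_const, card_univ, smul_eq_mul] at h2
    have h3 : ((univ.filter fun φ : V → Y => φ p.1 = φ p.2).card : ℝ) ≤
        (Fintype.card Y : ℝ) * (Fintype.card Y : ℝ) ^ (Fintype.card V - 2) := by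
      exact_mod_cast h2
    have h4 : 2 ≤ Fintype.card V := by
      have := card_le_univ ({p.1, p.2} : Finset V)
      rwa [card_pair hne] at this
    calc (((univ.filter fun φ : V → Y => φ p.1 = φ p.2).card : ℕ) : ℝ) * Fintype.card Y
        ≤ ((Fintype.card Y : ℝ) * (Fintype.card Y : ℝ) ^ (Fintype.card V - 2)) * Fintype.card Y :=
          mul_le_mul_of_nonneg_right h3 (Nat.cast_nonneg _)
      _ = (Fintype.card Y : ℝ) ^ (Fintype.card V - 2 + 2) := by ring
      _ = (Fintype.card Y : ℝ) ^ Fintype.card V := by rw [Nat.sub_add_cancel h4]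
  have h1 : ((univ.filter fun φ : V → Y => ¬ Function.Injective φ).card : ℝ) ≤
      ∑ p ∈ P, ((univ.filter fun φ : V → Y => φ p.1 = φ p.2).card : ℝ) := by
    have := (card_le_card hsub).trans card_biUnion_le
    exact_mod_cast this
  refine (mul_le_mul_of_nonneg_right h1 (Nat.cast_nonneg _)).trans ?_
  rw [sum_mul]
  refine (sum_le_card_nsmul _ _ _ hp).trans ?_
  rw [nsmul_eq_mul]
  refine mul_le_mul_of_nonneg_right ?_ (by positivity)
  have h2 : P.card ≤ Fintype.card V ^ 2 := by
    refine (card_le_univ _).trans (le_of_eq ?_)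
    rw [Fintype.card_prod, sq]
  exact_mod_cast h2

end weights

end Pool.Agent.N437.RL
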