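import Mathlib
/-!
# Random subsets and union bounds
-/

set_option autoImplicit false
set_option linter.unusedSectionVars false
set_option linter.unusedVariables false

open Finset

namespace Pool.Agent.N437.RL

section prob

variable {α : Type} [DecidableEq α]

open Classical in
/-- the probability that the `p`-random subset of `U` has the property `Q` -/
noncomputable def prE (U : Finset α) (p : ℝ) (Q : Finset α → Prop) : ℝ :=
  ∑ s ∈ U.powerset.filter Q, p ^ s.card * (1 - p) ^ (U.card - s.card)

theorem prE_eq (U : Finset α) (p : ℝ) (Q : Finset α → Prop) [DecidablePred Q] :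
    prE U p Q = ∑ s ∈ U.powerset, if Q s then p ^ s.card * (1 - p) ^ (U.card - s.card) else 0 := by
  unfold prE
  rw [← sum_filter]
  congr 1
  ext s
  simp only [mem_filter]

theorem prE_sup {U E : Finset α} {p : ℝ} (hE : E ⊆ U) : prE U p (fun s => E ⊆ s) = p ^ E.card := by
  classical
  rw [prE_eq, ← sum_filter]
  have h1 := sum_pow_mul_eq_add_pow p (1 - p) (U \ E)
  have h2 : ∑ s ∈ U.powerset.filter (fun s => E ⊆ s), p ^ s.card * (1 - p) ^ (U.card - s.card) =
      ∑ s ∈ (U \ E).powerset, p ^ E.card * (p ^ s.card * (1 - p) ^ ((U \ E).card - s.card)) := by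
    symm
    refine sum_bij (fun s _ => s ∪ E) ?_ ?_ ?_ ?_
    · intro s hs
      rw [mem_powerset] at hs
      exact mem_filter.2 ⟨mem_powerset.2 (union_subset (hs.trans sdiff_subset) hE),
        subset_union_right⟩
    · intro s hs s' hs' h
      rw [mem_powerset] at hs hs'
      have h3 : Disjoint s E := disjoint_of_subset_left hs sdiff_disjoint
      have h4 : Disjoint s' E := disjoint_of_subset_left hs' sdiff_disjoint
      have h5 : (s ∪ E) \ E = s := by rw [union_sdiff_right, sdiff_eq_self_of_disjoint h3]
      have h6 : (s' ∪ E) \ E = s' := by rw [union_sdiff_right, sdiff_eq_self_of_disjoint h4]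
      rw [← h5, ← h6]
      exact congrArg (fun z => z \ E) h
    · intro s hs
      have h3 := mem_filter.1 hs
      refine ⟨s \ E, mem_powerset.2 (sdiff_subset_sdiff (mem_powerset.1 h3.1) Subset.rfl), ?_⟩
      exact sdiff_union_of_subset h3.2
    · intro s hs
      rw [mem_powerset] at hs
      have h3 : Disjoint s E := disjoint_of_subset_left hs sdiff_disjoint
      rw [card_union_of_disjoint h3, card_sdiff_of_subset hE]
      have h4 : U.card - (s.card + E.card) = U.card - E.card - s.card := by omega
      rw [h4, pow_add]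
      ring
  rw [h2, ← mul_sum, h1]
  simp

theorem prE_sup_le {U E : Finset α} {p : ℝ} (hp : 0 ≤ p) : prE U p (fun s => E ⊆ s) ≤ p ^ E.card := by
  classical
  by_cases hE : E ⊆ U
  · exact (prE_sup hE).le
  · rw [prE_eq, sum_eq_zero]
    · positivity
    · intro s hs
      rw [if_neg]
      exact fun h => hE (h.trans (mem_powerset.1 hs))

theorem prE_nonneg {U : Finset α} {p : ℝ} (hp : 0 ≤ p) (hp1 : p ≤ 1) (Q : Finset α → Prop) :
    0 ≤ prE U p Q := by
  unfold prE
  refine sum_nonneg fun s _ => ?_
  have : 0 ≤ 1 - p := by linarith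
  positivity

theorem prE_union {β : Type} {U : Finset α} {p : ℝ} (hp : 0 ≤ p) (hp1 : p ≤ 1)
    (Q : Finset α → Prop) (I : Finset β) (B : β → Finset α)
    (h : ∀ s ⊆ U, Q s → ∃ i ∈ I, B i ⊆ s) : prE U p Q ≤ ∑ i ∈ I, p ^ (B i).card := by
  classical
  have h0 : ∀ s : Finset α, 0 ≤ p ^ s.card * (1 - p) ^ (U.card - s.card) := by
    intro s
    have : 0 ≤ 1 - p := by linarith
    positivity
  have h1 : prE U p Q ≤ ∑ i ∈ I, prE U p (fun s => B i ⊆ s) := by
    calc prE U p Q = ∑ s ∈ U.powerset.filter Q, p ^ s.card * (1 - p) ^ (U.card - s.card) := by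
          rw [prE_eq, sum_filter]
      _ ≤ ∑ s ∈ U.powerset.filter Q, ∑ i ∈ I,
            (if B i ⊆ s then p ^ s.card * (1 - p) ^ (U.card - s.card) else 0) := by
          refine sum_le_sum fun s hs => ?_
          obtain ⟨i, hi, hB⟩ := h s (mem_powerset.1 (mem_filter.1 hs).1) (mem_filter.1 hs).2
          have : (if B i ⊆ s then p ^ s.card * (1 - p) ^ (U.card - s.card) else 0) ≤
              ∑ i ∈ I, (if B i ⊆ s then p ^ s.card * (1 - p) ^ (U.card - s.card) else 0) :=
            single_le_sum (f := fun i => if B i ⊆ s then p ^ s.card * (1 - p) ^ (U.card - s.card)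
              else 0) (fun i _ => by split_ifs; exacts [h0 s, le_rfl]) hi
          rwa [if_pos hB] at this
      _ = ∑ i ∈ I, ∑ s ∈ U.powerset.filter Q,
            (if B i ⊆ s then p ^ s.card * (1 - p) ^ (U.card - s.card) else 0) := sum_comm
      _ ≤ ∑ i ∈ I, ∑ s ∈ U.powerset,
            (if B i ⊆ s then p ^ s.card * (1 - p) ^ (U.card - s.card) else 0) := by
          refine sum_le_sum fun i _ => sum_le_sum_of_subset_of_nonneg (filter_subset _ _) ?_
          intro s _ _
          split_ifs
          exacts [h0 s, le_rfl]
      _ = _ := by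
          refine sum_congr rfl fun i _ => ?_
          exact (prE_eq U p (fun s => B i ⊆ s)).symm
  exact h1.trans (sum_le_sum fun i _ => prE_sup_le hp)

theorem prE_compl {U : Finset α} {p : ℝ} (Q : Finset α → Prop) :
    prE U p Q + prE U p (fun s => ¬ Q s) = 1 := by
  classical
  unfold prE
  rw [sum_filter_add_sum_filter_not, sum_pow_mul_eq_add_pow]
  simp

end prob

section sums

variable {α : Type} [DecidableEq α]

theorem esum_le (S : Finset α) (q : α → ℝ) (hq : ∀ x, 0 ≤ q x) : ∀ t : ℕ,
    ∑ F ∈ S.powersetCard t, ∏ x ∈ F, q x ≤ (∑ x ∈ S, q x) ^ t / t.factorial := by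
  classical
  induction S using Finset.induction_on with
  | empty =>
    intro t
    cases t with
    | zero => simp
    | succ t =>
      rw [powersetCard_eq_empty.2 (by simp)]
      simp
  | insert a S ha ih =>
    intro t
    cases t with
    | zero => simp
    | succ t =>
      rw [powersetCard_succ_insert ha, sum_union, sum_insert ha]
      · rw [sum_image]
        · have h1 : ∑ F ∈ S.powersetCard t, ∏ x ∈ insert a F, q x =
              q a * ∑ F ∈ S.powersetCard t, ∏ x ∈ F, q x := by
            rw [mul_sum]
            refine sum_congr rfl fun F hF => ?_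
            rw [prod_insert]
            exact fun h => ha ((mem_powersetCard.1 hF).1 h)
          rw [h1]
          have h2 := ih (t + 1)
          have h3 := mul_le_mul_of_nonneg_left (ih t) (hq a)
          refine (add_le_add h2 h3).trans ?_
          set σ := ∑ x ∈ S, q x with hσ
          have hσ0 : 0 ≤ σ := sum_nonneg fun x _ => hq x
          have hf : ((t + 1).factorial : ℝ) = (t + 1) * t.factorial := by
            rw [Nat.factorial_succ]
            push_cast
            ring
          have hf0 : (0 : ℝ) < t.factorial := by exact_mod_cast t.factorial_pos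
          have h4 : σ ^ (t + 1) + (t + 1) * (q a * σ ^ t) ≤ (q a + σ) ^ (t + 1) := by
            have key : ∀ m : ℕ, σ ^ (m + 1) + (m + 1) * (q a * σ ^ m) ≤ (q a + σ) ^ (m + 1) := by
              intro m
              induction m with
              | zero => simp; linarith
              | succ m ihm =>
                have h6 := mul_le_mul_of_nonneg_left ihm (add_nonneg (hq a) hσ0)
                have h7 : (q a + σ) * (q a + σ) ^ (m + 1) = (q a + σ) ^ (m + 1 + 1) := by ring
                rw [h7] at h6
                refine le_trans ?_ h6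
                have h8 : 0 ≤ (m + 1) * (q a * σ ^ m) * q a := by
                  have := hq a
                  positivity
                push_cast
                have h9 : (q a + σ) * (σ ^ (m + 1) + (m + 1) * (q a * σ ^ m)) =
                    σ ^ (m + 1 + 1) + (m + 1 + 1) * (q a * σ ^ (m + 1)) +
                      (m + 1) * (q a * σ ^ m) * q a := by ring
                linarith
            exact key t
          rw [hf, mul_div_assoc', div_add_div _ _ (by positivity) hf0.ne',
            div_le_div_iff₀ (by positivity) (by positivity)]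
          have h9 := mul_le_mul_of_nonneg_right h4 (by positivity :
            (0 : ℝ) ≤ t.factorial * ((t + 1) * t.factorial))
          refine le_trans (le_of_eq ?_) h9 |>.trans (le_of_eq ?_)
          · ring
          · ring
        · intro F hF F' hF' h
          have h1 : a ∉ F := fun h => ha ((mem_powersetCard.1 hF).1 h)
          have h2 : a ∉ F' := fun h => ha ((mem_powersetCard.1 hF').1 h)
          have := congrArg (fun s => s.erase a) h
          simpa [erase_insert h1, erase_insert h2] using this
      · rw [disjoint_left]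
        intro F hF hF'
        obtain ⟨F'', hF'', rfl⟩ := mem_image.1 hF'
        exact ha ((mem_powersetCard.1 hF).1 (mem_insert_self a F''))

theorem esum_exp {σ : ℝ} {t : ℕ} (hσ : 0 ≤ σ) (h : σ * 8 ≤ t) :
    σ ^ t / t.factorial ≤ Real.exp (-t) := by
  rcases Nat.eq_zero_or_pos t with rfl | ht
  · simp
  · have ht' : (0 : ℝ) < t := by exact_mod_cast ht
    have h1 : (t : ℝ) ^ t / t.factorial ≤ Real.exp t := Real.pow_div_factorial_le_exp t ht'.le t
    have h2 : σ ≤ t / 8 := by linarith
    have h3 : σ ^ t ≤ (t / 8) ^ t := pow_le_pow_left₀ hσ h2 t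
    have h4 : Real.exp 2 ≤ 8 := by
      have := Real.exp_one_lt_d9
      have h5 : Real.exp 2 = Real.exp 1 * Real.exp 1 := by rw [← Real.exp_add]; norm_num
      rw [h5]
      have h6 := Real.exp_pos 1
      nlinarith
    have h5 : Real.exp (2 * t) ≤ 8 ^ t := by
      have : Real.exp (2 * t) = Real.exp 2 ^ t := by
        rw [← Real.exp_nat_mul]
        ring_nf
      rw [this]
      exact pow_le_pow_left₀ (Real.exp_pos _).le h4 t
    have hf0 : (0 : ℝ) < t.factorial := by exact_mod_cast t.factorial_pos
    calc σ ^ t / t.factorial ≤ (t / 8) ^ t / t.factorial :=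
          div_le_div_of_nonneg_right h3 hf0.le
      _ = ((t : ℝ) ^ t / t.factorial) / 8 ^ t := by
          rw [div_pow]
          field_simp
      _ ≤ Real.exp t / Real.exp (2 * t) := by
          have := Real.exp_pos (t : ℝ)
          gcongr
      _ = Real.exp (-t) := by
          rw [← Real.exp_sub]
          ring_nf

theorem sum_small {β : Type} [Fintype β] [DecidableEq β] {q lam : ℝ} (hq : 0 ≤ q) (hl : 0 < lam)
    (hl1 : lam ≤ 1) (t : ℕ) :
    ∑ Y ∈ (univ : Finset (Finset β)).filter (fun Y => Y.card ≤ t), q ^ Y.card ≤
      (1 / lam) ^ t * Real.exp (lam * q * Fintype.card β) := by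
  have h1 : ∀ Y ∈ (univ : Finset (Finset β)).filter (fun Y => Y.card ≤ t), q ^ Y.card ≤
      (1 / lam) ^ t * (lam * q) ^ Y.card := by
    intro Y hY
    have hYt := (mem_filter.1 hY).2
    rw [mul_pow]
    have h2 : 1 ≤ (1 / lam) ^ t * lam ^ Y.card := by
      have h3 : (1 / lam) ^ t = (1 / lam) ^ (t - Y.card) * (1 / lam) ^ Y.card := by
        rw [← pow_add]
        congr 1
        omega
      rw [h3, mul_assoc, ← mul_pow]
      have h4 : 1 / lam * lam = 1 := by field_simp
      rw [h4, one_pow, mul_one]
      exact one_le_pow₀ (by rw [le_div_iff₀ hl]; linarith)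
    have h3 : 0 ≤ q ^ Y.card := by positivity
    nlinarith
  refine (sum_le_sum h1).trans ?_
  rw [← mul_sum]
  refine mul_le_mul_of_nonneg_left ?_ (by positivity)
  have h2 : ∑ Y ∈ (univ : Finset (Finset β)).filter (fun Y => Y.card ≤ t), (lam * q) ^ Y.card ≤
      ∑ Y : Finset β, (lam * q) ^ Y.card :=
    sum_le_sum_of_subset_of_nonneg (filter_subset _ _) fun Y _ _ => by positivity
  refine h2.trans ?_
  have h3 := sum_pow_mul_eq_add_pow (lam * q) 1 (univ : Finset β)
  simp only [one_pow, mul_one, powerset_univ, card_univ] at h3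
  rw [h3]
  have h4 : lam * q + 1 ≤ Real.exp (lam * q) := Real.add_one_le_exp _
  refine (pow_le_pow_left₀ (by positivity) h4 _).trans (le_of_eq ?_)
  rw [← Real.exp_nat_mul]
  ring_nf

end sums

end Pool.Agent.N437.RL
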