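import Mathlib
/-!
# One step of a container algorithm for weighted multipartite hypergraphs
-/

set_option autoImplicit false
set_option linter.unusedSectionVars false

open Finset

namespace Pool.Agent.N437.RL

section defs

variable {ι : Type} [Fintype ι] [DecidableEq ι] {X : ι → Type} [∀ i, Fintype (X i)]
  [∀ i, DecidableEq (X i)]

/-- the degree of the restriction of `x` to `J` -/
noncomputable def deg (w : (∀ i, X i) → ℝ) (J : Finset ι) (x : ∀ i, X i) : ℝ :=
  ∑ y : ∀ i, X i, if (∀ i ∈ J, y i = x i) then w y else 0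

/-- the weight `w` has bounded degrees -/
structure Bdd (N : ι → ℝ) (t : ℕ) (W : ℝ) (w : (∀ i, X i) → ℝ) (P : Finset ι) (A : ℝ) : Prop where
  nonneg : ∀ y, 0 ≤ w y
  deg : ∀ J : Finset ι, J.Nonempty → Disjoint J P → ∀ x,
    deg w J x ≤ A * (W / t * ((∏ j ∈ P, (t / N j)) * ∏ j ∈ J, (t / N j)))

/-- the part of `w` over `T` -/
def ovr (w : (∀ i, X i) → ℝ) (i : ι) (T : Finset (X i)) (y : ∀ i, X i) : ℝ :=
  if y i ∈ T then w y else 0

/-- saturated -/
def Sat (N : ι → ℝ) (t : ℕ) (W : ℝ) (w : (∀ i, X i) → ℝ) (P : Finset ι) (K : ℝ) (i : ι)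
    (T : Finset (X i)) (y : ∀ i, X i) : Prop :=
  ∃ J : Finset ι, J.Nonempty ∧ Disjoint J (insert i P) ∧
    K * (W / t * ((∏ j ∈ insert i P, (t / N j)) * ∏ j ∈ J, (t / N j))) ≤ deg (ovr w i T) J y

open Classical in
/-- the unsaturated part of `w` -/
noncomputable def uns (N : ι → ℝ) (t : ℕ) (W : ℝ) (w : (∀ i, X i) → ℝ) (P : Finset ι) (K : ℝ)
    (i : ι) (T : Finset (X i)) (y : ∀ i, X i) : ℝ :=
  if Sat N t W w P K i T y then 0 else w y

open Classical in
/-- the elements of large unsaturated degree -/
noncomputable def ZZ (N : ι → ℝ) (t : ℕ) (W : ℝ) (w : (∀ i, X i) → ℝ) (P : Finset ι) (K γ : ℝ)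
    (i : ι) (T : Finset (X i)) : Finset (X i) :=
  univ.filter fun u => γ / 4 * (W * ∏ j ∈ P, (t / N j)) / N i ≤
    ∑ y : ∀ i, X i, if y i = u then uns N t W w P K i T y else 0

theorem deg_nonneg {w : (∀ i, X i) → ℝ} (hw : ∀ y, 0 ≤ w y) (J : Finset ι) (x : ∀ i, X i) :
    0 ≤ deg w J x := sum_nonneg fun y _ => by
  split_ifs
  · exact hw y
  · exact le_rfl

theorem deg_mono {w w' : (∀ i, X i) → ℝ} (h : ∀ y, w y ≤ w' y) (J : Finset ι) (x : ∀ i, X i) :
    deg w J x ≤ deg w' J x := sum_le_sum fun y _ => by
  split_ifs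
  · exact h y
  · exact le_rfl

theorem deg_congr (w : (∀ i, X i) → ℝ) {J : Finset ι} {x x' : ∀ i, X i}
    (h : ∀ i ∈ J, x i = x' i) : deg w J x = deg w J x' := by
  unfold deg
  refine sum_congr rfl fun y _ => ?_
  have : (∀ i ∈ J, y i = x i) ↔ ∀ i ∈ J, y i = x' i :=
    ⟨fun h' i hi => (h' i hi).trans (h i hi), fun h' i hi => (h' i hi).trans (h i hi).symm⟩
  simp only [this]

theorem sum_mul_deg (w w' : (∀ i, X i) → ℝ) (J : Finset ι) :
    ∑ y, w y * deg w' J y = ∑ z, w' z * deg w J z := by
  unfold deg
  simp only [mul_sum]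
  rw [sum_comm]
  refine sum_congr rfl fun z _ => sum_congr rfl fun y _ => ?_
  have : (∀ i ∈ J, z i = y i) ↔ ∀ i ∈ J, y i = z i :=
    ⟨fun h' i hi => (h' i hi).symm, fun h' i hi => (h' i hi).symm⟩
  simp only [this]
  split_ifs
  · ring
  · ring

theorem ovr_nonneg {w : (∀ i, X i) → ℝ} (hw : ∀ y, 0 ≤ w y) (i : ι) (T : Finset (X i))
    (y : ∀ i, X i) : 0 ≤ ovr w i T y := by
  unfold ovr
  split_ifs
  · exact hw y
  · exact le_rfl

theorem ovr_le {w : (∀ i, X i) → ℝ} (hw : ∀ y, 0 ≤ w y) (i : ι) (T : Finset (X i))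
    (y : ∀ i, X i) : ovr w i T y ≤ w y := by
  unfold ovr
  split_ifs
  · exact le_rfl
  · exact hw y

theorem sum_ovr_le {N : ι → ℝ} {t : ℕ} {W : ℝ} {w : (∀ i, X i) → ℝ} {P : Finset ι} {A : ℝ}
    (hb : Bdd N t W w P A) {i : ι} (hi : i ∉ P) (T : Finset (X i)) [Nonempty (∀ i, X i)] :
    ∑ y, ovr w i T y ≤ T.card * (A * (W / t * ((∏ j ∈ P, (t / N j)) * (t / N i)))) := by
  classical
  have h1 : ∀ y, ovr w i T y = ∑ u ∈ T, if y i = u then w y else 0 := by
    intro y
    unfold ovr
    rw [sum_ite_eq]
  rw [sum_congr rfl fun y _ => h1 y, sum_comm, ← nsmul_eq_mul]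
  refine sum_le_card_nsmul _ _ _ fun u _ => ?_
  have h2 := hb.deg {i} (singleton_nonempty i) (disjoint_singleton_left.2 hi)
    (Function.update (Classical.arbitrary (∀ i, X i)) i u)
  rw [prod_singleton] at h2
  refine le_trans (le_of_eq ?_) h2
  unfold deg
  refine sum_congr rfl fun y _ => ?_
  simp

end defs

section stage

variable {ι : Type} [Fintype ι] [DecidableEq ι] {X : ι → Type} [∀ i, Fintype (X i)]
  [∀ i, DecidableEq (X i)] [Nonempty (∀ i, X i)]
  {N : ι → ℝ} {t : ℕ} {W : ℝ} {w : (∀ i, X i) → ℝ} {P : Finset ι} {A K γ : ℝ} {i : ι}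

theorem sat_sum (hN : ∀ i, 0 < N i) (ht : 0 < t) (hW : 0 < W) (hb : Bdd N t W w P A) (hA : 0 < A)
    (hK : 0 < K) (hi : i ∉ P) {T : Finset (X i)} (hT : T.card ≤ t) :
    ∑ y, w y - ∑ y, uns N t W w P K i T y ≤
      2 ^ Fintype.card ι * (A ^ 2 / K * (W * ∏ j ∈ P, (t / N j))) := by
  classical
  have ht' : (0 : ℝ) < t := by exact_mod_cast ht
  have hτ : ∀ Q : Finset ι, 0 < ∏ j ∈ Q, ((t : ℝ) / N j) := fun Q => prod_pos fun j _ =>
    div_pos ht' (hN j)
  set c : Finset ι → ℝ := fun J => W / t * ((∏ j ∈ P, (t / N j)) * ∏ j ∈ J, (t / N j)) with hc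
  have hc0 : ∀ J, 0 < c J := fun J => by
    have := hτ P
    have := hτ J
    positivity
  set Js : Finset (Finset ι) := univ.filter fun J => J.Nonempty ∧ Disjoint J (insert i P)
  have h1 : ∀ J ∈ Js, ∑ y, (if K * (t / N i * c J) ≤ deg (ovr w i T) J y then w y else 0) ≤
      A ^ 2 / K * (W * ∏ j ∈ P, (t / N j)) := by
    intro J hJ
    have hJ' := (mem_filter.1 hJ).2
    have hJP : Disjoint J P := disjoint_of_subset_right (subset_insert i P) hJ'.2
    have h2 : (∑ y, (if K * (t / N i * c J) ≤ deg (ovr w i T) J y then w y else 0)) *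
        (K * (t / N i * c J)) ≤ ∑ y, w y * deg (ovr w i T) J y := by
      rw [sum_mul]
      refine sum_le_sum fun y _ => ?_
      split_ifs with h
      · exact mul_le_mul_of_nonneg_left h (hb.nonneg y)
      · rw [zero_mul]
        exact mul_nonneg (hb.nonneg y) (deg_nonneg (ovr_nonneg hb.nonneg i T) J y)
    rw [sum_mul_deg] at h2
    have h3 : ∑ z, ovr w i T z * deg w J z ≤ (∑ z, ovr w i T z) * (A * c J) := by
      rw [sum_mul]
      exact sum_le_sum fun z _ => mul_le_mul_of_nonneg_left (hb.deg J hJ'.1 hJP z)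
        (ovr_nonneg hb.nonneg i T z)
    have h4 : ∑ z, ovr w i T z ≤ A * (W * ((∏ j ∈ P, (t / N j)) * (t / N i))) := by
      refine (sum_ovr_le hb hi T).trans ?_
      have h5 : (T.card : ℝ) ≤ t := by exact_mod_cast hT
      have h6 : 0 ≤ A * (W / t * ((∏ j ∈ P, (t / N j)) * (t / N i))) := by
        have := hτ P
        have := hN i
        positivity
      refine (mul_le_mul_of_nonneg_right h5 h6).trans (le_of_eq ?_)
      field_simp
    have h5 := h2.trans (h3.trans (mul_le_mul_of_nonneg_right h4
      (mul_nonneg hA.le (hc0 J).le)))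
    have h6 : 0 < K * (t / N i * c J) := by
      have := hc0 J
      have := hN i
      positivity
    rw [← le_div_iff₀ h6] at h5
    refine h5.trans (le_of_eq ?_)
    have := (hc0 J).ne'
    have := (hN i).ne'
    field_simp
  have h2 : ∑ y, w y - ∑ y, uns N t W w P K i T y ≤
      ∑ y, ∑ J ∈ Js, (if K * (t / N i * c J) ≤ deg (ovr w i T) J y then w y else 0) := by
    rw [← sum_sub_distrib]
    refine sum_le_sum fun y _ => ?_
    have h3 : ∀ J ∈ Js, 0 ≤ (if K * (t / N i * c J) ≤ deg (ovr w i T) J y then w y else 0) := by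
      intro J _
      split_ifs
      · exact hb.nonneg y
      · exact le_rfl
    unfold uns
    split_ifs with h
    · obtain ⟨J, hJ1, hJ2, hJ3⟩ := h
      have hJ : J ∈ Js := mem_filter.2 ⟨mem_univ _, hJ1, hJ2⟩
      refine le_trans ?_ (single_le_sum h3 hJ)
      rw [if_pos, sub_zero]
      refine le_trans (le_of_eq ?_) hJ3
      rw [prod_insert hi]
      simp only [hc]
      ring
    · rw [sub_self]
      exact sum_nonneg h3
  refine h2.trans ?_
  rw [sum_comm]
  refine (sum_le_card_nsmul _ _ _ h1).trans ?_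
  rw [nsmul_eq_mul]
  have h3 : (Js.card : ℝ) ≤ 2 ^ Fintype.card ι := by
    have : Js.card ≤ 2 ^ Fintype.card ι := by
      refine (card_le_card (subset_univ _)).trans (le_of_eq ?_)
      rw [card_univ, Fintype.card_finset]
    exact_mod_cast this
  refine mul_le_mul_of_nonneg_right h3 ?_
  have := hτ P
  positivity

theorem ZZ_card (hN : ∀ i, 0 < N i) (ht : 0 < t) (hW : 0 < W) (hb : Bdd N t W w P A) (hA : 0 < A)
    (hγ : 0 < γ) (hK : 2 ^ (Fintype.card ι + 1) * A ^ 2 / γ ≤ K) (hi : i ∉ P)
    (hX : (Fintype.card (X i) : ℝ) ≤ N i)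
    (htot : γ * (W * ∏ j ∈ P, (t / N j)) ≤ ∑ y, w y) {T : Finset (X i)} (hT : T.card ≤ t) :
    γ / (4 * A) * N i ≤ ((ZZ N t W w P K γ i T).card : ℝ) := by
  classical
  have ht' : (0 : ℝ) < t := by exact_mod_cast ht
  have hK0 : 0 < K := lt_of_lt_of_le (by positivity) hK
  have hτ : ∀ Q : Finset ι, 0 < ∏ j ∈ Q, ((t : ℝ) / N j) := fun Q => prod_pos fun j _ =>
    div_pos ht' (hN j)
  set B : ℝ := W * ∏ j ∈ P, (t / N j) with hB
  have hB0 : 0 < B := mul_pos hW (hτ P)
  have h1 := sat_sum hN ht hW hb hA hK0 hi hT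
  have h2 : 2 ^ Fintype.card ι * (A ^ 2 / K * B) ≤ γ / 2 * B := by
    rw [← mul_assoc]
    refine mul_le_mul_of_nonneg_right ?_ hB0.le
    rw [div_le_iff₀ hγ] at hK
    rw [mul_div_assoc', div_le_iff₀ hK0]
    rw [pow_succ] at hK
    linarith
  have h3 : γ / 2 * B ≤ ∑ y, uns N t W w P K i T y := by linarith
  have h4 : ∀ y : ∀ i, X i, uns N t W w P K i T y =
      ∑ u : X i, if y i = u then uns N t W w P K i T y else 0 := by
    intro y
    rw [sum_ite_eq]
    simp
  rw [sum_congr rfl fun y _ => h4 y, sum_comm,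
    ← sum_filter_add_sum_filter_not univ (fun u => u ∈ ZZ N t W w P K γ i T)] at h3
  have hu : ∀ y, uns N t W w P K i T y ≤ w y := by
    intro y
    unfold uns
    split_ifs
    · exact hb.nonneg y
    · exact le_rfl
  have h5 : ∑ u ∈ univ.filter (fun u => u ∈ ZZ N t W w P K γ i T),
      (∑ y : ∀ i, X i, if y i = u then uns N t W w P K i T y else 0) ≤
      ((ZZ N t W w P K γ i T).card : ℝ) * (A * B / N i) := by
    rw [filter_mem_eq_inter, univ_inter, ← nsmul_eq_mul]
    refine sum_le_card_nsmul _ _ _ fun u _ => ?_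
    have h6 := hb.deg {i} (singleton_nonempty i) (disjoint_singleton_left.2 hi)
      (Function.update (Classical.arbitrary (∀ i, X i)) i u)
    rw [prod_singleton] at h6
    have h7 : A * (W / t * ((∏ j ∈ P, (t / N j)) * (t / N i))) = A * B / N i := by
      rw [hB]
      have := (hN i).ne'
      field_simp
    rw [h7] at h6
    refine le_trans ?_ h6
    unfold deg
    refine sum_le_sum fun y _ => ?_
    simp only [mem_singleton, forall_eq, Function.update_self]
    split_ifs
    · exact hu y
    · exact le_rfl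
  have h6 : ∑ u ∈ univ.filter (fun u => ¬ u ∈ ZZ N t W w P K γ i T),
      (∑ y : ∀ i, X i, if y i = u then uns N t W w P K i T y else 0) ≤ γ / 4 * B := by
    have h7 : ∀ u ∈ univ.filter (fun u => ¬ u ∈ ZZ N t W w P K γ i T),
        (∑ y : ∀ i, X i, if y i = u then uns N t W w P K i T y else 0) ≤ γ / 4 * B / N i := by
      intro u hu
      have h8 := (mem_filter.1 hu).2
      unfold ZZ at h8
      simp only [mem_filter, mem_univ, true_and, not_le] at h8
      exact h8.le
    refine (sum_le_card_nsmul _ _ _ h7).trans ?_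
    rw [nsmul_eq_mul]
    have h8 : ((univ.filter (fun u => ¬ u ∈ ZZ N t W w P K γ i T)).card : ℝ) ≤ N i := by
      refine le_trans ?_ hX
      exact_mod_cast card_le_univ _
    have h9 : 0 ≤ γ / 4 * B / N i := by have := hN i; positivity
    refine (mul_le_mul_of_nonneg_right h8 h9).trans (le_of_eq ?_)
    have := (hN i).ne'
    field_simp
  have h7 : γ / 4 * B ≤ ((ZZ N t W w P K γ i T).card : ℝ) * (A * B / N i) := by linarith
  have h8 : 0 < A * B / N i := by have := hN i; positivity
  rw [← div_le_iff₀ h8] at h7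
  refine le_trans (le_of_eq ?_) h7
  have := (hN i).ne'
  field_simp

theorem greedy (hN : ∀ i, 0 < N i) (ht : 0 < t) (hW : 0 < W) (hb : Bdd N t W w P A) (hA : 0 < A)
    (hγ : 0 < γ) (hK : 0 < K) (hi : i ∉ P)
    (Good : Finset (X i) → Prop) (hG : Good ∅) :
    ∀ m ≤ t, (∃ T : Finset (X i), T.card ≤ t ∧ Good T ∧
        ∀ u ∈ ZZ N t W w P K γ i T, u ∉ T → ¬ Good (insert u T)) ∨
      ∃ T : Finset (X i), T.card = m ∧ Good T ∧ ∃ w' : (∀ i, X i) → ℝ,
        (∀ y, 0 ≤ w' y ∧ w' y ≤ ovr w i T y) ∧
        (∀ J : Finset ι, J.Nonempty → Disjoint J (insert i P) → ∀ x, deg w' J x ≤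
          (K + A) * (W / t * ((∏ j ∈ insert i P, (t / N j)) * ∏ j ∈ J, (t / N j)))) ∧
        m * (γ / 4 * (W * ∏ j ∈ P, (t / N j)) / N i) ≤ ∑ y, w' y := by
  classical
  have ht' : (0 : ℝ) < t := by exact_mod_cast ht
  have hτ : ∀ Q : Finset ι, 0 < ∏ j ∈ Q, ((t : ℝ) / N j) := fun Q => prod_pos fun j _ =>
    div_pos ht' (hN j)
  intro m
  induction m with
  | zero =>
    intro _
    refine Or.inr ⟨∅, rfl, hG, fun _ => 0, fun y => ⟨le_rfl, by simp [ovr]⟩, ?_, by simp⟩
    intro J _ _ x
    have : deg (fun _ : (∀ i, X i) => (0 : ℝ)) J x = 0 := by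
      unfold deg
      simp
    rw [this]
    have := hτ (insert i P)
    have := hτ J
    positivity
  | succ m ih =>
    intro hm
    rcases ih (by omega) with h | ⟨T, hT, hGT, w', hw', hdeg, htot⟩
    · exact Or.inl h
    · by_cases hex : ∃ u ∈ ZZ N t W w P K γ i T, u ∉ T ∧ Good (insert u T)
      · obtain ⟨u, hu, huT, hGu⟩ := hex
        right
        set w'' : (∀ i, X i) → ℝ := fun y => w' y + if y i = u then uns N t W w P K i T y else 0
          with hw''
        have huns : ∀ y, 0 ≤ uns N t W w P K i T y ∧ uns N t W w P K i T y ≤ w y := by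
          intro y
          unfold uns
          split_ifs
          · exact ⟨le_rfl, hb.nonneg y⟩
          · exact ⟨hb.nonneg y, le_rfl⟩
        refine ⟨insert u T, by rw [card_insert_of_notMem huT, hT], hGu, w'', ?_, ?_, ?_⟩
        · intro y
          simp only [hw'']
          have h1 := hw' y
          unfold ovr at h1 ⊢
          by_cases hy : y i = u
          · rw [if_pos hy, if_pos (by rw [hy]; exact mem_insert_self u T)]
            rw [if_neg (by rw [hy]; exact huT)] at h1
            have := huns y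
            constructor <;> linarith
          · rw [if_neg hy, add_zero]
            by_cases hy2 : y i ∈ T
            · rw [if_pos hy2] at h1
              rw [if_pos (mem_insert_of_mem hy2)]
              exact h1
            · rw [if_neg hy2] at h1
              rw [if_neg (by rw [mem_insert]; push Not; exact ⟨hy, hy2⟩)]
              exact h1
        · intro J hJ hJd x
          have hadd : deg w'' J x = deg w' J x + ∑ y : ∀ i, X i,
              (if (∀ i ∈ J, y i = x i) then (if y i = u then uns N t W w P K i T y else 0) else 0) := by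
            unfold deg
            rw [← sum_add_distrib]
            refine sum_congr rfl fun y _ => ?_
            simp only [hw'']
            split_ifs <;> simp
          rw [hadd]
          have hJP : Disjoint J P := disjoint_of_subset_right (subset_insert i P) hJd
          have hiJ : i ∉ J := fun h => (disjoint_left.1 hJd) h (mem_insert_self i P)
          by_cases hs : K * (W / t * ((∏ j ∈ insert i P, (t / N j)) * ∏ j ∈ J, (t / N j))) ≤
              deg (ovr w i T) J x
          · have h0 : ∑ y : ∀ i, X i, (if (∀ i ∈ J, y i = x i) then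
                (if y i = u then uns N t W w P K i T y else 0) else 0) = 0 := by
              refine sum_eq_zero fun y _ => ?_
              split_ifs with h1 h2
              · unfold uns
                rw [if_pos]
                exact ⟨J, hJ, hJd, by rw [deg_congr _ h1]; exact hs⟩
              · rfl
              · rfl
            rw [h0, add_zero]
            exact hdeg J hJ hJd x
          · push Not at hs
            have h1 : deg w' J x ≤ deg (ovr w i T) J x := deg_mono (fun y => (hw' y).2) J x
            have h2 : ∑ y : ∀ i, X i, (if (∀ i ∈ J, y i = x i) then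
                (if y i = u then uns N t W w P K i T y else 0) else 0) ≤
                A * (W / t * ((∏ j ∈ insert i P, (t / N j)) * ∏ j ∈ J, (t / N j))) := by
              have h3 := hb.deg (insert i J) (insert_nonempty i J)
                (disjoint_insert_left.2 ⟨hi, hJP⟩) (Function.update x i u)
              rw [prod_insert hiJ] at h3
              rw [prod_insert hi]
              refine le_trans ?_ (h3.trans (le_of_eq (by ring)))
              unfold deg
              refine sum_le_sum fun y _ => ?_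
              have h4 : (∀ j ∈ insert i J, y j = Function.update x i u j) ↔
                  (∀ j ∈ J, y j = x j) ∧ y i = u := by
                constructor
                · intro h
                  refine ⟨fun j hj => ?_, ?_⟩
                  · have := h j (mem_insert_of_mem hj)
                    rwa [Function.update_of_ne (ne_of_mem_of_not_mem hj hiJ)] at this
                  · have := h i (mem_insert_self i J)
                    rwa [Function.update_self] at this
                · rintro ⟨h5, h6⟩ j hj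
                  rcases mem_insert.1 hj with rfl | hj
                  · rw [Function.update_self]
                    exact h6
                  · rw [Function.update_of_ne (ne_of_mem_of_not_mem hj hiJ)]
                    exact h5 j hj
              simp only [h4]
              by_cases h5 : ∀ j ∈ J, y j = x j
              · by_cases h6 : y i = u
                · rw [if_pos h5, if_pos h6, if_pos ⟨h5, h6⟩]
                  exact (huns y).2
                · rw [if_pos h5, if_neg h6, if_neg (fun h => h6 h.2)]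
              · rw [if_neg h5, if_neg (fun h => h5 h.1)]
            linarith
        · simp only [hw'', sum_add_distrib]
          unfold ZZ at hu
          have h1 := (mem_filter.1 hu).2
          push_cast
          linarith
      · left
        push Not at hex
        exact ⟨T, by omega, hGT, hex⟩

end stage

end Pool.Agent.N437.RL
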