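import Pool.Agent.N437.RL.Step
/-!
# The container step over all types
-/

set_option autoImplicit false
set_option linter.unusedSectionVars false
set_option linter.unusedVariables false

open Finset

namespace Pool.Agent.N437.RL

/-- the family which is `Z` at `i` and empty elsewhere -/
def one {ι : Type} [DecidableEq ι] {X : ι → Type} (i : ι) (Z : Finset (X i)) : ∀ j, Finset (X j) :=
  Function.update (fun _ => ∅) i Z

theorem mem_one {ι : Type} [DecidableEq ι] {X : ι → Type} {i : ι} {Z : Finset (X i)} {j : ι}
    {u : X j} (h : u ∈ one i Z j) : j = i := by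
  by_contra hj
  unfold one at h
  rw [Function.update_of_ne hj] at h
  exact notMem_empty u h

theorem one_self {ι : Type} [DecidableEq ι] {X : ι → Type} (i : ι) (Z : Finset (X i)) :
    one i Z i = Z := by
  unfold one
  rw [Function.update_self]

theorem uns_le {ι : Type} [Fintype ι] [DecidableEq ι] {X : ι → Type} [∀ i, Fintype (X i)]
    [∀ i, DecidableEq (X i)] {N : ι → ℝ} {t : ℕ} {W : ℝ} {w : (∀ i, X i) → ℝ} {P : Finset ι}
    {K : ℝ} {i : ι} (hw : ∀ y, 0 ≤ w y) (T : Finset (X i)) (y : ∀ i, X i) :
    uns N t W w P K i T y ≤ w y := by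
  unfold uns
  split_ifs
  · exact hw y
  · exact le_rfl

theorem ZZ_pos {ι : Type} [Fintype ι] [DecidableEq ι] {X : ι → Type} [∀ i, Fintype (X i)]
    [∀ i, DecidableEq (X i)] {N : ι → ℝ} {t : ℕ} {W : ℝ} {w : (∀ i, X i) → ℝ} {P : Finset ι}
    {K γ : ℝ} {i : ι} (hN : ∀ i, 0 < N i) (ht : 0 < t) (hW : 0 < W) (hγ : 0 < γ)
    (hw : ∀ y, 0 ≤ w y) {T : Finset (X i)} {u : X i} (hu : u ∈ ZZ N t W w P K γ i T) :
    ∃ y, y i = u ∧ 0 < w y := by
  classical
  have ht' : (0 : ℝ) < t := by exact_mod_cast ht
  by_contra hcon
  push Not at hcon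
  unfold ZZ at hu
  have h1 := (mem_filter.1 hu).2
  have h2 : ∑ y : ∀ i, X i, (if y i = u then uns N t W w P K i T y else 0) ≤ 0 := by
    refine sum_nonpos fun y _ => ?_
    split_ifs with h
    · exact (uns_le hw T y).trans (hcon y h)
    · exact le_rfl
  have h3 : 0 < ∏ j ∈ P, ((t : ℝ) / N j) := prod_pos fun j _ => div_pos ht' (hN j)
  have h4 : 0 < γ / 4 * (W * ∏ j ∈ P, ((t : ℝ) / N j)) / N i := by
    have := hN i
    positivity
  linarith

theorem sigma_update {ι : Type} [Fintype ι] [DecidableEq ι] {X : ι → Type} [∀ i, Fintype (X i)]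
    [∀ i, DecidableEq (X i)] (T₀ : ∀ i, Finset (X i)) (i : ι) (T : Finset (X i)) (u : X i) :
    insert (⟨i, u⟩ : Σ i, X i) (univ.sigma (Function.update T₀ i T)) =
      univ.sigma (Function.update T₀ i (insert u T)) := by
  ext ⟨j, x⟩
  simp only [mem_insert, mem_sigma, mem_univ, true_and, Sigma.mk.injEq]
  by_cases hj : j = i
  · subst hj
    rw [Function.update_self, Function.update_self]
    simp
  · rw [Function.update_of_ne hj, Function.update_of_ne hj]
    simp [hj]

theorem step_all {ι : Type} [Fintype ι] [DecidableEq ι] : ∀ (n : ℕ) (R : Finset ι), R.card = n + 1 →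
    ∀ γ A : ℝ, 0 < γ → 0 < A → ∃ c : ℝ, 0 < c ∧
    ∀ (X : ι → Type) [∀ i, Fintype (X i)] [∀ i, DecidableEq (X i)] [Nonempty (∀ i, X i)]
      (N : ι → ℝ) (t : ℕ) (W : ℝ) (w : (∀ i, X i) → ℝ),
      (∀ i, 0 < N i) → (∀ i, (Fintype.card (X i) : ℝ) ≤ N i) → 0 < t → 0 < W →
      Bdd N t W w (univ \ R) A → γ * (W * ∏ j ∈ univ \ R, (t / N j)) ≤ ∑ y, w y →
      ∃ 𝒵 : (∀ i, Finset (X i)) → ∀ i, Finset (X i),
        (∀ T i u, u ∈ 𝒵 T i → ∃ y, y i = u ∧ 0 < w y) ∧
        ∀ Good : Finset (Σ i, X i) → Prop, ∀ T₀ : ∀ i, Finset (X i), (∀ i ∈ R, T₀ i = ∅) →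
          Good (univ.sigma T₀) → ∃ T : ∀ i, Finset (X i), (∀ i, i ∉ R → T i = T₀ i) ∧
            (∀ i ∈ R, (T i).card ≤ t) ∧ Good (univ.sigma T) ∧
            (∃ i ∈ R, c * N i ≤ (𝒵 T i).card) ∧
            ∀ i, ∀ u ∈ 𝒵 T i,
              ((⟨i, u⟩ : Σ i, X i) ∉ univ.sigma T → ¬ Good (insert ⟨i, u⟩ (univ.sigma T))) ∨
              c * (W * ∏ j ∈ univ.erase i, (t / N j)) / N i ≤
                ∑ y : ∀ i, X i, if (y i = u ∧ ∀ j ∈ R.erase i, y j ∈ T j) then w y else 0 := by
  classical
  intro n
  induction n with
  | zero =>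
    intro R hR γ A hγ hA
    obtain ⟨i, rfl⟩ := card_eq_one.1 hR
    refine ⟨min (γ / (4 * A)) (γ / 4), by positivity, ?_⟩
    intro X _ _ _ N t W w hN hX ht hW hb htot
    have hi : i ∉ univ \ {i} := by simp
    have ht' : (0 : ℝ) < t := by exact_mod_cast ht
    set K : ℝ := 2 ^ (Fintype.card ι + 1) * A ^ 2 / γ with hK
    refine ⟨fun _ => one i (ZZ N t W w (univ \ {i}) K γ i ∅), ?_, ?_⟩
    · intro T j u hu
      have hj := mem_one hu
      subst hj
      simp only [one_self] at hu
      exact ZZ_pos hN ht hW hγ hb.nonneg hu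
    · intro Good T₀ hT₀ hG
      refine ⟨T₀, fun _ _ => rfl, fun j hj => by rw [hT₀ j hj]; simp, hG,
        ⟨i, mem_singleton_self i, ?_⟩, ?_⟩
      · simp only [one_self]
        have h1 := ZZ_card hN ht hW hb hA hγ le_rfl hi (hX i) htot (T := ∅) (by simp)
        refine le_trans ?_ h1
        have := hN i
        gcongr
        exact min_le_left _ _
      · intro j u hu
        have hj := mem_one hu
        subst hj
        simp only [one_self] at hu
        right
        unfold ZZ at hu
        have h1 := (mem_filter.1 hu).2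
        rw [sdiff_singleton_eq_erase] at h1
        have h2 : 0 ≤ W * ∏ j ∈ univ.erase j, ((t : ℝ) / N j) :=
          mul_nonneg hW.le (prod_nonneg fun j _ => (div_pos ht' (hN j)).le)
        have h3 : min (γ / (4 * A)) (γ / 4) * (W * ∏ j ∈ univ.erase j, ((t : ℝ) / N j)) / N j ≤
            γ / 4 * (W * ∏ j ∈ univ.erase j, ((t : ℝ) / N j)) / N j := by
          refine div_le_div_of_nonneg_right ?_ (hN j).le
          exact mul_le_mul_of_nonneg_right (min_le_right _ _) h2
        refine h3.trans (h1.trans (sum_le_sum fun y _ => ?_))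
        by_cases hy : y j = u
        · rw [if_pos hy, if_pos ⟨hy, by simp⟩]
          rw [← sdiff_singleton_eq_erase]
          exact uns_le hb.nonneg _ y
        · rw [if_neg hy, if_neg (fun h => hy h.1)]
  | succ n ih =>
    intro R hR γ A hγ hA
    have hRne : R.Nonempty := card_pos.1 (by omega)
    obtain ⟨i, hiR⟩ := hRne
    set K : ℝ := 2 ^ (Fintype.card ι + 1) * A ^ 2 / γ with hK
    have hK0 : 0 < K := by positivity
    obtain ⟨c', hc', hih⟩ := ih (R.erase i) (by rw [card_erase_of_mem hiR, hR]; rfl) (γ / 4) (K + A)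
      (by positivity) (by positivity)
    refine ⟨min c' (γ / (4 * A)), by positivity, ?_⟩
    intro X _ _ _ N t W w hN hX ht hW hb htot
    have ht' : (0 : ℝ) < t := by exact_mod_cast ht
    have hi : i ∉ univ \ R := by simp [hiR]
    have hins : insert i (univ \ R) = univ \ (R.erase i) := by
      ext j
      simp only [mem_insert, mem_sdiff, mem_univ, true_and, mem_erase]
      by_cases hj : j = i <;> simp [hj]
    have hτ : ∀ Q : Finset ι, 0 < ∏ j ∈ Q, ((t : ℝ) / N j) := fun Q => prod_pos fun j _ =>
      div_pos ht' (hN j)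
    -- the property of the next weight
    set H : Finset (X i) → ((∀ i, X i) → ℝ) → Prop := fun T' w' =>
      Bdd N t W w' (univ \ (R.erase i)) (K + A) ∧
      γ / 4 * (W * ∏ j ∈ univ \ (R.erase i), (t / N j)) ≤ ∑ y, w' y ∧
      ∀ y, w' y ≤ ovr w i T' y with hH
    have hnext : ∀ T' : Finset (X i), ∀ h : (∃ w', H T' w'), ∃ 𝒵 : (∀ i, Finset (X i)) →
        ∀ i, Finset (X i),
        (∀ T i u, u ∈ 𝒵 T i → ∃ y, y i = u ∧ 0 < Classical.choose h y) ∧
        ∀ Good : Finset (Σ i, X i) → Prop, ∀ T₀ : ∀ i, Finset (X i),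
          (∀ i_1 ∈ R.erase i, T₀ i_1 = ∅) →
          Good (univ.sigma T₀) → ∃ T : ∀ i, Finset (X i), (∀ i_1, i_1 ∉ R.erase i → T i_1 = T₀ i_1) ∧
            (∀ i_1 ∈ R.erase i, (T i_1).card ≤ t) ∧ Good (univ.sigma T) ∧
            (∃ i_1 ∈ R.erase i, c' * N i_1 ≤ (𝒵 T i_1).card) ∧
            ∀ i_1, ∀ u ∈ 𝒵 T i_1,
              ((⟨i_1, u⟩ : Σ i, X i) ∉ univ.sigma T → ¬ Good (insert ⟨i_1, u⟩ (univ.sigma T))) ∨
              c' * (W * ∏ j ∈ univ.erase i_1, (t / N j)) / N i_1 ≤
                ∑ y : ∀ i, X i, if (y i_1 = u ∧ ∀ j ∈ (R.erase i).erase i_1, y j ∈ T j) then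
                  Classical.choose h y else 0 := by
      intro T' h
      have hs := Classical.choose_spec h
      exact hih X N t W (Classical.choose h) hN hX ht hW hs.1 hs.2.1
    choose 𝒵' h𝒵' using hnext
    refine ⟨fun T => if h : (∃ w', H (T i) w') then 𝒵' (T i) h T else
      one i (ZZ N t W w (univ \ R) K γ i (T i)), ?_, ?_⟩
    · intro T j u hu
      simp only at hu
      split_ifs at hu with h
      · obtain ⟨y, hy1, hy2⟩ := (h𝒵' (T i) h).1 T j u hu
        refine ⟨y, hy1, lt_of_lt_of_le hy2 ?_⟩
        exact ((Classical.choose_spec h).2.2 y).trans (ovr_le hb.nonneg i _ y)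
      · have hj := mem_one hu
        subst hj
        rw [one_self] at hu
        exact ZZ_pos hN ht hW hγ hb.nonneg hu
    · intro Good T₀ hT₀ hG
      have hup : Function.update T₀ i ∅ = T₀ := by
        rw [← hT₀ i hiR, Function.update_eq_self]
      -- run the greedy algorithm
      have hgr : ∃ T' : Finset (X i), T'.card ≤ t ∧ Good (univ.sigma (Function.update T₀ i T')) ∧
          ((∃ w', H T' w') ∨ ∀ u ∈ ZZ N t W w (univ \ R) K γ i T', u ∉ T' →
            ¬ Good (univ.sigma (Function.update T₀ i (insert u T')))) := by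
        rcases greedy hN ht hW hb hA hγ hK0 hi
          (fun T' => Good (univ.sigma (Function.update T₀ i T'))) (by rw [hup]; exact hG) t le_rfl
          with ⟨T', h1, h2, h3⟩ | ⟨T', h1, h2, w', h3, h4, h5⟩
        · exact ⟨T', h1, h2, Or.inr h3⟩
        · refine ⟨T', h1.le, h2, Or.inl ⟨w', ⟨fun y => (h3 y).1, ?_⟩, ?_, fun y => (h3 y).2⟩⟩
          · intro J hJ hJd x
            rw [← hins] at hJd ⊢
            exact h4 J hJ hJd x
          · rw [← hins, prod_insert hi]
            refine le_trans (le_of_eq ?_) h5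
            have := (hN i).ne'
            field_simp
      obtain ⟨T', hT'c, hT'G, hor⟩ := hgr
      set T₁ := Function.update T₀ i T' with hT₁
      have hT₁i : T₁ i = T' := by simp [hT₁]
      by_cases h : ∃ w', H T' w'
      · have h' : ∃ w', H (T₁ i) w' := by rw [hT₁i]; exact h
        obtain ⟨T, hT1, hT2, hT3, hT4, hT5⟩ := (h𝒵' (T₁ i) h').2 Good T₁ (by
          intro j hj
          rw [hT₁, Function.update_of_ne (ne_of_mem_erase hj)]
          exact hT₀ j (mem_of_mem_erase hj)) hT'G
        have hTi : T i = T₁ i := hT1 i (by simp)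
        have h'' : ∃ w', H (T i) w' := by rw [hTi]; exact h'
        have hEq : (if h : (∃ w', H (T i) w') then 𝒵' (T i) h T else
            one i (ZZ N t W w (univ \ R) K γ i (T i))) = 𝒵' (T₁ i) h' T := by
          rw [dif_pos h'']
          congr 1
        refine ⟨T, ?_, ?_, hT3, ?_, ?_⟩
        · intro j hj
          rw [hT1 j (fun hj' => hj (mem_of_mem_erase hj')), hT₁, Function.update_of_ne]
          rintro rfl
          exact hj hiR
        · intro j hj
          by_cases hji : j = i
          · subst hji
            rw [hTi, hT₁i]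
            exact hT'c
          · exact hT2 j (mem_erase.2 ⟨hji, hj⟩)
        · simp only [hEq]
          obtain ⟨j, hj, hj2⟩ := hT4
          refine ⟨j, mem_of_mem_erase hj, le_trans ?_ hj2⟩
          have := hN j
          gcongr
          exact min_le_left _ _
        · intro j u hu
          simp only [hEq] at hu
          rcases hT5 j u hu with h5 | h5
          · exact Or.inl h5
          · right
            have h2 : 0 ≤ W * ∏ j ∈ univ.erase j, ((t : ℝ) / N j) :=
              mul_nonneg hW.le (hτ _).le
            have h3 : min c' (γ / (4 * A)) * (W * ∏ j ∈ univ.erase j, ((t : ℝ) / N j)) / N j ≤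
                c' * (W * ∏ j ∈ univ.erase j, ((t : ℝ) / N j)) / N j := by
              refine div_le_div_of_nonneg_right ?_ (hN j).le
              exact mul_le_mul_of_nonneg_right (min_le_left _ _) h2
            refine h3.trans (h5.trans (sum_le_sum fun y _ => ?_))
            have hs := Classical.choose_spec h'
            have hc := hs.2.2 y
            by_cases hy : y j = u ∧ ∀ l ∈ (R.erase i).erase j, y l ∈ T l
            · rw [if_pos hy]
              unfold ovr at hc
              by_cases hyi : y i ∈ T₁ i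
              · rw [if_pos hyi] at hc
                rw [if_pos]
                · exact hc
                · refine ⟨hy.1, fun l hl => ?_⟩
                  by_cases hli : l = i
                  · subst hli
                    rw [hTi]
                    exact hyi
                  · refine hy.2 l ?_
                    rw [mem_erase, mem_erase]
                    exact ⟨ne_of_mem_erase hl, hli, mem_of_mem_erase hl⟩
              · rw [if_neg hyi] at hc
                refine hc.trans ?_
                split_ifs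
                · exact hb.nonneg y
                · exact le_rfl
            · rw [if_neg hy]
              split_ifs
              · exact hb.nonneg y
              · exact le_rfl
      · rcases hor with hor | hor
        · exact absurd hor h
        have h' : ¬ ∃ w', H (T₁ i) w' := by rw [hT₁i]; exact h
        refine ⟨T₁, ?_, ?_, hT'G, ?_, ?_⟩
        · intro j hj
          rw [hT₁, Function.update_of_ne]
          rintro rfl
          exact hj hiR
        · intro j hj
          by_cases hji : j = i
          · subst hji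
            rw [hT₁i]
            exact hT'c
          · rw [hT₁, Function.update_of_ne hji, hT₀ j hj]
            simp
        · refine ⟨i, hiR, ?_⟩
          simp only [dif_neg h', one_self]
          have h1 := ZZ_card hN ht hW hb hA hγ le_rfl hi (hX i) htot (T := T₁ i)
            (by rw [hT₁i]; exact hT'c)
          refine le_trans ?_ h1
          have := hN i
          gcongr
          exact min_le_right _ _
        · intro j u hu
          simp only [dif_neg h'] at hu
          have hj := mem_one hu
          subst hj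
          rw [one_self, hT₁i] at hu
          left
          intro hnot
          rw [hT₁, sigma_update]
          refine hor u hu fun huT => hnot ?_
          rw [mem_sigma]
          exact ⟨mem_univ _, by rw [hT₁i]; exact huT⟩

end Pool.Agent.N437.RL
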