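import Pool.Agent.N437.RL.Det
import Pool.Agent.N437.RL.Prob
/-!
# The union bound over fingerprints
-/

set_option autoImplicit false
set_option linter.unusedSectionVars false
set_option linter.unusedVariables false

open Finset

namespace Pool.Agent.N437.RL

variable {V : Type} [Fintype V] [DecidableEq V] {Y : Type} [Fintype Y] [DecidableEq Y] [Nonempty Y]

theorem bdd_w0 {k : ℕ} (A : Fin k → Finset (Sym2 V)) {t : ℕ} (ht : 0 < t)
    (hJ : ∀ J : Finset (Fin k), 2 ≤ J.card →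
      ∏ j ∈ J, (Fintype.card Y : ℝ) ^ (vs (A j)).card ≤
        (Fintype.card Y : ℝ) ^ (J.biUnion fun j => vs (A j)).card * t ^ (J.card - 1)) :
    Bdd (fun j => (Fintype.card Y : ℝ) ^ (vs (A j)).card) t
      ((Fintype.card Y : ℝ) ^ Fintype.card V)
      (w0 (Y := Y) (fun j => vs (A j))) ∅ 1 := by
  have hY : (0 : ℝ) < Fintype.card Y := by exact_mod_cast Fintype.card_pos
  have ht' : (0 : ℝ) < t := by exact_mod_cast ht
  refine ⟨fun y => Nat.cast_nonneg _, fun J hJne _ x => ?_⟩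
  have h1 := deg_w0_le (fun j => vs (A j)) J x
  have hall : ∏ j ∈ J, (Fintype.card Y : ℝ) ^ (vs (A j)).card ≤
      (Fintype.card Y : ℝ) ^ (J.biUnion fun j => vs (A j)).card * t ^ (J.card - 1) := by
    rcases Nat.lt_or_ge J.card 2 with h2 | h2
    · have h3 : J.card = 1 := by have := card_pos.2 hJne; omega
      obtain ⟨j, rfl⟩ := card_eq_one.1 h3
      simp
    · exact hJ J h2
  rw [prod_empty, one_mul, one_mul, prod_div_distrib, prod_const]
  have hP : 0 < ∏ j ∈ J, (Fintype.card Y : ℝ) ^ (vs (A j)).card :=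
    prod_pos fun j _ => by positivity
  obtain ⟨m, hm⟩ : ∃ m, J.card = m + 1 := ⟨J.card - 1, by have := card_pos.2 hJne; omega⟩
  rw [hm] at hall ⊢
  simp only [Nat.add_sub_cancel] at hall
  have h4 : (Fintype.card Y : ℝ) ^ Fintype.card V / t * ((t : ℝ) ^ (m + 1) /
      ∏ j ∈ J, (Fintype.card Y : ℝ) ^ (vs (A j)).card) =
      (Fintype.card Y : ℝ) ^ Fintype.card V * t ^ m /
        ∏ j ∈ J, (Fintype.card Y : ℝ) ^ (vs (A j)).card := by
    rw [pow_succ]
    field_simp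
  rw [h4, le_div_iff₀ hP]
  have h5 : 0 ≤ deg (w0 (Y := Y) (fun j => vs (A j))) J x :=
    deg_nonneg (fun y => Nat.cast_nonneg _) J x
  calc deg (w0 (Y := Y) (fun j => vs (A j))) J x *
        ∏ j ∈ J, (Fintype.card Y : ℝ) ^ (vs (A j)).card
      ≤ deg (w0 (Y := Y) (fun j => vs (A j))) J x *
        ((Fintype.card Y : ℝ) ^ (J.biUnion fun j => vs (A j)).card * t ^ m) :=
        mul_le_mul_of_nonneg_left hall h5
    _ = (deg (w0 (Y := Y) (fun j => vs (A j))) J x *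
        (Fintype.card Y : ℝ) ^ (J.biUnion fun j => vs (A j)).card) * t ^ m := by ring
    _ ≤ (Fintype.card Y : ℝ) ^ Fintype.card V * t ^ m :=
        mul_le_mul_of_nonneg_right h1 (by positivity)

/-- extension by empty sets -/
def ex {ι : Type} {X : ι → Type} {s : ℕ} (T : Fin s → ∀ j, Finset (X j)) : ℕ → ∀ j, Finset (X j) :=
  fun r => if h : r < s then T ⟨r, h⟩ else fun _ => ∅

theorem prod_lab {ι : Type} [Fintype ι] [DecidableEq ι] {X : ι → Type} [∀ i, Fintype (X i)]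
    [∀ i, DecidableEq (X i)] (T : ℕ → ∀ i, Finset (X i)) (s : ℕ) (g : ι → ℝ) :
    ∏ x ∈ lab T s, g x.2.1 = ∏ r ∈ range s, ∏ i, g i ^ (T r i).card := by
  unfold lab
  rw [prod_biUnion]
  · refine prod_congr rfl fun r _ => ?_
    rw [prod_image, prod_sigma]
    · refine prod_congr rfl fun i _ => ?_
      exact prod_const (g i)
    · intro x _ y _ h
      exact (Prod.mk.inj h).2
  · intro r _ r' _ hrr
    rw [Function.onFun, disjoint_left]
    intro x hx hx'
    obtain ⟨z, _, rfl⟩ := mem_image.1 hx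
    obtain ⟨z', _, h⟩ := mem_image.1 hx'
    exact hrr (Prod.mk.inj h).1.symm

/-- the edges of a pair -/
noncomputable def Bd {k s : ℕ} (A : Fin k → Finset (Sym2 V))
    (i : (Fin s → ∀ j, Finset (vs (A j) → Y)) × Finset (Σ j, (vs (A j) → Y))) : Finset (Sym2 Y) :=
  (lab (ex i.1) s ∪ i.2.image (Prod.mk s)).biUnion fun x => EE A x.2

theorem card_Bd {k s : ℕ} (A : Fin k → Finset (Sym2 V)) {EG : Finset (Sym2 Y)}
    (i : (Fin s → ∀ j, Finset (vs (A j) → Y)) × Finset (Σ j, (vs (A j) → Y)))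
    (hG : Good A EG (lab (ex i.1) s ∪ i.2.image (Prod.mk s))) (p : ℝ) :
    p ^ (Bd A i).card = (∏ r : Fin s, ∏ j, (p ^ (A j).card) ^ (i.1 r j).card) *
      ∏ x ∈ i.2, p ^ (A x.1).card := by
  have h1 : (Bd A i).card = ∑ x ∈ lab (ex i.1) s ∪ i.2.image (Prod.mk s), (A x.2.1).card := by
    unfold Bd
    rw [card_biUnion (fun x hx y hy hxy => hG.2 x hx y hy hxy)]
    exact sum_congr rfl fun x hx => Eb_card Subset.rfl (hG.1 x hx).1
  rw [h1, ← prod_pow_eq_pow_sum, prod_union, prod_lab (ex i.1) s (fun j => p ^ (A j).card),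
    prod_range, prod_image]
  · congr 1
    refine prod_congr rfl fun r _ => ?_
    refine prod_congr rfl fun j _ => ?_
    unfold ex
    rw [dif_pos r.2]
  · intro x _ y _ h
    exact (Prod.mk.inj h).2
  · rw [disjoint_left]
    intro x hx hx'
    obtain ⟨z, _, rfl⟩ := mem_image.1 hx'
    have := (mem_lab.1 hx).1
    exact absurd this (lt_irrefl _)

theorem sum_T {k s t : ℕ} {X : Fin k → Type} [∀ j, Fintype (X j)] [∀ j, DecidableEq (X j)]
    (q : Fin k → ℝ) (hq : ∀ j, 0 ≤ q j) {Gb : ℝ}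
    (hGb : ∀ j, ∑ Z ∈ (univ : Finset (Finset (X j))).filter (fun Z => Z.card ≤ t),
      q j ^ Z.card ≤ Gb) :
    ∑ T ∈ (univ : Finset (Fin s → ∀ j, Finset (X j))).filter (fun T => ∀ r j, (T r j).card ≤ t),
      ∏ r : Fin s, ∏ j, q j ^ (T r j).card ≤ Gb ^ (s * k) := by
  classical
  have h1 : (univ : Finset (Fin s → ∀ j, Finset (X j))).filter (fun T => ∀ r j, (T r j).card ≤ t) =
      Fintype.piFinset fun _ : Fin s => Fintype.piFinset fun j =>
        (univ : Finset (Finset (X j))).filter (fun Z => Z.card ≤ t) := by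
    ext T
    simp [Fintype.mem_piFinset]
  rw [h1, ← prod_univ_sum (fun _ : Fin s => Fintype.piFinset fun j =>
    (univ : Finset (Finset (X j))).filter (fun Z => Z.card ≤ t))
    (fun _ T => ∏ j, q j ^ (T j).card)]
  have h2 : ∑ T ∈ Fintype.piFinset fun j =>
      (univ : Finset (Finset (X j))).filter (fun Z => Z.card ≤ t), ∏ j, q j ^ (T j).card =
      ∏ j, ∑ Z ∈ (univ : Finset (Finset (X j))).filter (fun Z => Z.card ≤ t), q j ^ Z.card :=
    (prod_univ_sum (fun j => (univ : Finset (Finset (X j))).filter (fun Z => Z.card ≤ t))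
      (fun j Z => q j ^ Z.card)).symm
  rw [h2, prod_const, card_univ, Fintype.card_fin, mul_comm s k, pow_mul]
  have h3 : ∏ j, ∑ Z ∈ (univ : Finset (Finset (X j))).filter (fun Z => Z.card ≤ t),
      q j ^ Z.card ≤ Gb ^ k := by
    have : ∏ j, ∑ Z ∈ (univ : Finset (Finset (X j))).filter (fun Z => Z.card ≤ t),
      q j ^ Z.card ≤ ∏ _j : Fin k, Gb :=
      prod_le_prod (fun j _ => sum_nonneg fun Z _ => pow_nonneg (hq j) _) fun j _ => hGb j
    rwa [prod_const, card_univ, Fintype.card_fin] at this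
  exact pow_le_pow_left₀ (prod_nonneg fun j _ => sum_nonneg fun Z _ => pow_nonneg (hq j) _) h3 s

/-- the union bound -/
theorem union_sum {k s t t₀ : ℕ} (A : Fin k → Finset (Sym2 V)) {U : Finset (Sym2 Y)} {p : ℝ}
    (hp : 0 ≤ p) (hp1 : p ≤ 1) (Q : Finset (Sym2 Y) → Prop)
    (D : (Fin s → ∀ j, Finset (vs (A j) → Y)) → ∀ j, Finset (vs (A j) → Y))
    (hQ : ∀ EG₀ ⊆ U, Q EG₀ → ∃ (T : Fin s → ∀ j, Finset (vs (A j) → Y))
      (F : Finset (Σ j, (vs (A j) → Y))), (∀ r j, (T r j).card ≤ t) ∧ F ⊆ univ.sigma (D T) ∧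
        F.card = t₀ ∧ Good A EG₀ (lab (ex T) s ∪ F.image (Prod.mk s)))
    {Gb Fb : ℝ} (hGb : ∀ j, ∑ Z ∈ (univ : Finset (Finset (vs (A j) → Y))).filter
      (fun Z => Z.card ≤ t), (p ^ (A j).card) ^ Z.card ≤ Gb) (hGb0 : 0 ≤ Gb)
    (hFb : ∀ T, ∑ F ∈ (univ.sigma (D T)).powersetCard t₀, ∏ x ∈ F, p ^ (A x.1).card ≤ Fb) :
    prE U p Q ≤ Gb ^ (s * k) * Fb := by
  classical
  obtain ⟨TT, hTT⟩ : ∃ TT, TT = (univ : Finset (Fin s → ∀ j, Finset (vs (A j) → Y))).filter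
    (fun T => ∀ r j, (T r j).card ≤ t) := ⟨_, rfl⟩
  obtain ⟨I, hI⟩ : ∃ I, I = ((TT ×ˢ (univ : Finset (Finset (Σ j, (vs (A j) → Y))))).filter
    fun i => i.2 ∈ (univ.sigma (D i.1)).powersetCard t₀ ∧
      ∃ EG, Good A EG (lab (ex i.1) s ∪ i.2.image (Prod.mk s))) := ⟨_, rfl⟩
  have h1 : prE U p Q ≤ ∑ i ∈ I, p ^ (Bd A i).card := by
    refine prE_union hp hp1 Q I (Bd A) ?_
    intro EG₀ hEG hQE
    obtain ⟨T, F, a1, a2, a3, a4⟩ := hQ EG₀ hEG hQE
    refine ⟨(T, F), ?_, ?_⟩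
    · rw [hI, mem_filter]
      refine ⟨mem_product.2 ⟨?_, mem_univ _⟩, mem_powersetCard.2 ⟨a2, a3⟩, EG₀, a4⟩
      rw [hTT]
      exact mem_filter.2 ⟨mem_univ _, a1⟩
    · unfold Bd
      rw [biUnion_subset]
      exact fun x hx => (a4.1 x hx).2
  refine h1.trans ?_
  have h2 : ∀ i ∈ I, p ^ (Bd A i).card = (∏ r : Fin s, ∏ j, (p ^ (A j).card) ^ (i.1 r j).card) *
      ∏ x ∈ i.2, p ^ (A x.1).card := by
    intro i hi
    rw [hI, mem_filter] at hi
    obtain ⟨EG, hEG⟩ := hi.2.2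
    exact card_Bd A i hEG p
  rw [sum_congr rfl h2]
  have h3 : ∑ i ∈ I, (∏ r : Fin s, ∏ j, (p ^ (A j).card) ^ (i.1 r j).card) *
      ∏ x ∈ i.2, p ^ (A x.1).card ≤
      ∑ i ∈ TT ×ˢ (univ : Finset (Finset (Σ j, (vs (A j) → Y)))),
        if i.2 ∈ (univ.sigma (D i.1)).powersetCard t₀ then
          (∏ r : Fin s, ∏ j, (p ^ (A j).card) ^ (i.1 r j).card) * ∏ x ∈ i.2, p ^ (A x.1).card
        else 0 := by
    rw [hI, sum_filter]
    refine sum_le_sum fun i _ => ?_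
    have h0 : 0 ≤ (∏ r : Fin s, ∏ j, (p ^ (A j).card) ^ (i.1 r j).card) *
        ∏ x ∈ i.2, p ^ (A x.1).card := by positivity
    split_ifs with ha hb hb
    · exact le_rfl
    · exact absurd ha.1 hb
    · exact h0
    · exact le_rfl
  refine h3.trans ?_
  rw [sum_product]
  have h4 : ∀ T ∈ TT, ∑ F : Finset (Σ j, (vs (A j) → Y)),
      (if F ∈ (univ.sigma (D T)).powersetCard t₀ then
        (∏ r : Fin s, ∏ j, (p ^ (A j).card) ^ (T r j).card) * ∏ x ∈ F, p ^ (A x.1).card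
        else 0) ≤ (∏ r : Fin s, ∏ j, (p ^ (A j).card) ^ (T r j).card) * Fb := by
    intro T _
    rw [← sum_filter, filter_mem_eq_inter, univ_inter, ← mul_sum]
    exact mul_le_mul_of_nonneg_left (hFb T) (by positivity)
  refine (sum_le_sum h4).trans ?_
  rw [← sum_mul]
  have hFb0 : 0 ≤ Fb := le_trans (sum_nonneg fun F _ => by positivity) (hFb fun _ _ => ∅)
  refine mul_le_mul_of_nonneg_right ?_ hFb0
  rw [hTT]
  exact sum_T (fun j => p ^ (A j).card) (fun j => by positivity) hGb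

end Pool.Agent.N437.RL
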